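import Pool.Agent.Lib.MP_be93de_nt.Hc.Defs

/-! The mean of the rank weight over a long interval is close to one. -/

namespace Pool.Agent.Lib.MP_be93de_nt.Hc

open Finset Filter Pool.Agent.Lib.MP_be93de_nt.Hb

namespace Avg2x

theorem ev_pow (C : ℝ) (k : ℕ) : ∀ᶠ s : ℕ in atTop, C * (s : ℝ) ^ k ≤ 2 ^ s := by
  have h := tendsto_pow_const_div_const_pow_of_one_lt k (r := (2 : ℝ)) (by norm_num)
  have h2 := h.const_mul C
  rw [mul_zero] at h2
  filter_upwards [h2.eventually (gt_mem_nhds (show (0 : ℝ) < 1 by norm_num))] with s hs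
  have hp : (0 : ℝ) < 2 ^ s := by positivity
  rw [← mul_div_assoc, div_lt_one hp] at hs
  exact hs.le

/-- the classes of `-j`, `j ∈ J` -/
def om (J : Finset ℕ) (p : ℕ) : Finset ℕ := J.image fun j => (p - j % p) % p

theorem om_sub (J : Finset ℕ) {p : ℕ} (hp : 0 < p) : om J p ⊆ range p := by
  intro a ha
  obtain ⟨j, _, rfl⟩ := mem_image.1 ha
  exact mem_range.2 (Nat.mod_lt _ hp)

theorem neg_iff {p : ℕ} (hp : 0 < p) (m j : ℕ) : (p - j % p) % p = m % p ↔ p ∣ m + j := by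
  have hj := Nat.mod_lt j hp
  have h1 : (p - j % p) + j ≡ 0 [MOD p] := by
    have h2 : (p - j % p) + j ≡ (p - j % p) + j % p [MOD p] :=
      Nat.ModEq.add_left _ (Nat.mod_modEq j p).symm
    rw [Nat.sub_add_cancel hj.le] at h2
    exact h2.trans (Nat.modEq_zero_iff_dvd.2 dvd_rfl)
  constructor
  · intro h
    have h3 : (p - j % p) + j ≡ m + j [MOD p] := Nat.ModEq.add_right j h
    exact Nat.modEq_zero_iff_dvd.1 (h3.symm.trans h1)
  · intro h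
    have h3 : (p - j % p) + j ≡ m + j [MOD p] := h1.trans (Nat.modEq_zero_iff_dvd.2 h).symm
    exact Nat.ModEq.add_right_cancel' j h3

theorem mem_om (J : Finset ℕ) {p : ℕ} (hp : 0 < p) (m : ℕ) :
    m % p ∈ om J p ↔ ∃ j ∈ J, p ∣ m + j := by
  unfold om
  rw [mem_image]
  exact exists_congr fun j => and_congr_right fun _ => neg_iff hp m j

/-- primes dividing a nonzero difference -/
def exc (J : Finset ℕ) : Finset ℕ := (J ×ˢ J).biUnion fun z => (z.1 - z.2).primeFactors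

theorem pf_card {d z : ℕ} (h : d ≤ 2 ^ z) : d.primeFactors.card ≤ z := by
  rcases Nat.eq_zero_or_pos d with rfl | hd
  · simp
  · have h1 : 2 ^ d.primeFactors.card ≤ ∏ p ∈ d.primeFactors, p :=
      pow_card_le_prod _ _ _ fun p hp => (Nat.prime_of_mem_primeFactors hp).two_le
    have h2 := Nat.le_of_dvd hd (Nat.prod_primeFactors_dvd d)
    exact (Nat.pow_le_pow_iff_right (by norm_num)).1 (h1.trans (h2.trans h))

theorem exc_card (J : Finset ℕ) {z : ℕ} (hJ : ∀ i ∈ J, ∀ j ∈ J, i ≤ j + 2 ^ z) :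
    (exc J).card ≤ J.card * J.card * z := by
  rw [← card_product]
  refine card_biUnion_le_card_mul _ _ _ fun x hx => pf_card ?_
  exact Nat.sub_le_iff_le_add'.2 (hJ _ (mem_product.1 hx).1 _ (mem_product.1 hx).2)

theorem om_card (J : Finset ℕ) {p : ℕ} (hp : p.Prime) (he : p ∉ exc J) :
    (om J p).card = J.card := by
  have hp0 : 0 < p := hp.pos
  have aux : ∀ i ∈ J, ∀ j ∈ J, j ≡ i [MOD p] → ¬ j < i := fun i hi j hj h hlt =>
    he (mem_biUnion.2 ⟨(i, j), mem_product.2 ⟨hi, hj⟩,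
      Nat.mem_primeFactors.2 ⟨hp, (Nat.modEq_iff_dvd' hlt.le).1 h, by
        show i - j ≠ 0
        omega⟩⟩)
  refine card_image_of_injOn fun i hi j hj hij => ?_
  have hij' : (p - i % p) % p = (p - j % p) % p := hij
  have h1 : p ∣ (p - j % p) + i := (neg_iff hp0 _ i).1 hij'
  have h2 : p ∣ (p - j % p) + j := (neg_iff hp0 _ j).1 rfl
  have h3 : i ≡ j [MOD p] := Nat.ModEq.add_left_cancel' (p - j % p)
    ((Nat.modEq_zero_iff_dvd.2 h1).trans (Nat.modEq_zero_iff_dvd.2 h2).symm)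
  exact le_antisymm (not_lt.1 (aux i hi j hj h3.symm)) (not_lt.1 (aux j hj i hi h3))

theorem av_eq (a b L r : ℕ) (g : ℝ) (J : Finset ℕ) :
    Av L r (G (Free a b) g J) = g ^ J.card *
      (((Ico r (r + L)).filter (fun m => ∀ p ∈ pr a b, m % p ∉ om J p)).card : ℝ) / L := by
  classical
  unfold Av
  congr 1
  have h1 : ∑ u ∈ range L, G (Free a b) g J (r + u) = ∑ m ∈ Ico r (r + L), G (Free a b) g J m := by
    rw [sum_Ico_eq_sum_range]
    simp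
  rw [h1, card_filter]
  push_cast
  rw [mul_sum]
  refine sum_congr rfl fun m _ => ?_
  have hpos : ∀ p ∈ pr a b, 0 < p := fun p hp => (mem_filter.1 hp).2.pos
  by_cases h : ∀ p ∈ pr a b, m % p ∉ om J p
  · rw [if_pos h, mul_one]
    unfold G
    rw [← prod_const]
    refine prod_congr rfl fun j hj => ind_pos fun p hp hd => ?_
    exact h p hp ((mem_om J (hpos p hp) m).2 ⟨j, hj, hd⟩)
  · rw [if_neg h, mul_zero]
    push Not at h
    obtain ⟨p, hp, hm⟩ := h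
    obtain ⟨j, hj, hd⟩ := (mem_om J (hpos p hp) m).1 hm
    exact prod_eq_zero hj (ind_neg fun hf => hf p hp hd)

theorem pr_card (a b : ℕ) : (pr a b).card ≤ b := by
  unfold pr
  refine (card_filter_le _ _).trans ?_
  rw [Nat.card_Ioc]
  omega

theorem small (s a b : ℕ) (h : a + 3 * s + 4 ≤ b) :
    (2 : ℝ) ^ a / 2 ^ b ≤ 1 / (16 * 8 ^ s) := by
  rw [div_le_div_iff₀ (by positivity) (by positivity), one_mul]
  calc (2 : ℝ) ^ a * (16 * 8 ^ s) = 2 ^ (a + 3 * s + 4) := by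
        rw [pow_add, pow_add, pow_mul]; norm_num; ring
    _ ≤ 2 ^ b := pow_le_pow_right₀ (by norm_num) h

theorem lam_le (s : ℕ) (hs : 50 ≤ s) :
    Real.log (1 + Real.log ((2 ^ (4 * s ^ 2) : ℕ) : ℝ)) + 38 ≤ 5 * s := by
  have hs' : (50 : ℝ) ≤ s := by exact_mod_cast hs
  have h1 : Real.log ((2 ^ (4 * s ^ 2) : ℕ) : ℝ) ≤ 4 * (s : ℝ) ^ 2 := by
    push_cast
    rw [Real.log_pow]
    push_cast
    have : Real.log 2 ≤ 1 := by
      have := Real.log_le_sub_one_of_pos (show (0 : ℝ) < 2 by norm_num)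
      linarith
    have h4 : (0 : ℝ) ≤ 4 * (s : ℝ) ^ 2 := by positivity
    nlinarith
  have h0 : 0 ≤ Real.log ((2 ^ (4 * s ^ 2) : ℕ) : ℝ) := Real.log_natCast_nonneg _
  have h2 : Real.log (1 + Real.log ((2 ^ (4 * s ^ 2) : ℕ) : ℝ)) ≤ Real.log ((1 + 2 * s) ^ 2) :=
    Real.log_le_log (by linarith) (by nlinarith)
  rw [Real.log_pow] at h2
  have h3 := Real.log_le_sub_one_of_pos (show (0 : ℝ) < 1 + 2 * s by positivity)
  push_cast at h2 ⊢
  linarith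

theorem fact_le (x : ℝ) (s t : ℕ) (hx : 0 ≤ x) (h : x ≤ 10 * (s : ℝ) ^ 3) :
    x ^ t / t.factorial ≤ 2 ^ (40 * s ^ 3) / 2 ^ t := by
  have h1 := Real.pow_div_factorial_le_exp (2 * x) (by positivity) t
  have h2 : Real.exp (2 * x) ≤ 2 ^ (40 * s ^ 3) := by
    have he : Real.exp 1 ≤ 2 ^ 2 := by
      have := Real.exp_one_lt_d9
      linarith
    calc Real.exp (2 * x) ≤ Real.exp (((20 * s ^ 3 : ℕ) : ℝ) * 1) :=
          Real.exp_le_exp.2 (by push_cast; linarith)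
      _ = Real.exp 1 ^ (20 * s ^ 3) := Real.exp_nat_mul _ _
      _ ≤ (2 ^ 2) ^ (20 * s ^ 3) := pow_le_pow_left₀ (Real.exp_pos _).le he _
      _ = 2 ^ (40 * s ^ 3) := by rw [← pow_mul]; congr 1; ring
  rw [le_div_iff₀ (by positivity)]
  calc x ^ t / t.factorial * 2 ^ t = (2 * x) ^ t / t.factorial := by rw [mul_pow]; ring
    _ ≤ _ := h1.trans h2

end Avg2x

open Avg2x in
theorem avg2_st (h1 : MertSt) (h2 : BonfSt) (h3 : TailSt) : Avg2St := by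
  filter_upwards [ev_pow (Real.exp 42) 2, ev_pow 64 4, ev_pow 512 15, eventually_ge_atTop 50]
    with s e1 e2 e3 hs
  intro r J hk hJ
  have hs' : (50 : ℝ) ≤ s := by exact_mod_cast hs
  set Q := pr (2 ^ (4 * s)) (2 ^ (4 * s ^ 2)) with hQ
  set k := J.card with hkdef
  have hk' : (k : ℝ) ≤ 2 * (s : ℝ) ^ 2 := by exact_mod_cast hk
  have hpr : ∀ p ∈ Q, p.Prime := fun p hp => (mem_filter.1 hp).2
  have hgt : ∀ p ∈ Q, 2 ^ (4 * s) < p := fun p hp => (mem_Ioc.1 (mem_filter.1 hp).1).1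
  have hcn : ∀ p, (om J p).card ≤ k := fun p => card_image_le
  have hcard : ∀ p, ((om J p).card : ℝ) ≤ k := fun p => by exact_mod_cast hcn p
  have hB := h2 Q (om J) r (R s) (s ^ 4) hpr fun p hp => om_sub J (hpr p hp).pos
  have h2s : (2 : ℝ) * (s : ℝ) ^ 2 + 1 ≤ 2 ^ s := by
    have : (2 : ℝ) * (s : ℝ) ^ 2 + 1 ≤ 64 * (s : ℝ) ^ 4 := by nlinarith [sq_nonneg ((s : ℝ) ^ 2 - 1)]
    linarith
  have hky : k ≤ 2 ^ (4 * s) := by
    have a : (2 : ℝ) ^ s ≤ 2 ^ (4 * s) := pow_le_pow_right₀ (by norm_num) (by omega)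
    have b : (k : ℝ) ≤ ((2 ^ (4 * s) : ℕ) : ℝ) := by push_cast; linarith
    exact_mod_cast b
  obtain ⟨f1, f2⟩ := h3 Q (exc J) (fun p => (om J p).card) k (2 ^ (4 * s)) Nat.one_le_two_pow hky
    hgt (fun p _ => hcn p) (fun p hp he => om_card J (hpr p hp) he)
  have t0 : 2 * (2 * (k : ℝ) * (exc J).card / ((2 ^ (4 * s) : ℕ) : ℝ)) ≤ 1 / (16 * 8 ^ s) := by
    have a : ((exc J).card : ℝ) ≤ k * k * (s : ℝ) ^ 9 := by exact_mod_cast exc_card J hJ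
    have a' : (k : ℝ) * (exc J).card ≤ 8 * (s : ℝ) ^ 15 :=
      calc (k : ℝ) * (exc J).card ≤ k * (k * k * (s : ℝ) ^ 9) :=
            mul_le_mul_of_nonneg_left a (by positivity)
        _ ≤ (2 * (s : ℝ) ^ 2) * ((2 * (s : ℝ) ^ 2) * (2 * (s : ℝ) ^ 2) * (s : ℝ) ^ 9) := by gcongr
        _ = _ := by ring
    have b : (2 : ℝ) ^ (4 * s) = 2 ^ s * 8 ^ s := by
      rw [← mul_pow, pow_mul]; norm_num
    push_cast
    rw [← mul_div_assoc, div_le_div_iff₀ (by positivity) (by positivity), one_mul, b]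
    have c : (0 : ℝ) < 8 ^ s := by positivity
    nlinarith
  have f3 : ∏ p ∈ Q, (1 - ((om J p).card : ℝ) / p) / (1 - 1 / (p : ℝ)) ^ k ≤
      1 + 1 / (16 * 8 ^ s) := by
    have x0 : 0 ≤ 2 * (k : ℝ) * (exc J).card / ((2 ^ (4 * s) : ℕ) : ℝ) := by positivity
    have c : (1 : ℝ) / (16 * 8 ^ s) ≤ 1 := by
      have : (1 : ℝ) ≤ 8 ^ s := one_le_pow₀ (by norm_num)
      rw [div_le_one (by positivity)]
      linarith
    have d := Real.abs_exp_sub_one_le (x := 2 * (k : ℝ) * (exc J).card / ((2 ^ (4 * s) : ℕ) : ℝ))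
      (by rw [abs_of_nonneg x0]; linarith)
    rw [abs_of_nonneg x0] at d
    linarith [le_abs_self (Real.exp (2 * (k : ℝ) * (exc J).card / ((2 ^ (4 * s) : ℕ) : ℝ)) - 1)]
  have hsig : 0 < sig s := (h1.1 _ _).1
  have hg0 : 0 ≤ (sig s)⁻¹ := (inv_pos.2 hsig).le
  have hg : (sig s)⁻¹ ^ k ≤ 2 ^ (2 * s ^ 3) := by
    have a : (sig s)⁻¹ ≤ 2 ^ s := (h1.2.2 s (by omega)).2.1.trans e1
    calc (sig s)⁻¹ ^ k ≤ ((2 : ℝ) ^ s) ^ k := pow_le_pow_left₀ hg0 a _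
      _ ≤ ((2 : ℝ) ^ s) ^ (2 * s ^ 2) := pow_le_pow_right₀ (one_le_pow₀ (by norm_num)) hk
      _ = 2 ^ (2 * s ^ 3) := by rw [← pow_mul]; congr 1; ring
  have hprod : ∏ p ∈ Q, (1 - ((om J p).card : ℝ) / p) / (1 - 1 / (p : ℝ)) ^ k =
      (sig s)⁻¹ ^ k * ∏ p ∈ Q, (1 - ((om J p).card : ℝ) / p) := by
    rw [prod_div_distrib, prod_pow, inv_pow, div_eq_mul_inv, mul_comm]
    rfl
  rw [hprod] at f1 f3
  have hL : (0 : ℝ) < R s := by unfold R; positivity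
  have hLe : ((R s : ℕ) : ℝ) = 2 ^ (s ^ 7) := by unfold R; push_cast; rfl
  have hlam : ∑ p ∈ Q, ((om J p).card : ℝ) / p ≤ 10 * (s : ℝ) ^ 3 := by
    refine (sum_le_sum fun p _ => div_le_div_of_nonneg_right (hcard p) (Nat.cast_nonneg p)).trans ?_
    have a : ∑ p ∈ Q, (k : ℝ) / p = k * ∑ p ∈ Q, 1 / (p : ℝ) := by
      rw [mul_sum]; exact sum_congr rfl fun p _ => by ring
    have b := (h1.2.1 (2 ^ (4 * s)) (2 ^ (4 * s ^ 2))).trans (lam_le s hs)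
    have c : 0 ≤ ∑ p ∈ Q, 1 / (p : ℝ) := sum_nonneg fun p _ => by positivity
    rw [a]
    calc (k : ℝ) * ∑ p ∈ Q, 1 / (p : ℝ) ≤ (2 * (s : ℝ) ^ 2) * (5 * s) :=
          mul_le_mul hk' b c (by positivity)
      _ = _ := by ring
  have hT2 := fact_le _ s (s ^ 4) (sum_nonneg fun p _ => by positivity) hlam
  have hT3 : (1 + ∑ p ∈ Q, ((om J p).card : ℝ)) ^ (s ^ 4) ≤ 2 ^ (5 * s ^ 6) := by
    have z0 : (0 : ℝ) ≤ ∑ p ∈ Q, ((om J p).card : ℝ) := sum_nonneg fun p _ => Nat.cast_nonneg _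
    have z1 : ∑ p ∈ Q, ((om J p).card : ℝ) ≤ ∑ _p ∈ Q, (k : ℝ) := sum_le_sum fun p _ => hcard p
    have z2 : (1 + ∑ p ∈ Q, ((om J p).card : ℝ)) ^ (s ^ 4) ≤ (1 + ∑ _p ∈ Q, (k : ℝ)) ^ (s ^ 4) :=
      pow_le_pow_left₀ (by linarith) (by linarith) _
    refine z2.trans ?_
    have a : (Q.card : ℝ) ≤ 2 ^ (4 * s ^ 2) := by exact_mod_cast pr_card _ _
    have b : (1 : ℝ) ≤ 2 ^ (4 * s ^ 2) := one_le_pow₀ (by norm_num)
    have c : (2 : ℝ) ^ s ≤ 2 ^ (s ^ 2) := pow_le_pow_right₀ (by norm_num) (by nlinarith)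
    have d : 1 + ∑ _p ∈ Q, (k : ℝ) ≤ 2 ^ (5 * s ^ 2) := by
      rw [sum_const, nsmul_eq_mul]
      have e : (Q.card : ℝ) * k ≤ 2 ^ (4 * s ^ 2) * (2 * (s : ℝ) ^ 2) :=
        mul_le_mul a hk' (by positivity) (by positivity)
      have f : (2 : ℝ) ^ (5 * s ^ 2) = 2 ^ (4 * s ^ 2) * 2 ^ (s ^ 2) := by
        rw [← pow_add]; congr 1; ring
      rw [f]
      nlinarith
    calc (1 + ∑ _p ∈ Q, (k : ℝ)) ^ (s ^ 4) ≤ ((2 : ℝ) ^ (5 * s ^ 2)) ^ (s ^ 4) :=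
          pow_le_pow_left₀ (by positivity) d _
      _ = _ := by rw [← pow_mul]; congr 1; ring
  have n2 : 2 * s ^ 3 + 1 + 40 * s ^ 3 + 3 * s + 4 ≤ s ^ 4 := by
    have a : 50 * s ^ 3 ≤ s ^ 4 := by
      calc 50 * s ^ 3 ≤ s * s ^ 3 := Nat.mul_le_mul_right _ hs
        _ = s ^ 4 := by ring
    have b : s ≤ s ^ 3 := Nat.le_self_pow (by norm_num) s
    omega
  have n3 : 2 * s ^ 3 + 5 * s ^ 6 + 3 * s + 4 ≤ s ^ 7 := by
    have a : 50 * s ^ 6 ≤ s ^ 7 := by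
      calc 50 * s ^ 6 ≤ s * s ^ 6 := Nat.mul_le_mul_right _ hs
        _ = s ^ 7 := by ring
    have b : s ≤ s ^ 6 := Nat.le_self_pow (by norm_num) s
    have c : s ^ 3 ≤ s ^ 6 := Nat.pow_le_pow_right (by omega) (by norm_num)
    omega
  have t2 := small s _ _ n2
  have t3 := small s _ _ n3
  have t1 : (k : ℝ) ^ 2 / ((2 ^ (4 * s) : ℕ) : ℝ) ≤ 1 / (16 * 8 ^ s) := by
    push_cast
    rw [div_le_div_iff₀ (by positivity) (by positivity), one_mul]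
    have a : (k : ℝ) ^ 2 ≤ (2 * (s : ℝ) ^ 2) ^ 2 := pow_le_pow_left₀ (by positivity) hk' _
    have b : (2 : ℝ) ^ (4 * s) = 2 ^ s * 8 ^ s := by
      rw [← mul_pow, pow_mul]; norm_num
    rw [b]
    have c : (0 : ℝ) < 8 ^ s := by positivity
    nlinarith
  have hav := av_eq (2 ^ (4 * s)) (2 ^ (4 * s ^ 2)) (R s) r (sig s)⁻¹ J
  have hSS : SS s = Free (2 ^ (4 * s)) (2 ^ (4 * s ^ 2)) := rfl
  rw [hSS, hav]
  set c : ℝ := (((Ico r (r + R s)).filter (fun m => ∀ p ∈ Q, m % p ∉ om J p)).card : ℝ) with hc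
  set P : ℝ := ∏ p ∈ Q, (1 - ((om J p).card : ℝ) / p) with hP
  set g : ℝ := (sig s)⁻¹ ^ k with hgd
  have hg0' : 0 ≤ g := pow_nonneg hg0 _
  have key : |g * c / R s - g * P| ≤ 1 / (16 * 8 ^ s) + 1 / (16 * 8 ^ s) := by
    have a : g * c / R s - g * P = g * (c - R s * P) / R s := by field_simp
    rw [a, abs_div, abs_mul, abs_of_nonneg hg0', abs_of_pos hL]
    have b : |c - R s * P| ≤ 2 * R s * (2 ^ (40 * s ^ 3) / 2 ^ (s ^ 4)) + 2 ^ (5 * s ^ 6) := by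
      refine hB.trans (add_le_add ?_ hT3)
      rw [mul_div_assoc]
      exact mul_le_mul_of_nonneg_left hT2 (by positivity)
    calc g * |c - R s * P| / R s
        ≤ 2 ^ (2 * s ^ 3) * (2 * R s * (2 ^ (40 * s ^ 3) / 2 ^ (s ^ 4)) + 2 ^ (5 * s ^ 6)) / R s :=
          div_le_div_of_nonneg_right (mul_le_mul hg b (abs_nonneg _) (by positivity)) hL.le
      _ = 2 ^ (2 * s ^ 3 + 1 + 40 * s ^ 3) / 2 ^ (s ^ 4) +
            2 ^ (2 * s ^ 3 + 5 * s ^ 6) / 2 ^ (s ^ 7) := by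
          rw [← hLe, pow_add, pow_add, pow_add]; field_simp
      _ ≤ _ := add_le_add t2 t3
  have fin : (1 : ℝ) / (4 * 8 ^ s) = 4 * (1 / (16 * 8 ^ s)) := by field_simp; norm_num
  have pos : (0 : ℝ) ≤ 1 / (16 * 8 ^ s) := by positivity
  rw [abs_le] at key ⊢
  constructor <;> linarith [key.1, key.2]

end Pool.Agent.Lib.MP_be93de_nt.Hc
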