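import Pool.Agent.Lib.MP_be93de_nt.Hc.Defs

namespace Pool.Agent.Lib.MP_be93de_nt.Hc

open Finset Filter Pool.Agent.Lib.MP_be93de_nt.Hb

namespace Block2x

def Zn (T u : ℕ) : Finset ℕ := (range (u + 1)).image (fun i => T + 3 * (i + 1))

theorem mem_Zn {T u a : ℕ} : a ∈ Zn T u ↔ ∃ i, i ≤ u ∧ T + 3 * (i + 1) = a := by
  simp [Zn]

theorem card_Zn (T u : ℕ) : (Zn T u).card = u + 1 := by
  rw [Zn, card_image_of_injective _ (fun i j e => by omega), card_range]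

theorem good_union {P : ℕ → Prop} {T L u r : ℕ} {B : Finset ℕ} (hu : u < L)
    (hB : ∀ a ∈ B, T + 3 * L + 3 ≤ a) (h : Good P (r + 1 + u) B) : Good P r (Zn T u ∪ B) := by
  intro a ha ha2
  have a1 : a ∈ B := by
    rcases mem_union.1 ha with e | e
    · obtain ⟨i, hi, rfl⟩ := mem_Zn.1 e
      rcases mem_union.1 ha2 with e' | e'
      · obtain ⟨j, -, hj⟩ := mem_Zn.1 e'
        omega
      · have := hB _ e'
        omega
    · exact e
  have a0 := hB a a1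
  have a2 : a + 2 ∈ B := by
    rcases mem_union.1 ha2 with e' | e'
    · obtain ⟨j, hj, hj'⟩ := mem_Zn.1 e'
      omega
    · exact e'
  have e1 : (Zn T u).filter (· ≤ a) = Zn T u := filter_true_of_mem fun x hx => by
    obtain ⟨j, hj, hj'⟩ := mem_Zn.1 hx
    omega
  have e2 : Disjoint (Zn T u) (B.filter (· ≤ a)) := disjoint_left.2 fun x hx hx' => by
    obtain ⟨j, hj, hj'⟩ := mem_Zn.1 hx
    have := hB x (mem_filter.1 hx').1
    omega
  have := h a a1 a2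
  rw [filter_union, e1, card_union_of_disjoint e2, card_Zn]
  convert this using 1
  omega

theorem sub_un {cs : List (Finset ℕ)} {c : Finset ℕ} (h : c ∈ cs) : c ⊆ un cs := by
  induction cs with
  | nil => simp at h
  | cons a l ih =>
    rcases List.mem_cons.1 h with rfl | e
    · exact subset_union_left
    · exact (ih e).trans subset_union_right

theorem num3 {s k : ℕ} (hs : 2 ≤ s) (hk : k ≤ s) :
    (4 : ℝ) ^ k * (1 / (4 * 8 ^ s) + (1 / 4) ^ (2 * s)) ≤ 1 / (2 * 2 ^ s) := by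
  have a1 : (4 : ℝ) ^ k ≤ 4 ^ s := pow_le_pow_right₀ (by norm_num) hk
  have a2 : (4 : ℝ) ≤ 2 ^ s := by
    have := pow_le_pow_right₀ (show (1 : ℝ) ≤ 2 by norm_num) hs
    linarith
  have e1 : (4 : ℝ) ^ s = (2 ^ s) ^ 2 := by rw [← pow_mul, mul_comm, pow_mul]; norm_num
  have e2 : (8 : ℝ) ^ s = (2 ^ s) ^ 3 := by rw [← pow_mul, mul_comm, pow_mul]; norm_num
  have e3 : (1 / 4 : ℝ) ^ (2 * s) = 1 / (2 ^ s) ^ 4 := by
    rw [one_div_pow, ← pow_mul, mul_comm s 4, pow_mul, pow_mul]; norm_num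
  refine (mul_le_mul_of_nonneg_right a1 (by positivity)).trans ?_
  rw [e1, e2, e3]
  generalize (2 : ℝ) ^ s = w at *
  have w0 : 0 < w := by linarith
  have e4 : w ^ 2 * (1 / (4 * w ^ 3) + 1 / w ^ 4) = 1 / (4 * w) + 1 / (w * w) := by
    field_simp
  have e5 : 1 / (w * w) ≤ 1 / (4 * w) := one_div_le_one_div_of_le (by positivity) (by nlinarith)
  have e6 : 1 / (2 * w) = 1 / (4 * w) + 1 / (4 * w) := by field_simp; norm_num
  linarith

theorem one_eq (B K : Finset ℕ) : one (B : Set ℕ) K = if K ⊆ B then 1 else 0 := by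
  unfold one
  by_cases h : K ⊆ B
  · rw [if_pos h, if_pos fun t ht => mem_coe.2 (h ht)]
  · rw [if_neg h, if_neg fun k => h fun t ht => mem_coe.1 (k t ht)]

theorem num2 {s : ℕ} (hs : 2 ≤ s) : 2 * s * (3 * Y s + 1) ≤ 2 ^ (s ^ 9) := by
  have a1 : s ≤ 2 ^ s := Nat.lt_two_pow_self.le
  have a3 : 1 ≤ 2 ^ s ^ 8 := Nat.one_le_two_pow
  have a4 : 3 * Y s + 1 ≤ 2 ^ (s ^ 8 + 2) := by
    rw [Y, pow_add]; omega
  have a2 : 2 * s ≤ 2 ^ (s + 1) := by rw [pow_succ]; omega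
  have a5 : s + 1 + (s ^ 8 + 2) ≤ s ^ 9 := by
    have b1 : 2 ^ 7 ≤ s ^ 7 := Nat.pow_le_pow_left hs 7
    have b2 : s ^ 8 = s * s ^ 7 := by ring
    have b3 : s ^ 9 = s * s ^ 8 := by ring
    have b4 : s * 2 ^ 7 ≤ s * s ^ 7 := Nat.mul_le_mul_left s b1
    have b5 : 2 * s ^ 8 ≤ s * s ^ 8 := Nat.mul_le_mul_right _ hs
    omega
  calc 2 * s * (3 * Y s + 1) ≤ 2 ^ (s + 1) * 2 ^ (s ^ 8 + 2) := Nat.mul_le_mul a2 a4
    _ = 2 ^ (s + 1 + (s ^ 8 + 2)) := by rw [← pow_add]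
    _ ≤ 2 ^ (s ^ 9) := Nat.pow_le_pow_right (by norm_num) a5

end Block2x

open Block2x in
theorem block2_st (h1 : MertSt) (h2 : Cells2St) (h3 : BaseSt) (h4 : TiltSt) (h5 : FuncSt)
    (h6 : CombSt) (h7 : Avg2St) (h8 : ManySt) : Block2St := by
  filter_upwards [h7, h8, eventually_ge_atTop 16,
    (tendsto_natCast_atTop_atTop (R := ℝ)).eventually_ge_atTop (12 * Real.exp 42)]
    with s hA hM hs hs' T T' r ρ ι I K d hT1 hT2 h0 hρ
  have s8 : (16 : ℝ) ≤ s := by exact_mod_cast hs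
  have s0 : (0 : ℝ) < s := by linarith
  have s1 : (1 : ℝ) ≤ s ^ 7 := one_le_pow₀ (by linarith)
  have hρ' : ρ * (s : ℝ) ^ 8 ≤ 1 := (le_div_iff₀ (by positivity)).1 hρ
  have e8 : (s : ℝ) ^ 8 = s * s ^ 7 := by ring
  have ρ7 : ρ * (s : ℝ) ^ 7 ≤ 1 / 16 := by
    have : 0 ≤ ρ * (s : ℝ) ^ 7 := by positivity
    nlinarith
  have ρ1 : ρ ≤ 1 / 16 := by nlinarith
  have f4 : 4 ≤ 2 ^ (2 * s) := by
    simpa using Nat.pow_le_pow_right (show 1 ≤ 2 by norm_num) (show 2 ≤ 2 * s by omega)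
  have m1 : 1 ≤ s ^ 7 := Nat.one_le_pow _ _ (by omega)
  have hU : ∀ a ∈ (Ico (T + 3 * R s + 3) T').filter (Free 0 (2 ^ (2 * s))),
      ¬ 2 ∣ a ∧ ¬ 3 ∣ a := fun a ha => by
    have k := (mem_filter.1 ha).2
    exact ⟨k 2 (mem_filter.2 ⟨mem_Ioc.2 ⟨by norm_num, by omega⟩, Nat.prime_two⟩),
      k 3 (mem_filter.2 ⟨mem_Ioc.2 ⟨by norm_num, by omega⟩, Nat.prime_three⟩)⟩
  have n2 : 3 * R s + 3 ≤ Y s := by
    obtain ⟨a, ha⟩ := card_pos.1 (lt_of_lt_of_le m1 (hM T))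
    have := mem_Ico.1 (mem_filter.1 ha).1
    omega
  obtain ⟨cs, hS, hc, hu⟩ := h2 _ (s ^ 7) m1
    ((hM T).trans (card_le_card (filter_subset_filter _ (Ico_subset_Ico le_rfl hT1)))) hU
  have g1 : 1 ≤ (sig s)⁻¹ := (one_le_inv₀ (h1.1 _ _).1).2 (h1.1 _ _).2
  have g2 := (h1.2.2 s (by omega)).2.1
  have hp : ∀ c, ∃ p, c ∈ cs → Prob (SS s) c p ∧
      Rep (SS s) (sig s)⁻¹ ρ ((1 / 4) ^ (2 * s)) (2 * s) c p := fun c => by
    by_cases hcs : c ∈ cs
    swap
    · exact ⟨fun _ _ => 0, fun k => absurd k hcs⟩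
    have k1 : (s : ℝ) ^ 7 ≤ c.card := by exact_mod_cast (hc c hcs).1
    have k2 : (c.card : ℝ) ≤ 2 * s ^ 7 + 1 := by exact_mod_cast (hc c hcs).2
    obtain ⟨β, hβ⟩ := h3 c ρ (2 * s) h0 (by linarith) (by nlinarith)
    obtain ⟨p, hp⟩ := h4 (SS s) c (sig s)⁻¹ ρ _ (2 * s) β
      (fun a ha => (hU a (hu ▸ sub_un hcs ha)).2) g1 (by
        refine le_trans ?_ k1
        push_cast
        have m1 : 3 * (sig s)⁻¹ * (2 * (s : ℝ)) ^ 2 ≤
            3 * (Real.exp 42 * s ^ 2) * (2 * (s : ℝ)) ^ 2 := by gcongr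
        have m2 : 12 * Real.exp 42 * (s : ℝ) ^ 4 ≤ s * s ^ 4 := by gcongr
        have m3 : (s : ℝ) ^ 5 ≤ s ^ 7 := pow_le_pow_right₀ (by linarith) (by norm_num)
        nlinarith) hβ
    exact ⟨p, fun _ => hp⟩
  choose p hp using hp
  have R1 : 1 ≤ R s := Nat.one_le_two_pow
  have R0 : (0 : ℝ) < R s := by exact_mod_cast R1
  obtain ⟨lin, hr⟩ := h5 (SS s) p cs
  obtain ⟨cst, mono, sel⟩ := hr fun c k => (hp c k).1
  obtain ⟨u, hu', hmin⟩ := exists_min_image (range (R s)) (fun u => ∑ i ∈ I, d i *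
    Ex p cs (r + 1 + u) (fun B => if K i ⊆ Zn T u ∪ B then 1 else 0))
    ⟨0, mem_range.2 R1⟩
  obtain ⟨B, hB, hG, hle⟩ := sel hS (r + 1 + u)
    (fun B => ∑ i ∈ I, d i * if K i ⊆ Zn T u ∪ B then 1 else 0)
  rw [lin] at hle
  have uR := mem_range.1 hu'
  have hBU : ∀ a ∈ un cs, T + 3 * R s + 3 ≤ a ∧ a < T' := fun a ha =>
    mem_Ico.1 (mem_filter.1 (hu ▸ ha)).1
  refine ⟨Zn T u ∪ B, fun L => (∑ u ∈ range (R s),
    Ex p cs (r + 1 + u) (fun B => if L ⊆ Zn T u ∪ B then 1 else 0)) / R s,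
    fun a ha => ?_, ⟨T + 3, mem_union_left _ (mem_Zn.2 ⟨0, Nat.zero_le _, rfl⟩)⟩,
    good_union uR (fun a ha => (hBU a (hB ha)).1) hG, ?_, ?_, fun L => ⟨?_, ?_⟩,
    fun L hL hLs => ?_⟩
  · rcases mem_union.1 ha with e | e
    · obtain ⟨i, hi, rfl⟩ := mem_Zn.1 e
      exact mem_Ico.2 ⟨by omega, by omega⟩
    · have k := hBU a (hB e)
      exact mem_Ico.2 ⟨by omega, k.2⟩
  · have k := card_nsmul_le_sum _ _ _ hmin
    rw [card_range, nsmul_eq_mul, sum_comm] at k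
    simp only [one_eq, mul_sub, sum_sub_distrib, ← mul_div_assoc, mul_sum]
    rw [← sum_div, sub_nonpos, le_div_iff₀ R0]
    exact (mul_le_mul_of_nonneg_right hle R0.le).trans ((mul_comm _ _).trans_le k)
  · simp only [empty_subset, if_true, cst]
    rw [sum_const, card_range, nsmul_eq_mul, mul_one, div_self R0.ne']
  · exact div_nonneg (sum_nonneg fun u _ => (cst _ 0).symm.trans_le
      (mono _ _ _ fun B _ => by split_ifs <;> norm_num)) R0.le
  · rw [div_le_one R0]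
    refine (sum_le_sum (g := fun _ => (1 : ℝ)) fun u _ => (mono _ _ (fun _ => 1)
      fun B _ => by split_ifs <;> norm_num).trans_eq (cst _ 1)).trans ?_
    simp
  · have hz : ∀ u ∈ range (R s), ∀ a ∈ L, a ∉ Zn T u := fun u hu a ha k => by
      obtain ⟨i, hi, rfl⟩ := mem_Zn.1 k
      have := mem_Ico.1 (hL ha)
      have := mem_range.1 hu
      omega
    by_cases hf : ∀ t ∈ L, Free 0 (2 ^ (2 * s)) t
    · rw [if_pos hf]
      have hm : L ⊆ un cs := fun a ha => by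
        rw [hu]; exact mem_filter.2 ⟨hL ha, hf a ha⟩
      have k1 := h6 (SS s) (sig s)⁻¹ ρ ((1 / 4) ^ (2 * s)) (1 / (4 * 8 ^ s)) (2 * s) (2 * s ^ 2)
        (2 ^ (s ^ 9)) (3 * Y s) (R s) (r + 1) p cs L h0 (by linarith)
        (by positivity) R1 (hA (r + 1)) hS
        (fun c k => ⟨card_pos.1 (lt_of_lt_of_le (by positivity) (hc c k).1), hp c k⟩) hm
        (fun a ha b hb => by
          have := mem_Ico.1 (hL ha)
          have := mem_Ico.1 (hL hb)
          omega)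
        (by nlinarith) (num2 (by omega))
      have k2 := k1.trans (num3 (by omega) hLs)
      have k3 : (1 : ℝ) / (2 * 2 ^ s) ≤ 1 / 2 ^ s :=
        one_div_le_one_div_of_le (by positivity) (by
          have : (0 : ℝ) < 2 ^ s := by positivity
          linarith)
      have k4 : ∀ u ∈ range (R s),
          Ex p cs (r + 1 + u) (fun B => if L ⊆ Zn T u ∪ B then 1 else 0) =
          Ex p cs (r + 1 + u) (fun B => if L ⊆ B then 1 else 0) := fun u hu => by
        have k5 : ∀ B : Finset ℕ, L ⊆ Zn T u ∪ B ↔ L ⊆ B := fun B =>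
          ⟨fun k a ha => (mem_union.1 (k ha)).resolve_left (hz u hu a ha),
            fun k => k.trans subset_union_right⟩
        simp only [k5]
      have k6 := k2.trans k3
      unfold Av at k6
      rw [← sum_congr rfl k4] at k6
      exact k6
    · rw [if_neg hf]
      have hb : ∃ a ∈ L, a ∉ un cs := by
        by_contra k
        refine hf fun t ht => ?_
        have : t ∈ un cs := by
          by_contra k'
          exact k ⟨t, ht, k'⟩
        rw [hu] at this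
        exact (mem_filter.1 this).2
      obtain ⟨a, ha, ha'⟩ := hb
      have z1 : ∀ u ∈ range (R s),
          Ex p cs (r + 1 + u) (fun B => if L ⊆ Zn T u ∪ B then 1 else 0) = 0 := fun u hu => by
        have k : ∀ B ⊆ un cs, (if L ⊆ Zn T u ∪ B then (1 : ℝ) else 0) = 0 := fun B hB =>
          if_neg fun k => (mem_union.1 (k ha)).elim (hz u hu a ha) fun k' => ha' (hB k')
        exact le_antisymm ((mono _ _ _ fun B hB => (k B hB).le).trans_eq (cst _ 0))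
          ((cst _ 0).symm.trans_le (mono _ _ _ fun B hB => (k B hB).ge))
      beta_reduce
      rw [sum_eq_zero z1]
      simp

end Pool.Agent.Lib.MP_be93de_nt.Hc
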