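import Pool.Agent.Lib.MP_be93de_nt.Hc.Defs

/-! Choice of the block ends so that few points meet a zone. -/

namespace Pool.Agent.Lib.MP_be93de_nt.Hc

open Finset Filter Pool.Agent.Lib.MP_be93de_nt.Hb

namespace Boundx

theorem win_le (f : ℕ → ℝ) (hf : ∀ t, 0 ≤ f t) (a b c d : ℕ) (h1 : a ≤ b) (h2 : c ≤ d) :
    ∑ t ∈ Ico b c, f t ≤ ∑ t ∈ Ico a d, f t :=
  sum_le_sum_of_subset_of_nonneg (Ico_subset_Ico h1 h2) fun t _ _ => hf t

theorem mean_le (f : ℕ → ℝ) (hf : ∀ t, 0 ≤ f t) (a Yv W : ℕ) (hW : W ≤ Yv) :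
    ∑ h ∈ range Yv, ∑ t ∈ Ico (a + h) (a + h + W), f t ≤ W * ∑ t ∈ Ico a (a + 2 * Yv), f t := by
  have e1 : ∀ h, ∑ t ∈ Ico (a + h) (a + h + W), f t = ∑ i ∈ range W, f (a + h + i) := by
    intro h
    rw [sum_Ico_eq_sum_range, Nat.add_sub_cancel_left]
  simp only [e1]
  rw [sum_comm]
  have e2 : ∀ i ∈ range W, ∑ h ∈ range Yv, f (a + h + i) ≤ ∑ t ∈ Ico a (a + 2 * Yv), f t := by
    intro i hi
    have hi' := mem_range.1 hi
    have e3 : ∑ h ∈ range Yv, f (a + h + i) = ∑ t ∈ Ico (a + i) (a + i + Yv), f t := by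
      rw [sum_Ico_eq_sum_range, Nat.add_sub_cancel_left]
      exact sum_congr rfl fun h _ => by rw [add_right_comm]
    rw [e3]
    exact win_le f hf _ _ _ _ (by omega) (by omega)
  refine (sum_le_sum e2).trans ?_
  rw [sum_const, card_range, nsmul_eq_mul]

theorem blocks (f : ℕ → ℝ) (a L N : ℕ) :
    ∑ j ∈ range N, ∑ t ∈ Ico (a + j * L) (a + j * L + L), f t = ∑ t ∈ Ico a (a + N * L), f t := by
  induction N with
  | zero => simp
  | succ N ih =>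
    rw [sum_range_succ, ih, sum_Ico_consecutive _ (by omega) (by omega)]
    congr 2
    ring

theorem len_le (f : ℕ → ℝ) (s : ℝ) (hf : ∀ t, f t ≤ s) (a L : ℕ) :
    ∑ t ∈ Ico a (a + L), f t ≤ s * L := by
  refine (sum_le_sum fun t _ => hf t).trans ?_
  rw [sum_const, Nat.card_Ico, Nat.add_sub_cancel_left, nsmul_eq_mul, mul_comm]

theorem core (h : PotSt) (ι : Type) (I : Finset ι) (f : ι → ℕ → ℝ) (a Yv W N : ℕ) (s P : ℝ)
    (hs : 1 ≤ s) (hY : 1 ≤ Yv) (hP : 1 ≤ P) (hW : (W : ℝ) * P ≤ Yv) (h0 : ∀ τ t, 0 ≤ f τ t)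
    (hn : ∀ τ ∈ I, ∀ t, f τ t ≤ s) :
    ∃ T : ℕ → ℕ, T 0 = a ∧ T N = a + N * (2 * Yv) ∧
      (∀ j < N, T j + Yv ≤ T (j + 1) ∧ T (j + 1) ≤ T j + 3 * Yv) ∧
      ∀ τ ∈ I, ∑ j ∈ range N, ∑ t ∈ Ico (T j) (T j + W), f τ t ≤
        2 / P * ∑ t ∈ Ico a (a + N * (2 * Yv)), f τ t +
          (Real.log (2 * I.card) * (P * (s * (2 * Yv))) + s * W) := by
  have hYr : (1 : ℝ) ≤ Yv := by exact_mod_cast hY
  have hWY : W ≤ Yv := by
    have h1 : (W : ℝ) ≤ Yv := le_trans (le_mul_of_one_le_right (Nat.cast_nonneg W) hP) hW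
    exact_mod_cast h1
  have hC : 0 < s * (2 * (Yv : ℝ)) := by positivity
  have hP0 : 0 < P := by linarith
  set c : ℕ → ι → ℝ := fun j τ =>
    ∑ t ∈ Ico (a + j * (2 * Yv)) (a + j * (2 * Yv) + 2 * Yv), f τ t with hc
  set Nn : ℕ → ℕ → ι → ℝ := fun j u τ =>
    ∑ t ∈ Ico (a + j * (2 * Yv) + u) (a + j * (2 * Yv) + u + W), f τ t with hNn
  set mn : ℕ → ι → ℝ := fun j τ => (∑ u ∈ range Yv, Nn j u τ) / Yv with hmn
  have c0 : ∀ j τ, 0 ≤ c j τ := fun j τ => sum_nonneg fun t _ => h0 τ t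
  have N0 : ∀ j u τ, 0 ≤ Nn j u τ := fun j u τ => sum_nonneg fun t _ => h0 τ t
  have N1 : ∀ j u τ, u < Yv → Nn j u τ ≤ c j τ := fun j u τ hu =>
    win_le (f τ) (h0 τ) _ _ _ _ (by omega) (by omega)
  have m0 : ∀ j τ, 0 ≤ mn j τ := fun j τ =>
    div_nonneg (sum_nonneg fun u _ => N0 j u τ) (by linarith)
  have m1 : ∀ j τ, mn j τ ≤ 1 / P * c j τ := by
    intro j τ
    have h1 : ∑ u ∈ range Yv, Nn j u τ ≤ W * c j τ := mean_le (f τ) (h0 τ) _ Yv W hWY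
    have h2 : (W : ℝ) ≤ 1 / P * Yv := by
      rw [one_div, inv_mul_eq_div, le_div_iff₀ hP0]; exact hW
    show (∑ u ∈ range Yv, Nn j u τ) / Yv ≤ _
    rw [div_le_iff₀ (by linarith)]
    have h3 := mul_le_mul_of_nonneg_right h2 (c0 j τ)
    linarith
  have hPi : 1 / P ≤ 1 := by rw [div_le_one hP0]; exact hP
  have hl : 1 / (P * (s * (2 * (Yv : ℝ)))) * (s * (2 * (Yv : ℝ))) = 1 / P := by field_simp
  obtain ⟨st, inc, -, hst, hb⟩ := h ι ℕ I c (s * (2 * (Yv : ℝ))) (1 / (P * (s * (2 * (Yv : ℝ)))))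
    (fun j _ u inc => u < Yv ∧ ∀ τ, inc τ = Nn j u τ - mn j τ) 0 (by positivity)
    (by rw [hl]; exact hPi)
    (fun j τ hτ => ⟨c0 j τ, by
      have := len_le (f τ) s (hn τ hτ) (a + j * (2 * Yv)) (2 * Yv)
      push_cast at this
      exact this⟩)
    (by
      intro j _ d
      have hne : (range Yv).Nonempty := ⟨0, mem_range.2 hY⟩
      have hz : ∑ u ∈ range Yv, ∑ τ ∈ I, d τ * (Nn j u τ - mn j τ) ≤ ∑ _u ∈ range Yv, (0 : ℝ) := by
        rw [sum_comm, sum_const_zero]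
        refine le_of_eq (sum_eq_zero fun τ _ => ?_)
        rw [← mul_sum, sum_sub_distrib, sum_const, card_range, nsmul_eq_mul]
        have : (Yv : ℝ) * mn j τ = ∑ u ∈ range Yv, Nn j u τ := by
          show (Yv : ℝ) * ((∑ u ∈ range Yv, Nn j u τ) / Yv) = _
          field_simp
        rw [this, sub_self, mul_zero]
      obtain ⟨u, hu, hu'⟩ := exists_le_of_sum_le hne hz
      refine ⟨u, fun τ => Nn j u τ - mn j τ, ⟨mem_range.1 hu, fun _ => rfl⟩, hu', fun τ _ => ?_⟩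
      have a1 := N0 j u τ
      have a2 := N1 j u τ (mem_range.1 hu)
      have a3 := m0 j τ
      have a4 := m1 j τ
      have a5 := mul_le_mul_of_nonneg_right hPi (c0 j τ)
      rw [abs_le]
      constructor <;> linarith)
  refine ⟨fun j => a + j * (2 * Yv) + if j = 0 ∨ N ≤ j then 0 else st (j + 1), by simp, by simp,
    fun j _ => ?_, fun τ hτ => ?_⟩
  · have b1 := (hst j).1
    have b2 := (hst (j + 1)).1
    have e : (j + 1) * (2 * Yv) = j * (2 * Yv) + 2 * Yv := by ring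
    simp only [e]
    constructor <;> split_ifs <;> omega
  · have t1 : ∀ j ∈ range N,
        ∑ t ∈ Ico (a + j * (2 * Yv) + if j = 0 ∨ N ≤ j then 0 else st (j + 1))
          ((a + j * (2 * Yv) + if j = 0 ∨ N ≤ j then 0 else st (j + 1)) + W), f τ t ≤
        (inc j τ + 1 / P * c j τ) + if j = 0 then s * W else 0 := by
      intro j hj
      have hj' := mem_range.1 hj
      have b1 := (hst j).2 τ
      have b2 := m1 j τ
      have b3 := N0 j (st (j + 1)) τ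
      by_cases h0' : j = 0
      · rw [if_pos (Or.inl h0'), if_pos h0']
        have := len_le (f τ) s (hn τ hτ) (a + j * (2 * Yv) + 0) W
        linarith
      · rw [if_neg (by omega), if_neg h0']
        show Nn j (st (j + 1)) τ ≤ _
        linarith
    refine (sum_le_sum t1).trans ?_
    rw [sum_add_distrib, sum_add_distrib, ← mul_sum, sum_ite_eq']
    have b1 := (abs_le.1 (hb τ hτ N)).2
    rw [hl, div_div_eq_mul_div, div_one] at b1
    have b2 : ∑ j ∈ range N, c j τ = ∑ t ∈ Ico a (a + N * (2 * Yv)), f τ t :=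
      blocks (f τ) a (2 * Yv) N
    have b3 : (if 0 ∈ range N then s * W else 0) ≤ s * (W : ℝ) := by
      split_ifs
      · exact le_rfl
      · positivity
    rw [b2] at b1 ⊢
    have b4 : 2 / P = 1 / P + 1 / P := by ring
    rw [b4]
    linarith

theorem big : ∀ᶠ s : ℕ in atTop, 5 * (s : ℝ) ^ 13 ≤ 4 ^ s := by
  have h := tendsto_pow_const_div_const_pow_of_one_lt 13 (show (1 : ℝ) < 4 by norm_num)
  filter_upwards [h.eventually (gt_mem_nhds (show (0 : ℝ) < 1 / 5 by norm_num))] with s hs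
  rw [div_lt_iff₀ (by positivity)] at hs
  linarith

theorem zone (s : ℕ) (hs : 2 ≤ s) : (3 * R s + 3) * 2 ^ s ≤ Y s := by
  have h1 : 2 ^ 6 ≤ s ^ 6 := Nat.pow_le_pow_left hs 6
  have h2 : s + 3 ≤ s ^ 7 := by
    have : s ^ 7 = s * s ^ 6 := by ring
    nlinarith
  have h3 : s ^ 7 + (s + 3) ≤ s ^ 8 := by
    have : s ^ 8 = s * s ^ 7 := by ring
    nlinarith
  have h4 : 1 ≤ R s := Nat.one_le_two_pow
  calc (3 * R s + 3) * 2 ^ s ≤ (8 * R s) * 2 ^ s := Nat.mul_le_mul_right _ (by omega)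
    _ = 2 ^ (s ^ 7 + (s + 3)) := by unfold R; rw [pow_add, pow_add]; ring
    _ ≤ Y s := Nat.pow_le_pow_right (by norm_num) h3

theorem ends (s : ℕ) (hs : 2 ≤ s) : X s + nc s * (2 * Y s) = X (2 * s) := by
  have h1 : s ^ 8 + 1 ≤ s ^ 10 := by
    have h2 : 1 ≤ s ^ 8 := Nat.one_le_pow _ _ (by omega)
    have h3 : s ^ 10 = s * s * s ^ 8 := by ring
    have h4 : 2 * 2 ≤ s * s := Nat.mul_le_mul hs hs
    nlinarith
  have h2 : s ^ 10 ≤ (2 * s) ^ 10 := Nat.pow_le_pow_left (by omega) 10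
  have e : 2 * Y s = 2 ^ (s ^ 8 + 1) := by unfold Y; exact (pow_succ' 2 (s ^ 8)).symm
  have d1 : 2 * Y s ∣ X s := by rw [e]; exact pow_dvd_pow 2 h1
  have d2 : 2 * Y s ∣ X (2 * s) := by rw [e]; exact pow_dvd_pow 2 (h1.trans h2)
  have l : X s ≤ X (2 * s) := Nat.pow_le_pow_right (by norm_num) h2
  unfold nc
  rw [Nat.div_mul_cancel (Nat.dvd_sub d2 d1)]
  omega

end Boundx

open Boundx in
theorem bound_st (h : PotSt) : BoundSt := by
  filter_upwards [big, eventually_ge_atTop 2] with s hb hs ι I n hI hn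
  have hs1 : (1 : ℝ) ≤ s := by exact_mod_cast (by omega : 1 ≤ s)
  have hY : 1 ≤ Y s := Nat.one_le_two_pow
  have hP : (1 : ℝ) ≤ 2 ^ s := one_le_pow₀ (by norm_num)
  have hW : ((3 * R s + 3 : ℕ) : ℝ) * 2 ^ s ≤ Y s := by exact_mod_cast zone s hs
  obtain ⟨T, t0, t1, t2, t3⟩ := core h ι I (fun τ t => (n τ t : ℝ)) (X s) (Y s) (3 * R s + 3)
    (nc s) s (2 ^ s) hs1 hY hP hW (fun _ _ => Nat.cast_nonneg _)
    (fun τ hτ t => by exact_mod_cast hn τ hτ t)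
  rw [ends s hs] at t1 t3
  refine ⟨T, t0, t1, t2, fun τ hτ => ?_⟩
  have h3 := t3 τ hτ
  simp only [← add_assoc] at h3
  refine h3.trans ?_
  have hc : (1 : ℝ) ≤ I.card := by exact_mod_cast card_pos.2 ⟨τ, hτ⟩
  have hl : Real.log (2 * I.card) ≤ (s : ℝ) ^ 12 + 1 := by
    have a1 : (2 : ℝ) * I.card ≤ 2 ^ (s ^ 12 + 1) := by
      have : (I.card : ℝ) ≤ 2 ^ (s ^ 12) := by exact_mod_cast hI
      rw [pow_succ]; linarith
    have a2 := Real.log_le_log (by linarith) a1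
    rw [Real.log_pow] at a2
    have a3 : Real.log 2 ≤ 1 := by have := Real.log_two_lt_d9; linarith
    have a4 : ((s ^ 12 + 1 : ℕ) : ℝ) * Real.log 2 ≤ ((s ^ 12 + 1 : ℕ) : ℝ) * 1 :=
      mul_le_mul_of_nonneg_left a3 (Nat.cast_nonneg _)
    push_cast at a2 a4
    linarith
  have hY0 : (0 : ℝ) ≤ Y s := Nat.cast_nonneg _
  have e : (2 : ℝ) ^ (s ^ 8 + 3 * s) = 4 ^ s * (2 ^ s * Y s) := by
    have e1 : ((Y s : ℕ) : ℝ) = 2 ^ (s ^ 8) := by unfold Y; push_cast; rfl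
    have e2 : (4 : ℝ) ^ s = 2 ^ (2 * s) := by rw [pow_mul]; norm_num
    rw [e1, e2, ← pow_add, ← pow_add]
    congr 1
    ring
  have hZ : (0 : ℝ) ≤ 2 ^ s * Y s := by positivity
  have hW1 : ((3 * R s + 3 : ℕ) : ℝ) ≤ 2 ^ s * Y s := by
    have a1 : ((3 * R s + 3 : ℕ) : ℝ) ≤ ((3 * R s + 3 : ℕ) : ℝ) * 2 ^ s :=
      le_mul_of_one_le_right (Nat.cast_nonneg _) hP
    have a2 : (Y s : ℝ) ≤ 2 ^ s * Y s := le_mul_of_one_le_left hY0 hP
    linarith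
  have b1 : Real.log (2 * I.card) * (2 ^ s * (s * (2 * (Y s : ℝ)))) ≤
      ((s : ℝ) ^ 12 + 1) * (2 ^ s * (s * (2 * (Y s : ℝ)))) :=
    mul_le_mul_of_nonneg_right hl (by positivity)
  have b2 : (s : ℝ) * ((3 * R s + 3 : ℕ) : ℝ) ≤ s * (2 ^ s * Y s) :=
    mul_le_mul_of_nonneg_left hW1 (by linarith)
  have b3 : (s : ℝ) ≤ (s : ℝ) ^ 13 := le_self_pow₀ hs1 (by norm_num)
  have b4 : (2 * (s : ℝ) ^ 13 + 3 * s) * (2 ^ s * Y s) ≤ 4 ^ s * (2 ^ s * Y s) :=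
    mul_le_mul_of_nonneg_right (by linarith) hZ
  have b5 : ((s : ℝ) ^ 12 + 1) * (2 ^ s * (s * (2 * (Y s : ℝ)))) + s * (2 ^ s * Y s) =
      (2 * (s : ℝ) ^ 13 + 3 * s) * (2 ^ s * Y s) := by ring
  rw [e]
  linarith

end Pool.Agent.Lib.MP_be93de_nt.Hc
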