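import Pool.Agent.Lib.MP_be93de_nt.Hb.Defs

/-! Second version: all systems of linear forms, all intervals. -/

namespace Pool.Agent.Lib.MP_be93de_nt.Hc

open Finset Filter Pool.Agent.Lib.MP_be93de_nt.Hb

noncomputable section

/-- target weight of the position `t` at level `s` -/
def wt (s t : ℕ) : ℝ :=
  if Free 0 (2 ^ (2 * s)) t then 1 / (th 0 (2 ^ (2 * s)) * Real.log t) else 0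

def wt2 (s t : ℕ) : ℝ := if t < X (2 * s) then wt s t else wt (2 * s) t

/-- number of blocks at level `s` -/
def nc (s : ℕ) : ℕ := (X (2 * s) - X s) / (2 * Y s)

def val (ψ : ℤ × ℤ) (m : ℕ) : ℕ := (ψ.1 * m + ψ.2).toNat

def nuF (Ψ : Finset (ℤ × ℤ)) (p : ℕ) : ℕ :=
  ((range p).filter (fun m : ℕ => ∃ ψ ∈ Ψ, (p : ℤ) ∣ ψ.1 * m + ψ.2)).card

def IsSF (Ψ : Finset (ℤ × ℤ)) (S : ℝ) : Prop :=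
  Tendsto (fun N : ℕ => ∏ p ∈ (range N).filter Nat.Prime,
    (1 - (nuF Ψ p : ℝ) / p) / (1 - 1 / (p : ℝ)) ^ Ψ.card) atTop (nhds S)

/-- primitive, pairwise non-proportional forms with coefficients at most `Z` -/
def Adm (Z : ℕ) (Ψ : Finset (ℤ × ℤ)) : Prop :=
  (∀ ψ ∈ Ψ, ψ.1 ≠ 0 ∧ Int.gcd ψ.1 ψ.2 = 1 ∧ |ψ.1| ≤ Z ∧ |ψ.2| ≤ Z) ∧
    ∀ ψ ∈ Ψ, ∀ φ ∈ Ψ, ψ ≠ φ → ψ.1 * φ.2 ≠ φ.1 * ψ.2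

def Kall (Ψ : Finset (ℤ × ℤ)) (m : ℕ) : Finset ℕ := Ψ.image (fun ψ => val ψ m)

def inS (s : ℕ) (K : Finset ℕ) : Finset ℕ := K.filter (fun t => X s ≤ t ∧ t < X (2 * s))

open Classical in
/-- indicator of `K ⊆ A` -/
def one (A : Set ℕ) (K : Finset ℕ) : ℝ := if ∀ t ∈ K, t ∈ A then 1 else 0

/-- past indicator times future weight -/
def gam (s : ℕ) (A : Set ℕ) (K : Finset ℕ) : ℝ :=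
  one A (K.filter (· < X s)) * ∏ t ∈ K.filter (X (2 * s) ≤ ·), wt (2 * s) t

def HL2 (s : ℕ) (A : Set ℕ) : Prop :=
  ∀ (Ψ : Finset (ℤ × ℤ)) (u v : ℕ), Adm (X (4 * s)) Ψ → Ψ.card ≤ s → u ≤ v →
    v ≤ 2 * X (4 * s) + 1 →
    |∑ m ∈ Ico u v, gam s A (Kall Ψ m) *
      (one A (inS s (Kall Ψ m)) - ∏ t ∈ inS s (Kall Ψ m), wt s t)| ≤
      ((v : ℝ) - u) * (2 / 3) ^ s + 2 ^ (2 * s ^ 8)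

structure StageW (s r : ℕ) (F : Finset ℕ) : Prop where
  sub : F ⊆ Ico (X s + 3) (X (2 * s))
  good : Good (SS s) r F
  big : X s ≤ F.card

structure GlobW (i0 : ℕ) (A : Set ℕ) : Prop where
  low : ∀ a ∈ A, X (2 ^ i0) ≤ a
  st : ∀ i, i0 ≤ i → ∃ F, StageW (2 ^ i) {a ∈ A | a < X (2 ^ i)}.ncard F ∧ Agree (2 ^ i) A F
  hl : ∀ i, i0 ≤ i → HL2 (2 ^ i) A

open Classical in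
def Part3 (A : Set ℕ) (C : ℝ) : Prop :=
  ∀ (x : ℝ) (Ψ : Finset (ℤ × ℤ)) (u v : ℕ), 2 ≤ x → u ≤ v →
    (Ψ.card : ℝ) ≤ Real.log x ^ (1 / 12 : ℝ) →
    (∀ ψ ∈ Ψ, ψ.1 ≠ 0 ∧ Int.gcd ψ.1 ψ.2 = 1 ∧ ((|ψ.1| : ℤ) : ℝ) ≤ x ∧ ((|ψ.2| : ℤ) : ℝ) ≤ x) →
    (∀ ψ ∈ Ψ, ∀ φ ∈ Ψ, ψ ≠ φ → ψ.1 * φ.2 ≠ φ.1 * ψ.2) →
    (∀ m ∈ Ico u v, ∀ ψ ∈ Ψ, Real.sqrt x ≤ ((ψ.1 * m + ψ.2 : ℤ) : ℝ) ∧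
      ((ψ.1 * m + ψ.2 : ℤ) : ℝ) ≤ x) →
    ∃ S : ℝ, IsSF Ψ S ∧
      |(((Ico u v).filter (fun m : ℕ => ∀ ψ ∈ Ψ, (ψ.1 * m + ψ.2).toNat ∈ A)).card : ℝ) -
          S * ∑ m ∈ Ico u v, ∏ ψ ∈ Ψ, 1 / Real.log ((ψ.1 * m + ψ.2 : ℤ) : ℝ)| ≤
        C * (((v : ℝ) - u) * Real.exp (-Real.log x ^ (1 / 11 : ℝ)) +
          Real.exp (Real.log x ^ (9 / 10 : ℝ)))

/-! ### Statements of the steps -/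

def PotSt : Prop :=
  ∀ (ι σ : Type) (I : Finset ι) (c : ℕ → ι → ℝ) (Cb lam : ℝ)
    (Step : ℕ → σ → σ → (ι → ℝ) → Prop) (s0 : σ), 0 < lam → lam * Cb ≤ 1 →
    (∀ j, ∀ τ ∈ I, 0 ≤ c j τ ∧ c j τ ≤ Cb) →
    (∀ (j : ℕ) (st : σ) (d : ι → ℝ), ∃ (st' : σ) (inc : ι → ℝ), Step j st st' inc ∧
      ∑ τ ∈ I, d τ * inc τ ≤ 0 ∧ ∀ τ ∈ I, |inc τ| ≤ c j τ) →
    ∃ (st : ℕ → σ) (inc : ℕ → ι → ℝ), st 0 = s0 ∧ (∀ j, Step j (st j) (st (j + 1)) (inc j)) ∧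
      ∀ τ ∈ I, ∀ n : ℕ, |∑ j ∈ range n, inc j τ| ≤
        lam * Cb * ∑ j ∈ range n, c j τ + Real.log (2 * I.card) / lam

def TailSt : Prop :=
  ∀ (Q Exc : Finset ℕ) (n : ℕ → ℕ) (k y : ℕ), 1 ≤ y → k ≤ y → (∀ p ∈ Q, y < p) →
    (∀ p ∈ Q, n p ≤ k) → (∀ p ∈ Q, p ∉ Exc → n p = k) →
    1 - (k : ℝ) ^ 2 / y ≤ ∏ p ∈ Q, (1 - (n p : ℝ) / p) / (1 - 1 / (p : ℝ)) ^ k ∧
    ∏ p ∈ Q, (1 - (n p : ℝ) / p) / (1 - 1 / (p : ℝ)) ^ k ≤ Real.exp (2 * k * Exc.card / y)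

def Avg2St : Prop :=
  ∀ᶠ s : ℕ in atTop, ∀ (r : ℕ) (J : Finset ℕ), J.card ≤ 2 * s ^ 2 →
    (∀ i ∈ J, ∀ j ∈ J, i ≤ j + 2 ^ (s ^ 9)) →
    |Av (R s) r (G (SS s) (sig s)⁻¹ J) - 1| ≤ 1 / (4 * 8 ^ s)

def Cells2St : Prop :=
  ∀ (U : Finset ℕ) (M : ℕ), 1 ≤ M → M ≤ U.card → (∀ a ∈ U, ¬ 2 ∣ a ∧ ¬ 3 ∣ a) →
    ∃ cs : List (Finset ℕ), Srt cs ∧ (∀ c ∈ cs, M ≤ c.card ∧ c.card ≤ 2 * M + 1) ∧ un cs = U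

def ManySt : Prop :=
  ∀ᶠ s : ℕ in atTop, ∀ T : ℕ,
    s ^ 7 ≤ ((Ico (T + 3 * R s + 3) (T + Y s)).filter (Free 0 (2 ^ (2 * s)))).card

def Block2St : Prop :=
  ∀ᶠ s : ℕ in atTop, ∀ (T T' r : ℕ) (ρ : ℝ) (ι : Type) (I : Finset ι) (K : ι → Finset ℕ)
    (d : ι → ℝ), T + Y s ≤ T' → T' ≤ T + 3 * Y s → 0 ≤ ρ → ρ ≤ 1 / (s : ℝ) ^ 8 →
    ∃ (B : Finset ℕ) (ν : Finset ℕ → ℝ), B ⊆ Ico (T + 3) T' ∧ B.Nonempty ∧ Good (SS s) r B ∧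
      ∑ i ∈ I, d i * (one B (K i) - ν (K i)) ≤ 0 ∧ ν ∅ = 1 ∧ (∀ L, 0 ≤ ν L ∧ ν L ≤ 1) ∧
      ∀ L ⊆ Ico (T + 3 * R s + 3) T', L.card ≤ s →
        |ν L - if ∀ t ∈ L, Free 0 (2 ^ (2 * s)) t then ρ ^ L.card else 0| ≤ 1 / 2 ^ s

def WtSt : Prop :=
  ∀ᶠ s : ℕ in atTop, (∀ t, X s ≤ t → 0 ≤ wt s t ∧ wt s t ≤ 1 / (s : ℝ) ^ 8) ∧
    ∀ T : ℕ, X s ≤ T → 0 ≤ 1 / (th 0 (2 ^ (2 * s)) * Real.log T) ∧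
      1 / (th 0 (2 ^ (2 * s)) * Real.log T) ≤ 1 / (s : ℝ) ^ 8 ∧
      ∀ L ⊆ Ico T (T + 3 * Y s), L.card ≤ s →
        |(if ∀ t ∈ L, Free 0 (2 ^ (2 * s)) t then
            (1 / (th 0 (2 ^ (2 * s)) * Real.log T)) ^ L.card else 0) - ∏ t ∈ L, wt s t| ≤ 1 / 2 ^ s

def BoundSt : Prop :=
  ∀ᶠ s : ℕ in atTop, ∀ (ι : Type) (I : Finset ι) (n : ι → ℕ → ℕ), I.card ≤ 2 ^ (s ^ 12) →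
    (∀ τ ∈ I, ∀ t, n τ t ≤ s) →
    ∃ T : ℕ → ℕ, T 0 = X s ∧ T (nc s) = X (2 * s) ∧
      (∀ j < nc s, T j + Y s ≤ T (j + 1) ∧ T (j + 1) ≤ T j + 3 * Y s) ∧
      ∀ τ ∈ I, (∑ j ∈ range (nc s), ∑ t ∈ Ico (T j) (T j + 3 * R s + 3), (n τ t : ℝ)) ≤
        2 / 2 ^ s * ∑ t ∈ Ico (X s) (X (2 * s)), (n τ t : ℝ) + 2 ^ (s ^ 8 + 3 * s)

/-- blocks `B j` between the ends `T j` -/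
structure Blk (s r : ℕ) (T : ℕ → ℕ) (B : ℕ → Finset ℕ) : Prop where
  t0 : T 0 = X s
  t1 : T (nc s) = X (2 * s)
  gap : ∀ j < nc s, T j + Y s ≤ T (j + 1) ∧ T (j + 1) ≤ T j + 3 * Y s
  sub : ∀ j < nc s, B j ⊆ Ico (T j + 3) (T (j + 1))
  ne : ∀ j < nc s, (B j).Nonempty
  good : ∀ j < nc s, Good (SS s) (r + ∑ i ∈ range j, (B i).card) (B j)

def Union2St : Prop :=
  ∀ (s r : ℕ) (T : ℕ → ℕ) (B : ℕ → Finset ℕ), 1 ≤ s → Blk s r T B →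
    StageW s r ((range (nc s)).biUnion B)

/-- the part of `K` in block `j` -/
def Kj (T : ℕ → ℕ) (j : ℕ) (K : Finset ℕ) : Finset ℕ := K.filter (fun t => T j ≤ t ∧ t < T (j + 1))

/-- past indicator times future weight inside a level -/
def cf (s : ℕ) (T : ℕ → ℕ) (B : ℕ → Finset ℕ) (j : ℕ) (K : Finset ℕ) : ℝ :=
  one ((range j).biUnion B : Finset ℕ) (K.filter (· < T j)) *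
    ∏ t ∈ K.filter (T (j + 1) ≤ ·), wt s t

def RunSt : Prop :=
  ∀ᶠ s : ℕ in atTop, ∀ (r : ℕ) (ι : Type) (I : Finset ι) (Mi : ι → Finset ℕ)
    (K : ι → ℕ → Finset ℕ) (γ : ι → ℕ → ℝ) (T : ℕ → ℕ), I.card ≤ 2 ^ (s ^ 12) →
    (∀ τ ∈ I, ∀ m ∈ Mi τ, (K τ m).card ≤ s ∧ K τ m ⊆ Ico (X s) (X (2 * s)) ∧
      0 ≤ γ τ m ∧ γ τ m ≤ 1) →
    (∀ τ ∈ I, ∀ t, ((Mi τ).filter (fun m => t ∈ K τ m)).card ≤ s) →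
    T 0 = X s → T (nc s) = X (2 * s) →
    (∀ j < nc s, T j + Y s ≤ T (j + 1) ∧ T (j + 1) ≤ T j + 3 * Y s) →
    ∃ (B : ℕ → Finset ℕ) (ν : ℕ → Finset ℕ → ℝ), Blk s r T B ∧
      (∀ j < nc s, ν j ∅ = 1 ∧ (∀ L, 0 ≤ ν j L ∧ ν j L ≤ 1) ∧
        ∀ L ⊆ Ico (T j + 3 * R s + 3) (T (j + 1)), L.card ≤ s →
          |ν j L - ∏ t ∈ L, wt s t| ≤ 2 / 2 ^ s) ∧
      ∀ τ ∈ I, |∑ j ∈ range (nc s), ∑ m ∈ Mi τ, γ τ m * cf s T B j (K τ m) *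
          (one (B j) (Kj T j (K τ m)) - ν j (Kj T j (K τ m)))| ≤
        s * (Mi τ).card / 2 ^ s + 2 ^ (s ^ 8 + 3 * s)

def Stage2St : Prop :=
  ∀ᶠ s : ℕ in atTop, ∀ (r : ℕ) (ι : Type) (I : Finset ι) (Mi : ι → Finset ℕ)
    (K : ι → ℕ → Finset ℕ) (γ : ι → ℕ → ℝ), I.card ≤ 2 ^ (s ^ 12) →
    (∀ τ ∈ I, ∀ m ∈ Mi τ, (K τ m).card ≤ s ∧ K τ m ⊆ Ico (X s) (X (2 * s)) ∧
      0 ≤ γ τ m ∧ γ τ m ≤ 1) →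
    (∀ τ ∈ I, ∀ t, ((Mi τ).filter (fun m => t ∈ K τ m)).card ≤ s) →
    ∃ F, StageW s r F ∧ ∀ τ ∈ I,
      |∑ m ∈ Mi τ, γ τ m * (one F (K τ m) - ∏ t ∈ K τ m, wt s t)| ≤
        (Mi τ).card * (2 / 3) ^ s + 2 ^ (2 * s ^ 8)

/-- one level, given the set `P` built so far -/
def LevelSt : Prop :=
  ∀ᶠ s : ℕ in atTop, ∀ (r : ℕ) (P : Set ℕ), ∃ F, StageW s r F ∧
    ∀ A : Set ℕ, (∀ a, a < X s → (a ∈ A ↔ a ∈ P)) → Agree s A F → HL2 s A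

def Glob2St : Prop := ∃ i0 A, GlobW i0 A

def RootSt : Prop :=
  ∀ (z : ℕ) (Ψ : Finset (ℤ × ℤ)), Adm (2 ^ z) Ψ → ∃ Exc : Finset ℕ,
    Exc.card ≤ Ψ.card ^ 2 * (2 * z + 1) ∧ ∀ p : ℕ, p.Prime → ∀ Φ ⊆ Ψ,
      nuF Φ p ≤ Φ.card ∧ (p ∉ Exc → nuF Φ p = Φ.card)

def Sing2St : Prop :=
  ∀ᶠ s : ℕ in atTop, ∀ Ψ : Finset (ℤ × ℤ), Adm (X (4 * s)) Ψ → Ψ.card ≤ s →
    (∃ S, IsSF Ψ S) ∧ ∀ S, IsSF Ψ S → 0 ≤ S ∧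
      |S * th 0 (2 ^ (2 * s)) ^ Ψ.card - ∏ p ∈ pr 0 (2 ^ (2 * s)), (1 - (nuF Ψ p : ℝ) / p)| ≤
        1 / (4 * 3 ^ s)

open Classical in
def SieveSt : Prop :=
  ∀ᶠ s : ℕ in atTop, ∀ (Ψ Φ : Finset (ℤ × ℤ)) (S : ℝ) (u v : ℕ), Adm (X (4 * s)) Ψ →
    Ψ.card ≤ s → Φ ⊆ Ψ → IsSF Ψ S → u ≤ v → (∀ m ∈ Ico u v, ∀ ψ ∈ Ψ, 0 ≤ ψ.1 * m + ψ.2) →
    |(((Ico u v).filter (fun m => (∀ ψ ∈ Ψ, Free 0 (2 ^ (2 * s)) (val ψ m)) ∧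
        ∀ ψ ∈ Φ, Free 0 (2 ^ (2 * (2 * s))) (val ψ m))).card : ℝ) -
      ((v : ℝ) - u) * (S * th 0 (2 ^ (2 * s)) ^ (Ψ \ Φ).card *
        th 0 (2 ^ (2 * (2 * s))) ^ Φ.card)| ≤ ((v : ℝ) - u) / 3 ^ s + 2 ^ (s ^ 5)

/-- all partial sums of `e` over subintervals of `[u,v)` are small -/
def Sm (u v : ℕ) (ε W : ℝ) (e : ℕ → ℝ) : Prop :=
  ∀ a b : ℕ, u ≤ a → a ≤ b → b ≤ v → |∑ m ∈ Ico a b, e m| ≤ ε * ((b : ℝ) - a) + W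

def MonoSt : Prop :=
  ∀ (u v : ℕ) (ε W : ℝ) (e : ℕ → ℝ) (ι : Type) (I : Finset ι) (h : ι → ℕ → ℝ), 0 ≤ ε →
    Sm u v ε W e → (∀ i ∈ I, (MonotoneOn (h i) (Set.Ico u v) ∨ AntitoneOn (h i) (Set.Ico u v)) ∧
      ∀ m ∈ Ico u v, 0 ≤ h i m ∧ h i m ≤ 1) → Sm u v ε W (fun m => (∏ i ∈ I, h i m) * e m)

def ArithSt : Prop :=
  ∀ᶠ s : ℕ in atTop, ∀ (Ψ : Finset (ℤ × ℤ)) (S : ℝ) (u v : ℕ), Adm (X (4 * s)) Ψ →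
    Ψ.card ≤ s → IsSF Ψ S → u ≤ v → (∀ m ∈ Ico u v, ∀ ψ ∈ Ψ, (X s : ℤ) ≤ ψ.1 * m + ψ.2) →
    |∑ m ∈ Ico u v, ∏ ψ ∈ Ψ, wt2 s (val ψ m) -
      S * ∑ m ∈ Ico u v, ∏ ψ ∈ Ψ, 1 / Real.log ((ψ.1 * m + ψ.2 : ℤ) : ℝ)| ≤
      ((v : ℝ) - u) * (2 / 3) ^ s + 2 ^ (s ^ 6)

open Classical in
/-- the two levels put together -/
def TeleSt : Prop :=
  ∀ᶠ s : ℕ in atTop, ∀ (A : Set ℕ) (Ψ : Finset (ℤ × ℤ)) (u v : ℕ), HL2 s A → HL2 (2 * s) A →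
    Adm (X (4 * s)) Ψ → Ψ.card ≤ s → u ≤ v → v ≤ 2 * X (4 * s) + 1 →
    (∀ m ∈ Ico u v, ∀ ψ ∈ Ψ, (X s : ℤ) ≤ ψ.1 * m + ψ.2 ∧ ψ.1 * m + ψ.2 < X (4 * s)) →
    |(((Ico u v).filter (fun m : ℕ => ∀ ψ ∈ Ψ, (ψ.1 * m + ψ.2).toNat ∈ A)).card : ℝ) -
      ∑ m ∈ Ico u v, ∏ ψ ∈ Ψ, wt2 s (val ψ m)| ≤
      2 * (((v : ℝ) - u) * (2 / 3) ^ s) + 3 * 2 ^ (2 * (2 * s) ^ 8)

def Hl2St : Prop := ∀ i0 A, GlobW i0 A → ∃ C, 0 ≤ C ∧ Part3 A C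

def Rank2St : Prop :=
  ∀ i0 A, GlobW i0 A → A.Infinite ∧ ∀ m : ℕ, 1 ≤ m → Nat.nth (· ∈ A) (m - 1) + 2 ∈ A →
    ∃ i, i0 ≤ i ∧ SS (2 ^ i) m ∧ m ≤ X (2 ^ (i + 1)) ∧ (i = i0 ∨ X (2 ^ (i - 1)) ≤ m)

def Exc2St : Prop := ∀ i0 A, GlobW i0 A → ∃ C, 0 ≤ C ∧ Part2 A C

end

end Pool.Agent.Lib.MP_be93de_nt.Hc
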