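import Pool.Agent.Lib.MP_be93de_nt.Hc.Defs

namespace Pool.Agent.Lib.MP_be93de_nt.Hc

open Pool.Agent.Lib.MP_be93de_nt.Hb Finset Filter

namespace Exc2x

theorem logX (s : ℕ) : Real.log (X s) = (s : ℝ) ^ 10 * Real.log 2 := by
  unfold X
  push_cast
  rw [Real.log_pow]
  push_cast
  rfl

theorem Xpos (s : ℕ) : 0 < X s := by unfold X; positivity

theorem low {N m s : ℕ} {u : ℝ} (hN : 0 < N) (hu : u ^ 10 = Real.log N) (h1 : N ≤ m * m)
    (h2 : m ≤ X (2 * s)) : u ≤ 3 * s := by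
  have h3 : (N : ℝ) ≤ (X (2 * s) : ℝ) * X (2 * s) := by
    exact_mod_cast h1.trans (Nat.mul_le_mul h2 h2)
  have hX : (0 : ℝ) < X (2 * s) := by exact_mod_cast Xpos _
  have h4 := Real.log_le_log (by exact_mod_cast hN) h3
  rw [Real.log_mul hX.ne' hX.ne', logX, ← hu] at h4
  push_cast at h4
  have h5 := Real.log_two_lt_d9
  have h6 : (0 : ℝ) ≤ (s : ℝ) ^ 10 := by positivity
  refine le_of_pow_le_pow_left₀ (n := 10) (by norm_num) (by positivity) ?_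
  have e1 : (2 * (s : ℝ)) ^ 10 = 1024 * (s : ℝ) ^ 10 := by ring
  have e2 : (3 * (s : ℝ)) ^ 10 = 59049 * (s : ℝ) ^ 10 := by ring
  rw [e1] at h4
  rw [e2]
  nlinarith

theorem up {N n k s : ℕ} {u : ℝ} (hu1 : 1 ≤ u) (hu : u ^ 10 = Real.log N) (hn : 1 ≤ n)
    (hnN : n ≤ N) (hk : (k : ℝ) ≤ Real.exp (Real.log n ^ 2)) (h : X s ≤ k * n) :
    (s : ℝ) ≤ 3 / 2 * u ^ 2 := by
  have hn' : (1 : ℝ) ≤ n := by exact_mod_cast hn
  have hnN' : (n : ℝ) ≤ N := by exact_mod_cast hnN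
  have l0 : 0 ≤ Real.log n := Real.log_nonneg hn'
  have l1 : Real.log n ≤ Real.log N := Real.log_le_log (by linarith) hnN'
  have hX : (0 : ℝ) < X s := by exact_mod_cast Xpos _
  have h1 : (X s : ℝ) ≤ Real.exp (Real.log n ^ 2) * n := by
    have : (X s : ℝ) ≤ (k : ℝ) * n := by exact_mod_cast h
    exact this.trans (mul_le_mul_of_nonneg_right hk (by linarith))
  have h2 := Real.log_le_log hX h1
  rw [Real.log_mul (Real.exp_pos _).ne' (by linarith), Real.log_exp, logX] at h2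
  have h3 : (1 : ℝ) ≤ u ^ 10 := one_le_pow₀ hu1
  have h4 : Real.log n ^ 2 ≤ (u ^ 10) ^ 2 := by rw [hu]; gcongr
  have h5 := Real.log_two_gt_d9
  have h6 : (0 : ℝ) ≤ (s : ℝ) ^ 10 := by positivity
  refine le_of_pow_le_pow_left₀ (n := 10) (by norm_num) (by positivity) ?_
  have e2 : (3 / 2 * u ^ 2) ^ 10 = 59049 / 1024 * (u ^ 10) ^ 2 := by ring
  rw [e2]
  rw [← hu] at l1
  nlinarith

theorem tail {N s : ℕ} {u : ℝ} (hN : 0 < N) (hu4 : 4 ≤ u) (hu : u ^ 10 = Real.log N)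
    (h : (s : ℝ) ≤ 3 * u ^ 2) : (2 : ℝ) ^ (5 * s ^ 3) * (4 * u ^ 3) ≤ N := by
  have h0 : (0 : ℝ) ≤ u := by linarith
  have h1 : (2 : ℝ) ^ (5 * s ^ 3) ≤ Real.exp (135 * u ^ 6) := by
    have a1 : (2 : ℝ) ≤ Real.exp 1 := by linarith [Real.add_one_le_exp (1 : ℝ)]
    refine (pow_le_pow_left₀ (by norm_num) a1 _).trans ?_
    rw [← Real.exp_nat_mul, mul_one]
    refine Real.exp_le_exp.2 ?_
    push_cast
    have a2 : (s : ℝ) ^ 3 ≤ (3 * u ^ 2) ^ 3 := by gcongr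
    nlinarith
  have h2 : (64 : ℝ) ≤ u ^ 3 := by
    have := pow_le_pow_left₀ (by norm_num) hu4 3
    linarith
  have h3 : 4 * u ^ 3 ≤ Real.exp (u ^ 6) := by
    have := Real.add_one_le_exp (u ^ 6)
    nlinarith
  have h4 : (256 : ℝ) ≤ u ^ 4 := by
    have := pow_le_pow_left₀ (by norm_num) hu4 4
    linarith
  have h5 : 135 * u ^ 6 + u ^ 6 ≤ u ^ 10 := by
    have : (0 : ℝ) ≤ u ^ 6 := by positivity
    nlinarith
  calc (2 : ℝ) ^ (5 * s ^ 3) * (4 * u ^ 3) ≤ Real.exp (135 * u ^ 6) * Real.exp (u ^ 6) :=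
        mul_le_mul h1 h3 (by positivity) (by positivity)
    _ ≤ Real.exp (u ^ 10) := by rw [← Real.exp_add]; exact Real.exp_le_exp.2 h5
    _ = N := by rw [hu, Real.exp_log (by exact_mod_cast hN)]

end Exc2x

open Exc2x in
theorem exc2_st (h1 : FreeSt) (h2 : Rank2St) : Exc2St := by
  classical
  intro i0 A hA
  obtain ⟨s0, hs0⟩ := eventually_atTop.1 h1
  obtain ⟨-, hr⟩ := h2 i0 A hA
  have e43 : 0 < Real.exp 43 := Real.exp_pos _
  refine ⟨(4 + 3 * s0 + 2 ^ i0) + 6 * Real.exp 43 + 2, by positivity, fun N hN => ?_⟩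
  have hN0 : 0 < N := by omega
  have hN' : (2 : ℝ) ≤ N := by exact_mod_cast hN
  have hL : 0 < Real.log N := Real.log_pos (by linarith)
  obtain ⟨u, hud⟩ : ∃ u, u = Real.log N ^ (1 / 10 : ℝ) := ⟨_, rfl⟩
  have hu0 : 0 < u := hud ▸ Real.rpow_pos_of_pos hL _
  have hu : u ^ 10 = Real.log N := by
    rw [hud, ← Real.rpow_natCast, ← Real.rpow_mul hL.le]
    norm_num
  rw [← hud, le_div_iff₀ hu0]
  obtain ⟨S, hS⟩ : ∃ S : Set ℕ, S = {n : ℕ | 1 ≤ n ∧ n ≤ N ∧ ∃ k : ℕ, 1 ≤ k ∧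
      (k : ℝ) ≤ Real.exp (Real.log n ^ 2) ∧ Nat.nth (· ∈ A) (k * n - 1) + 2 ∈ A} := ⟨_, rfl⟩
  rw [← hS]
  have s00 : (0 : ℝ) ≤ s0 := Nat.cast_nonneg _
  have p0 : (0 : ℝ) < 2 ^ i0 := by positivity
  by_cases hsm : u ≤ 4 + 3 * s0 + 2 ^ i0
  · have k1 : S.ncard ≤ (Icc 1 N).card := by
      rw [← Set.ncard_coe_finset]
      refine Set.ncard_le_ncard (fun n hn => ?_) (finite_toSet _)
      rw [hS] at hn
      simpa using ⟨hn.1, hn.2.1⟩
    have k2 : (S.ncard : ℝ) ≤ N := by simpa using (Nat.cast_le (α := ℝ)).2 k1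
    have k3 := mul_le_mul k2 hsm hu0.le (by linarith)
    nlinarith
  rw [not_le] at hsm
  have hu4 : 4 ≤ u := by linarith
  have hex : ∃ i : ℕ, u ≤ 3 * 2 ^ i := by
    obtain ⟨i, hi⟩ := pow_unbounded_of_one_lt u (show (1 : ℝ) < 2 by norm_num)
    exact ⟨i, by linarith [show (0 : ℝ) < 2 ^ i by positivity]⟩
  obtain ⟨I, hI⟩ : ∃ I : Finset ℕ, I = (Ico (Nat.find hex) ⌈3 * u ^ 2⌉₊).filter
      (fun i => (2 : ℝ) ^ i ≤ 3 * u ^ 2) := ⟨_, rfl⟩
  have k1 : S.ncard ≤ (Icc 1 (Nat.sqrt N) ∪ I.biUnion fun i => (Icc 1 N).filter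
      (fun n => Free (2 ^ (4 * 2 ^ i)) (2 ^ (4 * (2 ^ i) ^ 2)) n)).card := by
    rw [← Set.ncard_coe_finset]
    refine Set.ncard_le_ncard (fun n hn => ?_) (finite_toSet _)
    rw [hS] at hn
    obtain ⟨n1, n2, k, a1, a2, a3⟩ := hn
    rw [mem_coe, mem_union]
    by_cases hq : n * n ≤ N
    · exact Or.inl (mem_Icc.2 ⟨n1, Nat.le_sqrt.2 hq⟩)
    have m1 : n ≤ k * n := Nat.le_mul_of_pos_left n a1
    obtain ⟨i, -, b2, b3, b4⟩ := hr (k * n) (n1.trans m1) a3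
    have c1 : u ≤ 3 * 2 ^ i := by
      have := low (s := 2 ^ i) hN0 hu ((not_le.1 hq).le.trans (Nat.mul_le_mul m1 m1))
        (by rwa [pow_succ'] at b3)
      exact_mod_cast this
    have c2 : (2 : ℝ) ^ i ≤ 3 * u ^ 2 := by
      rcases b4 with rfl | b4
      · nlinarith
      · have d1 := up (by linarith) hu n1 n2 a2 b4
        push_cast at d1
        have d2 : (2 : ℝ) ^ i ≤ 2 ^ (i - 1 + 1) := pow_le_pow_right₀ (by norm_num) (by omega)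
        rw [pow_succ] at d2
        linarith
    have c3 : (i : ℝ) < 2 ^ i := by exact_mod_cast Nat.lt_two_pow_self
    refine Or.inr (mem_biUnion.2 ⟨i, ?_, mem_filter.2 ⟨mem_Icc.2 ⟨n1, n2⟩, fun p hp hd =>
      b2 p hp (hd.mul_left k)⟩⟩)
    rw [hI]
    exact mem_filter.2 ⟨mem_Ico.2 ⟨Nat.find_min' hex c1, Nat.lt_ceil.2 (by linarith)⟩, c2⟩
  have k2 : (S.ncard : ℝ) ≤ Nat.sqrt N + ∑ i ∈ I, (((Icc 1 N).filter
      (fun n => Free (2 ^ (4 * 2 ^ i)) (2 ^ (4 * (2 ^ i) ^ 2)) n)).card : ℝ) := by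
    have := k1.trans ((card_union_le _ _).trans (Nat.add_le_add_left card_biUnion_le _))
    rw [Nat.card_Icc, Nat.add_sub_cancel] at this
    exact_mod_cast this
  have f0 : u ≤ 3 * 2 ^ Nat.find hex := Nat.find_spec hex
  have k3 : ∀ i ∈ I, (((Icc 1 N).filter
      (fun n => Free (2 ^ (4 * 2 ^ i)) (2 ^ (4 * (2 ^ i) ^ 2)) n)).card : ℝ) ≤
      Real.exp 43 * N * (1 / 2) ^ i + N / (4 * u ^ 3) := fun i hi => by
    rw [hI, mem_filter, mem_Ico] at hi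
    have d1 : (2 : ℝ) ^ Nat.find hex ≤ 2 ^ i := pow_le_pow_right₀ (by norm_num) hi.1.1
    have d2 : s0 ≤ 2 ^ i := by
      have : (s0 : ℝ) ≤ 2 ^ i := by linarith
      exact_mod_cast this
    refine (hs0 _ d2 N).trans (add_le_add (le_of_eq ?_) ?_)
    · push_cast
      rw [one_div, inv_pow, div_eq_mul_inv]
    · rw [le_div_iff₀ (by positivity)]
      exact tail hN0 hu4 hu (by exact_mod_cast hi.2)
  have k4 := sum_le_sum k3
  rw [sum_add_distrib, ← mul_sum, sum_const, nsmul_eq_mul] at k4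
  have k5 : (∑ i ∈ I, (1 / 2 : ℝ) ^ i) * u ≤ 6 := by
    have d1 : ∑ i ∈ I, (1 / 2 : ℝ) ^ i ≤ (1 / 2) ^ Nat.find hex / (1 - 1 / 2) := by
      refine le_trans (sum_le_sum_of_subset_of_nonneg (hI ▸ filter_subset _ _)
        fun _ _ _ => by positivity) (geom_sum_Ico_le_of_lt_one (by norm_num) (by norm_num))
    have d2 : (1 / 2 : ℝ) ^ Nat.find hex * 2 ^ Nat.find hex = 1 := by
      rw [← mul_pow]; norm_num
    have d3 := mul_le_mul d1 f0 hu0.le (by positivity)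
    have d4 : (1 / 2 : ℝ) ^ Nat.find hex / (1 - 1 / 2) * (3 * 2 ^ Nat.find hex) =
        6 * ((1 / 2 : ℝ) ^ Nat.find hex * 2 ^ Nat.find hex) := by ring
    rw [d4, d2] at d3
    linarith
  have k6 : (I.card : ℝ) ≤ 4 * u ^ 2 := by
    have d1 : I.card ≤ ⌈3 * u ^ 2⌉₊ := by
      rw [hI]
      exact (card_filter_le _ _).trans (by rw [Nat.card_Ico]; omega)
    have d2 : (I.card : ℝ) ≤ ⌈3 * u ^ 2⌉₊ := by exact_mod_cast d1
    have d3 := Nat.ceil_lt_add_one (show 0 ≤ 3 * u ^ 2 by positivity)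
    nlinarith
  have k7 : (I.card : ℝ) * (N / (4 * u ^ 3)) * u ≤ N := by
    have d1 : (I.card : ℝ) * (N / (4 * u ^ 3)) * u ≤ 4 * u ^ 2 * (N / (4 * u ^ 3)) * u := by gcongr
    refine d1.trans (le_of_eq ?_)
    field_simp
  have k8 : (Nat.sqrt N : ℝ) * u ≤ N := by
    have d1 : (Nat.sqrt N : ℝ) * Nat.sqrt N ≤ N := by exact_mod_cast Nat.sqrt_le N
    have d2 : u ^ 2 ≤ u ^ 10 := pow_le_pow_right₀ (by linarith) (by norm_num)
    have d3 : Real.log N ≤ N := by linarith [Real.log_le_sub_one_of_pos (show (0 : ℝ) < N by linarith)]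
    nlinarith [sq_nonneg ((Nat.sqrt N : ℝ) - u)]
  have k9 := mul_le_mul_of_nonneg_right (k2.trans (add_le_add le_rfl k4)) hu0.le
  have k10 := mul_le_mul_of_nonneg_left k5 (show 0 ≤ Real.exp 43 * N by positivity)
  have k11 : (0 : ℝ) ≤ (4 + 3 * s0 + 2 ^ i0) * N := by positivity
  nlinarith

end Pool.Agent.Lib.MP_be93de_nt.Hc
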