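import Pool.Agent.Lib.MP_be93de_nt.Hc.Defs

/-! Gluing the levels: the count for all systems of forms. -/

namespace Pool.Agent.Lib.MP_be93de_nt.Hc

open Finset Filter Pool.Agent.Lib.MP_be93de_nt.Hb

namespace Hl2x

lemma half_lt_log {t : ℝ} (ht : 2 ≤ t) : 1 / 2 ≤ Real.log t := by
  have h1 := Real.log_two_gt_d9
  have h2 := Real.log_le_log (by norm_num) ht
  linarith

lemma log_le {s : ℕ} {x : ℝ} (hx : 2 ≤ x) (h : x ≤ X (4 * s)) :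
    Real.log x ≤ (4 * (s : ℝ)) ^ 10 := by
  have hl := Real.log_two_lt_d9
  refine (Real.log_le_log (by linarith) h).trans ?_
  unfold X
  push_cast
  rw [Real.log_pow]
  push_cast
  exact mul_le_of_le_one_right (by positivity) (by linarith)

lemma root_le {L b : ℝ} (n : ℕ) (hn : n ≠ 0) (hL : 0 ≤ L) (hb : 0 ≤ b) (h : L ≤ b ^ n) :
    L ^ (1 / (n : ℝ)) ≤ b := by
  have h3 : L ^ (1 / (n : ℝ)) ≤ (b ^ n) ^ (1 / (n : ℝ)) :=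
    Real.rpow_le_rpow hL h (by positivity)
  rw [one_div, Real.pow_rpow_inv_natCast hb hn] at h3
  rwa [one_div]

lemma card_le {s : ℕ} (hs : 2 ^ 38 ≤ s) {x : ℝ} (hx : 2 ≤ x) (h : x ≤ X (4 * s)) :
    Real.log x ^ (1 / 12 : ℝ) ≤ s := by
  have hs' : (2 : ℝ) ^ 38 ≤ s := by exact_mod_cast hs
  have h0 : (0 : ℝ) ≤ s := Nat.cast_nonneg _
  have h2 : (4 * (s : ℝ)) ^ 10 ≤ (s : ℝ) ^ 12 := by
    have a1 : (4 : ℝ) ^ 10 ≤ (s : ℝ) ^ 2 := by nlinarith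
    calc (4 * (s : ℝ)) ^ 10 = 4 ^ 10 * (s : ℝ) ^ 10 := by ring
      _ ≤ (s : ℝ) ^ 2 * (s : ℝ) ^ 10 := mul_le_mul_of_nonneg_right a1 (by positivity)
      _ = _ := by ring
  have := root_le 12 (by norm_num) (Real.log_nonneg (by linarith : (1 : ℝ) ≤ x)) h0
    ((log_le hx h).trans h2)
  exact_mod_cast this

lemma eps_le {s : ℕ} (hs : 2 ^ 38 ≤ s) {x : ℝ} (hx : 2 ≤ x) (h : x ≤ X (4 * s)) :
    (2 / 3 : ℝ) ^ s ≤ Real.exp (-Real.log x ^ (1 / 11 : ℝ)) := by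
  have hs' : (2 : ℝ) ^ 38 ≤ s := by exact_mod_cast hs
  have h0 : (0 : ℝ) ≤ s := Nat.cast_nonneg _
  have h2 : (4 * (s : ℝ)) ^ 10 ≤ ((s : ℝ) / 3) ^ 11 := by
    have a1 : (4 : ℝ) ^ 10 ≤ (s : ℝ) / 3 ^ 11 := by
      rw [le_div_iff₀ (by positivity)]
      refine le_trans (by norm_num) hs'
    calc (4 * (s : ℝ)) ^ 10 = 4 ^ 10 * (s : ℝ) ^ 10 := by ring
      _ ≤ (s : ℝ) / 3 ^ 11 * (s : ℝ) ^ 10 := mul_le_mul_of_nonneg_right a1 (by positivity)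
      _ = _ := by ring
  have h3 := root_le 11 (by norm_num) (Real.log_nonneg (by linarith : (1 : ℝ) ≤ x))
    (by positivity) ((log_le hx h).trans h2)
  have h4 : Real.log x ^ (1 / 11 : ℝ) ≤ (s : ℝ) / 3 := by exact_mod_cast h3
  refine le_trans ?_ (Real.exp_le_exp.2 (neg_le_neg h4))
  rw [show -((s : ℝ) / 3) = (s : ℝ) * (-(1 / 3)) by ring, Real.exp_nat_mul]
  refine pow_le_pow_left₀ (by norm_num) ?_ _
  have := Real.add_one_le_exp (-(1 / 3) : ℝ)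
  linarith

lemma two_pow_le (k : ℕ) : (2 : ℝ) ^ k ≤ Real.exp k := by
  rw [show (k : ℝ) = k * 1 by ring, Real.exp_nat_mul]
  refine pow_le_pow_left₀ (by norm_num) ?_ _
  have := Real.add_one_le_exp (1 : ℝ)
  linarith

lemma big_le {s k : ℕ} {x : ℝ} (h : (X (2 * s) : ℝ) ≤ x) (hk : k ≤ s ^ 9) :
    (2 : ℝ) ^ k ≤ Real.exp (Real.log x ^ (9 / 10 : ℝ)) := by
  have hg := Real.log_two_gt_d9
  have h0 : (0 : ℝ) ≤ s := Nat.cast_nonneg _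
  have h1 : (s : ℝ) ^ 10 ≤ Real.log x := by
    have hp : (0 : ℝ) < X (2 * s) := by unfold X; positivity
    refine le_trans ?_ (Real.log_le_log hp h)
    unfold X
    push_cast
    rw [Real.log_pow]
    push_cast
    have : (0 : ℝ) ≤ (s : ℝ) ^ 10 := by positivity
    rw [mul_pow]
    nlinarith
  have h2 : ((s : ℝ) ^ 10) ^ (9 / 10 : ℝ) = (s : ℝ) ^ 9 := by
    rw [← Real.rpow_natCast, ← Real.rpow_mul h0, ← Real.rpow_natCast]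
    norm_num
  have h3 : ((s : ℝ) ^ 10) ^ (9 / 10 : ℝ) ≤ Real.log x ^ (9 / 10 : ℝ) :=
    Real.rpow_le_rpow (by positivity) h1 (by norm_num)
  refine (two_pow_le k).trans (Real.exp_le_exp.2 ?_)
  rw [h2] at h3
  refine le_trans ?_ h3
  exact_mod_cast hk

lemma X_mono {a b : ℕ} (h : a ≤ b) : X a ≤ X b :=
  Nat.pow_le_pow_right (by norm_num) (Nat.pow_le_pow_left h _)

lemma sq_le {s : ℕ} {x : ℝ} (h : (X (2 * s) : ℝ) ≤ x) : (X s : ℝ) ≤ Real.sqrt x := by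
  refine Real.le_sqrt_of_sq_le (le_trans ?_ h)
  have : X s ^ 2 ≤ X (2 * s) := by
    unfold X
    rw [← pow_mul]
    refine Nat.pow_le_pow_right (by norm_num) ?_
    rw [mul_pow]
    omega
  exact_mod_cast this

lemma level (j0 : ℕ) {x : ℝ} (hx : (X (2 * 2 ^ j0) : ℝ) ≤ x) :
    ∃ j, j0 ≤ j ∧ (X (2 * 2 ^ j) : ℝ) ≤ x ∧ x < X (4 * 2 ^ j) := by
  classical
  have hex : ∃ n : ℕ, x < X (4 * 2 ^ (j0 + n)) := by
    refine ⟨⌈x⌉₊, (Nat.le_ceil x).trans_lt (Nat.cast_lt.2 ?_)⟩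
    have a1 : ⌈x⌉₊ ≤ 2 ^ (j0 + ⌈x⌉₊) :=
      (Nat.le_add_left _ _).trans (Nat.lt_two_pow_self).le
    have a2 : 4 * 2 ^ (j0 + ⌈x⌉₊) ≤ (4 * 2 ^ (j0 + ⌈x⌉₊)) ^ 10 := Nat.le_self_pow (by norm_num) _
    have a3 : (4 * 2 ^ (j0 + ⌈x⌉₊)) ^ 10 < X (4 * 2 ^ (j0 + ⌈x⌉₊)) := Nat.lt_two_pow_self
    omega
  refine ⟨j0 + Nat.find hex, Nat.le_add_right _ _, ?_, Nat.find_spec hex⟩
  rcases h : Nat.find hex with _ | n
  · exact hx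
  · have := Nat.find_min hex (m := n) (by omega)
    rw [show 2 * 2 ^ (j0 + (n + 1)) = 4 * 2 ^ (j0 + n) by ring]
    exact not_lt.1 this

lemma adm {Z : ℕ} {x : ℝ} (h : x ≤ Z) {Ψ : Finset (ℤ × ℤ)}
    (a1 : ∀ ψ ∈ Ψ, ψ.1 ≠ 0 ∧ Int.gcd ψ.1 ψ.2 = 1 ∧ ((|ψ.1| : ℤ) : ℝ) ≤ x ∧ ((|ψ.2| : ℤ) : ℝ) ≤ x)
    (a2 : ∀ ψ ∈ Ψ, ∀ φ ∈ Ψ, ψ ≠ φ → ψ.1 * φ.2 ≠ φ.1 * ψ.2) : Adm Z Ψ := by
  refine ⟨fun ψ hψ => ?_, a2⟩
  obtain ⟨b1, b2, b3, b4⟩ := a1 ψ hψ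
  refine ⟨b1, b2, ?_, ?_⟩
  · exact_mod_cast b3.trans h
  · exact_mod_cast b4.trans h

lemma S_le (h1 : MertSt) {s : ℕ} (hs : 1 ≤ s) {Ψ : Finset (ℤ × ℤ)} (hk : Ψ.card ≤ s) {S : ℝ}
    (h : |S * th 0 (2 ^ (2 * s)) ^ Ψ.card -
      ∏ p ∈ pr 0 (2 ^ (2 * s)), (1 - (nuF Ψ p : ℝ) / p)| ≤ 1 / (4 * 3 ^ s)) :
    S * 2 ^ Ψ.card ≤ 2 * (2 * Real.exp 42 * s) ^ s := by
  have hp := (h1.1 0 (2 ^ (2 * s))).1
  have h4 := (h1.2.2 s hs).1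
  have hs' : (1 : ℝ) ≤ s := by exact_mod_cast hs
  have he : (1 : ℝ) ≤ Real.exp 42 := Real.one_le_exp (by norm_num)
  have g1 : ∏ p ∈ pr 0 (2 ^ (2 * s)), (1 - (nuF Ψ p : ℝ) / p) ≤ 1 := by
    refine prod_le_one (fun p _ => ?_) (fun p _ => ?_)
    · have : (nuF Ψ p : ℝ) ≤ p := by
        have : nuF Ψ p ≤ p := (card_filter_le _ _).trans (card_range p).le
        exact_mod_cast this
      have := div_le_one_of_le₀ this (Nat.cast_nonneg p)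
      linarith
    · have : (0 : ℝ) ≤ (nuF Ψ p : ℝ) / p := by positivity
      linarith
  have g2 : (1 : ℝ) / (4 * 3 ^ s) ≤ 1 := by
    have : (1 : ℝ) ≤ 3 ^ s := one_le_pow₀ (by norm_num)
    rw [div_le_one (by positivity)]
    linarith
  have h3 : S * th 0 (2 ^ (2 * s)) ^ Ψ.card ≤ 2 := by
    have := (abs_le.1 h).2
    linarith
  have h5 : S ≤ 2 * (th 0 (2 ^ (2 * s)))⁻¹ ^ Ψ.card := by
    rw [inv_pow, ← div_eq_mul_inv, le_div_iff₀ (pow_pos hp _)]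
    exact h3
  have h6 : S ≤ 2 * (Real.exp 42 * s) ^ Ψ.card :=
    h5.trans (mul_le_mul_of_nonneg_left (pow_le_pow_left₀ (inv_nonneg.2 hp.le) h4 _) (by norm_num))
  calc S * 2 ^ Ψ.card ≤ 2 * (Real.exp 42 * s) ^ Ψ.card * 2 ^ Ψ.card :=
        mul_le_mul_of_nonneg_right h6 (by positivity)
    _ = 2 * (2 * Real.exp 42 * s) ^ Ψ.card := by
        rw [mul_assoc, ← mul_pow]; congr 2; ring
    _ ≤ 2 * (2 * Real.exp 42 * s) ^ s :=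
        mul_le_mul_of_nonneg_left (pow_le_pow_right₀ (by nlinarith) hk) (by norm_num)

lemma one_le_M {s : ℕ} (hs : 1 ≤ s) : (1 : ℝ) ≤ 2 * (2 * Real.exp 42 * s) ^ s := by
  have hs' : (1 : ℝ) ≤ s := by exact_mod_cast hs
  have he : (1 : ℝ) ≤ Real.exp 42 := Real.one_le_exp (by norm_num)
  have : (1 : ℝ) ≤ (2 * Real.exp 42 * s) ^ s := one_le_pow₀ (by nlinarith)
  linarith

lemma crude {Ψ : Finset (ℤ × ℤ)} {u v : ℕ} (huv : u ≤ v) {x S M : ℝ} (hx : 2 ≤ x) (h0 : 0 ≤ S)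
    (hM : 1 ≤ M) (hS : S * 2 ^ Ψ.card ≤ M) (T : Finset ℕ) (hT : T ⊆ Ico u v)
    (hv : ∀ m ∈ Ico u v, ∀ ψ ∈ Ψ, Real.sqrt x ≤ ((ψ.1 * m + ψ.2 : ℤ) : ℝ)) :
    |(T.card : ℝ) - S * ∑ m ∈ Ico u v, ∏ ψ ∈ Ψ, 1 / Real.log ((ψ.1 * m + ψ.2 : ℤ) : ℝ)| ≤
      ((v : ℝ) - u) * M := by
  have hc : ((Ico u v).card : ℝ) = (v : ℝ) - u := by rw [Nat.card_Ico, Nat.cast_sub huv]
  have hd : (0 : ℝ) ≤ (v : ℝ) - u := by rw [← hc]; positivity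
  have h1 : (T.card : ℝ) ≤ (v : ℝ) - u := by
    rw [← hc]; exact_mod_cast card_le_card hT
  have h2 : (0 : ℝ) ≤ T.card := Nat.cast_nonneg _
  have hl : ∀ m ∈ Ico u v, ∀ ψ ∈ Ψ, 1 / 2 ≤ Real.log ((ψ.1 * m + ψ.2 : ℤ) : ℝ) := by
    intro m hm ψ hψ
    have a1 : (1 : ℝ) < Real.sqrt x := Real.lt_sqrt_of_sq_lt (by linarith)
    have a2 : (1 : ℤ) < ψ.1 * m + ψ.2 := by exact_mod_cast a1.trans_le (hv m hm ψ hψ)
    have a3 : (2 : ℤ) ≤ ψ.1 * m + ψ.2 := a2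
    exact half_lt_log (by exact_mod_cast a3)
  have h3 : 0 ≤ ∑ m ∈ Ico u v, ∏ ψ ∈ Ψ, 1 / Real.log ((ψ.1 * m + ψ.2 : ℤ) : ℝ) :=
    sum_nonneg fun m hm => prod_nonneg fun ψ hψ => by
      have := hl m hm ψ hψ
      positivity
  have h4 : ∑ m ∈ Ico u v, ∏ ψ ∈ Ψ, 1 / Real.log ((ψ.1 * m + ψ.2 : ℤ) : ℝ) ≤
      ((v : ℝ) - u) * 2 ^ Ψ.card := by
    rw [← hc, ← nsmul_eq_mul]
    refine sum_le_card_nsmul _ _ _ fun m hm => ?_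
    rw [← prod_const]
    refine prod_le_prod (fun ψ hψ => ?_) (fun ψ hψ => ?_)
    · have := hl m hm ψ hψ
      positivity
    · have := hl m hm ψ hψ
      rw [div_le_iff₀ (by linarith)]
      linarith
  have h7 : S * ∑ m ∈ Ico u v, ∏ ψ ∈ Ψ, 1 / Real.log ((ψ.1 * m + ψ.2 : ℤ) : ℝ) ≤
      ((v : ℝ) - u) * M :=
    calc _ ≤ S * (((v : ℝ) - u) * 2 ^ Ψ.card) := mul_le_mul_of_nonneg_left h4 h0
      _ = ((v : ℝ) - u) * (S * 2 ^ Ψ.card) := by ring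
      _ ≤ _ := mul_le_mul_of_nonneg_left hS hd
  have h8 : (v : ℝ) - u ≤ ((v : ℝ) - u) * M := le_mul_of_one_le_right hd hM
  have h9 := mul_nonneg h0 h3
  rw [abs_le]
  constructor <;> linarith

lemma sf_empty : IsSF ∅ 1 := by
  unfold IsSF nuF
  simp

lemma v_le {Z : ℕ} {a b : ℤ} {m : ℕ} (ha : a ≠ 0) (hb : |b| ≤ Z) (h0 : 0 ≤ a * m + b)
    (h1 : a * m + b ≤ Z) : m ≤ 2 * Z := by
  have hb' := abs_le.1 hb
  have hm : (0 : ℤ) ≤ m := Int.natCast_nonneg m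
  have : (m : ℤ) ≤ 2 * Z := by
    rcases lt_or_gt_of_ne ha with h | h
    · have : a * m ≤ -1 * m := mul_le_mul_of_nonneg_right (by omega) hm
      omega
    · have : 1 * (m : ℤ) ≤ a * m := mul_le_mul_of_nonneg_right (by omega) hm
      omega
  exact_mod_cast this

open Classical in
lemma smallc (h1 : MertSt) {s : ℕ} (hs1 : 2 ^ 38 ≤ s) (A : Set ℕ) {x : ℝ} {Ψ : Finset (ℤ × ℤ)}
    {u v : ℕ} {S : ℝ} (hx : 2 ≤ x) (huv : u ≤ v) (hb : x ≤ X (4 * s)) (hk : Ψ.card ≤ s)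
    (p0 : 0 ≤ S) (p1 : |S * th 0 (2 ^ (2 * s)) ^ Ψ.card -
      ∏ p ∈ pr 0 (2 ^ (2 * s)), (1 - (nuF Ψ p : ℝ) / p)| ≤ 1 / (4 * 3 ^ s))
    (a3 : ∀ m ∈ Ico u v, ∀ ψ ∈ Ψ, Real.sqrt x ≤ ((ψ.1 * m + ψ.2 : ℤ) : ℝ)) :
    |(((Ico u v).filter (fun m : ℕ => ∀ ψ ∈ Ψ, (ψ.1 * m + ψ.2).toNat ∈ A)).card : ℝ) -
        S * ∑ m ∈ Ico u v, ∏ ψ ∈ Ψ, 1 / Real.log ((ψ.1 * m + ψ.2 : ℤ) : ℝ)| ≤
      2 * (2 * Real.exp 42 * s) ^ s * (3 / 2) ^ s *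
        (((v : ℝ) - u) * Real.exp (-Real.log x ^ (1 / 11 : ℝ))) := by
  have hs3 : 1 ≤ s := le_trans Nat.one_le_two_pow hs1
  have hM0 := one_le_M hs3
  have p2 := S_le h1 hs3 hk p1
  have e1 := eps_le hs1 hx hb
  have hd : (0 : ℝ) ≤ (v : ℝ) - u := sub_nonneg.2 (Nat.cast_le.2 huv)
  refine (crude huv hx p0 hM0 p2 _ (filter_subset _ _) a3).trans ?_
  generalize 2 * (2 * Real.exp 42 * (s : ℝ)) ^ s = M at hM0 ⊢
  generalize Real.exp (-Real.log x ^ (1 / 11 : ℝ)) = ε at e1 ⊢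
  have e2 : (1 : ℝ) ≤ (3 / 2) ^ s * ε := by
    refine le_trans (le_of_eq ?_) (mul_le_mul_of_nonneg_left e1 (by positivity))
    rw [← mul_pow]; norm_num
  calc ((v : ℝ) - u) * M ≤ ((v : ℝ) - u) * M * ((3 / 2) ^ s * ε) :=
        le_mul_of_one_le_right (mul_nonneg hd (zero_le_one.trans hM0)) e2
    _ = M * (3 / 2) ^ s * (((v : ℝ) - u) * ε) := by ring

lemma fin {a b c d ε W e w1 w2 : ℝ} (g2 : |a - b| ≤ 2 * (d * e) + 3 * w2)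
    (g1 : |b - c| ≤ d * e + w1) (hd : 0 ≤ d) (he : e ≤ ε) (h0 : 0 ≤ ε) (k1 : w1 ≤ W)
    (k2 : w2 ≤ W) : |a - c| ≤ 4 * (d * ε + W) := by
  have e1 := mul_le_mul_of_nonneg_left he hd
  have e2 := mul_nonneg hd h0
  have := abs_sub_le a b c
  linarith

lemma vals {s : ℕ} {x : ℝ} (b1 : (X (2 * s) : ℝ) ≤ x) (b2 : x < X (4 * s)) {z : ℤ}
    (c1 : Real.sqrt x ≤ (z : ℝ)) (c2 : (z : ℝ) ≤ x) : (X s : ℤ) ≤ z ∧ z < X (4 * s) := by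
  have d1 := (sq_le b1).trans c1
  have d2 := c2.trans_lt b2
  generalize X s = p at d1 ⊢
  generalize X (4 * s) = q at d2 ⊢
  exact ⟨by exact_mod_cast d1, by exact_mod_cast d2⟩

lemma pw {s : ℕ} (t3 : 512 ≤ s) : 2 * (2 * s) ^ 8 ≤ s ^ 9 :=
  calc 2 * (2 * s) ^ 8 = 512 * s ^ 8 := by ring
    _ ≤ s * s ^ 8 := Nat.mul_le_mul_right _ t3
    _ = s ^ 9 := by ring

lemma mono4 {C d : ℝ} (hC : 0 ≤ C) (hd : 0 ≤ d) : 4 * d ≤ (C + 4) * d :=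
  mul_le_mul_of_nonneg_right (by linarith) hd

lemma monoC {C d W : ℝ} (hC : 0 ≤ C) (hd : 0 ≤ d) (hW : 0 ≤ W) : C * d ≤ (C + 4) * (d + W) :=
  mul_le_mul (by linarith) (by linarith) hd (by linarith)

lemma thr (i0 N : ℕ) : ∃ j0, ∀ j, j0 ≤ j → i0 ≤ j ∧ 2 ^ 38 ≤ 2 ^ j ∧ N ≤ 2 ^ j :=
  ⟨i0 + N + 38, fun j hj => ⟨by omega, Nat.pow_le_pow_right (by norm_num) (by omega),
    le_trans (by omega) (Nat.lt_two_pow_self (n := j)).le⟩⟩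

end Hl2x

open Hl2x in
theorem hl2_st (h1 : MertSt) (h2 : Sing2St) (h3 : ArithSt) (h4 : TeleSt) : Hl2St := by
  classical
  intro i0 A hA
  obtain ⟨N, hN⟩ := eventually_atTop.1 (Eventually.and h2 (Eventually.and h3 h4))
  obtain ⟨j0, hbig⟩ := thr i0 N
  obtain ⟨-, hs1, hs2⟩ := hbig j0 le_rfl
  have hlev := fun x : ℝ => level j0 (x := x)
  generalize 2 ^ j0 = s0 at hs1 hs2 hlev
  have hC0 : (0 : ℝ) ≤ 2 * (2 * Real.exp 42 * s0) ^ s0 * (3 / 2) ^ s0 := by positivity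
  refine ⟨2 * (2 * Real.exp 42 * s0) ^ s0 * (3 / 2) ^ s0 + 4,
    add_nonneg hC0 (by norm_num), ?_⟩
  intro x Ψ u v hx huv a0 a1 a2 a3
  have hd : (0 : ℝ) ≤ (v : ℝ) - u := sub_nonneg.2 (Nat.cast_le.2 huv)
  have hε0 : 0 ≤ Real.exp (-Real.log x ^ (1 / 11 : ℝ)) := (Real.exp_pos _).le
  have hW0 : 0 ≤ Real.exp (Real.log x ^ (9 / 10 : ℝ)) := (Real.exp_pos _).le
  have hdε := mul_nonneg hd hε0
  rcases le_total x (X (2 * s0)) with hb | hb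
  · have hb' : x ≤ X (4 * s0) :=
      hb.trans (Nat.cast_le.2 (X_mono (Nat.mul_le_mul_right _ (by norm_num))))
    have hk : Ψ.card ≤ s0 := Nat.cast_le.1 (a0.trans (card_le hs1 hx hb'))
    obtain ⟨⟨S, hS⟩, hS2⟩ := (hN s0 hs2).1 Ψ (adm hb' a1 a2) hk
    obtain ⟨p0, p1⟩ := hS2 S hS
    exact ⟨S, hS, (smallc h1 hs1 A hx huv hb' hk p0 p1
      (fun m hm ψ hψ => (a3 m hm ψ hψ).1)).trans (monoC hC0 hdε hW0)⟩
  · obtain ⟨j, hj, b1, b2⟩ := hlev x hb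
    obtain ⟨t0, t1, t2⟩ := hbig j hj
    have H1 : HL2 (2 ^ j) A := hA.hl j t0
    have H2 : HL2 (2 * 2 ^ j) A := by
      have := hA.hl (j + 1) (Nat.le_succ_of_le t0)
      rwa [pow_succ'] at this
    generalize 2 ^ j = s at b1 b2 H1 H2 t1 t2
    have hk : Ψ.card ≤ s := Nat.cast_le.1 (a0.trans (card_le t1 hx b2.le))
    have had := adm b2.le a1 a2
    have hR := mul_nonneg (add_nonneg hC0 (show (0 : ℝ) ≤ 4 by norm_num)) (add_nonneg hdε hW0)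
    rcases Ψ.eq_empty_or_nonempty with rfl | ⟨ψ0, hψ0⟩
    · refine ⟨1, sf_empty, le_trans (le_of_eq ?_) hR⟩
      simp
    obtain ⟨⟨S, hS⟩, -⟩ := (hN s t2).1 Ψ had hk
    refine ⟨S, hS, ?_⟩
    rcases huv.eq_or_lt with rfl | hlt
    · refine le_trans (le_of_eq ?_) hR
      simp
    have hval : ∀ m ∈ Ico u v, ∀ ψ ∈ Ψ,
        (X s : ℤ) ≤ ψ.1 * m + ψ.2 ∧ ψ.1 * m + ψ.2 < X (4 * s) := fun m hm ψ hψ =>
      vals b1 b2 (a3 m hm ψ hψ).1 (a3 m hm ψ hψ).2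
    have hv : v ≤ 2 * X (4 * s) + 1 := by
      have hm : v - 1 ∈ Ico u v :=
        mem_Ico.2 ⟨Nat.le_sub_one_of_lt hlt, Nat.sub_lt (Nat.zero_lt_of_lt hlt) one_pos⟩
      obtain ⟨c1, c2⟩ := hval _ hm ψ0 hψ0
      exact Nat.le_add_of_sub_le (v_le (had.1 ψ0 hψ0).1 (had.1 ψ0 hψ0).2.2.2
        (le_trans (Int.natCast_nonneg _) c1) c2.le)
    have g1 := (hN s t2).2.1 Ψ S u v had hk hS huv (fun m hm ψ hψ => (hval m hm ψ hψ).1)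
    have g2 := (hN s t2).2.2 A Ψ u v H1 H2 had hk huv hv hval
    have t3 : 512 ≤ s := le_trans (by norm_num) t1
    have w1 := big_le (k := s ^ 6) b1
      (Nat.pow_le_pow_right (le_trans (by norm_num) t3) (by norm_num))
    have w2 := big_le (k := 2 * (2 * s) ^ 8) b1 (pw t3)
    exact (fin g2 g1 hd (eps_le t1 hx b2.le) hε0 w1 w2).trans (mono4 hC0 (add_nonneg hdε hW0))

end Pool.Agent.Lib.MP_be93de_nt.Hc
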