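import Pool.Agent.Lib.MP_be93de_nt.Hc.Defs

namespace Pool.Agent.Lib.MP_be93de_nt.Hc

open Finset Filter Pool.Agent.Lib.MP_be93de_nt.Hb

namespace Manyx

theorem log_le (s : ℕ) (hs : 10000 ≤ s) :
    Real.log (1 + Real.log ((2 ^ (4 * s ^ 2) : ℕ) : ℝ)) + 38 ≤ (s : ℝ) / 6 := by
  have h0 : (10000 : ℝ) ≤ s := by exact_mod_cast hs
  have h2 : Real.log 2 ≤ 1 := by
    have := Real.log_le_sub_one_of_pos (show (0 : ℝ) < 2 by norm_num)
    linarith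
  have h2' : 0 ≤ Real.log 2 := Real.log_nonneg (by norm_num)
  have e : Real.log ((2 ^ (4 * s ^ 2) : ℕ) : ℝ) = 4 * (s : ℝ) ^ 2 * Real.log 2 := by
    push_cast
    rw [Real.log_pow]
    push_cast
    ring
  rw [e]
  have h3 : 1 + 4 * (s : ℝ) ^ 2 * Real.log 2 ≤ (100 * ((s : ℝ) / 25)) ^ 2 := by nlinarith
  have h4 : Real.log (1 + 4 * (s : ℝ) ^ 2 * Real.log 2) ≤
      Real.log ((100 * ((s : ℝ) / 25)) ^ 2) := Real.log_le_log (by positivity) h3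
  rw [Real.log_pow, Real.log_mul (by norm_num) (by positivity)] at h4
  have h5 := Real.log_le_sub_one_of_pos (show (0 : ℝ) < 100 by norm_num)
  have h6 := Real.log_le_sub_one_of_pos (show (0 : ℝ) < (s : ℝ) / 25 by positivity)
  push_cast at h4
  linarith

theorem tail_le (s : ℕ) (hs : 1 ≤ s) {L : ℝ} (h0 : 0 ≤ L) (hL : L ≤ (s : ℝ) / 6) :
    L ^ s / s.factorial ≤ 1 / 2 ^ s := by
  have hs0 : (0 : ℝ) < s := by exact_mod_cast hs
  have hf : (0 : ℝ) < s.factorial := by exact_mod_cast s.factorial_pos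
  have h1 := Real.pow_div_factorial_le_exp (s : ℝ) hs0.le s
  have h2 : Real.exp s ≤ 3 ^ s := by
    rw [← Real.exp_one_pow]
    exact pow_le_pow_left₀ (Real.exp_pos 1).le (Real.exp_one_lt_d9.le.trans (by norm_num)) s
  have h3 : L ^ s ≤ (s : ℝ) ^ s / 6 ^ s := by
    rw [← div_pow]; exact pow_le_pow_left₀ h0 hL s
  have h4 : (s : ℝ) ^ s ≤ 3 ^ s * s.factorial := (div_le_iff₀ hf).1 (h1.trans h2)
  have h6 : (6 : ℝ) ^ s = 2 ^ s * 3 ^ s := by rw [← mul_pow]; norm_num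
  have h7 : L ^ s * 2 ^ s ≤ s.factorial := by
    rw [le_div_iff₀ (by positivity), h6] at h3
    have h8 : (0 : ℝ) < 3 ^ s := by positivity
    refine le_of_mul_le_mul_right ?_ h8
    nlinarith
  rw [div_le_div_iff₀ hf (by positivity)]
  linarith

theorem exp_le (s : ℕ) (hs : 10000 ≤ s) : 4 * (Real.exp 42 * s) ≤ 2 ^ s := by
  have h2 : Real.exp 42 ≤ 4 ^ 42 := by
    have e : Real.exp 42 = Real.exp 1 ^ 42 := by rw [Real.exp_one_pow]; norm_num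
    rw [e]
    exact pow_le_pow_left₀ (Real.exp_pos 1).le (Real.exp_one_lt_d9.le.trans (by norm_num)) 42
  obtain ⟨k, rfl⟩ : ∃ k, s = 87 + k := ⟨s - 87, by omega⟩
  have h3 : (k : ℝ) + 1 ≤ 2 ^ k := by exact_mod_cast Nat.lt_two_pow_self
  have h4 : (100 : ℝ) ≤ k := by exact_mod_cast (by omega : 100 ≤ k)
  have h5 : ((87 + k : ℕ) : ℝ) ≤ 2 * 2 ^ k := by
    push_cast
    linarith
  have h6 := mul_le_mul h2 h5 (Nat.cast_nonneg _) (by positivity)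
  have h7 : (2 : ℝ) ^ (87 + k) = 4 * (4 ^ 42 * (2 * 2 ^ k)) := by
    rw [pow_add]
    ring
  rw [h7]
  linarith

end Manyx

theorem many_st (h1 : MertSt) (h2 : BonfSt) : ManySt := by
  filter_upwards [eventually_ge_atTop 10000] with s hs T
  have hs1 : 1 ≤ s := by omega
  have hs0 : (0 : ℝ) < s := by exact_mod_cast hs1
  have p7 : 4 ≤ s ^ 7 := le_trans (by omega) (Nat.le_self_pow (by norm_num) s)
  have p8 : s ^ 7 + 4 ≤ s ^ 8 := by
    have : s ^ 8 = s ^ 7 * s := pow_succ s 7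
    nlinarith
  have p2 : s + (3 * s ^ 2 + 1) ≤ s ^ 8 := by
    have c1 : s ^ 3 ≤ s ^ 8 := Nat.pow_le_pow_right hs1 (by norm_num)
    have c2 : s ^ 3 = s ^ 2 * s := pow_succ s 2
    have c3 : s ^ 2 = s * s := sq s
    nlinarith
  have hY : 2 * (3 * R s + 3) ≤ Y s := by
    have c1 : 2 ^ (s ^ 7 + 4) ≤ Y s := Nat.pow_le_pow_right (by norm_num) p8
    have c2 : 0 < R s := Nat.two_pow_pos _
    have c3 : 2 ^ (s ^ 7 + 4) = R s * 16 := pow_add 2 _ 4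
    omega
  obtain ⟨L, hL⟩ : ∃ L, Y s = 3 * R s + 3 + L := ⟨Y s - (3 * R s + 3), by omega⟩
  have hB := h2 (pr 0 (2 ^ (2 * s))) (fun _ => {0}) (T + 3 * R s + 3) L s
    (fun p hp => (mem_filter.1 hp).2)
    (fun p hp => singleton_subset_iff.2 (mem_range.2 (mem_filter.1 hp).2.pos))
  simp only [card_singleton, Nat.cast_one, sum_const, nsmul_eq_mul, mul_one] at hB
  have w0 : (0 : ℝ) < 2 ^ s := by positivity
  have a1 : 4 * (1 / 2 ^ s) ≤ ∏ p ∈ pr 0 (2 ^ (2 * s)), (1 - 1 / (p : ℝ)) := by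
    have c0 : 0 < th 0 (2 ^ (2 * s)) := (h1.1 _ _).1
    have c1 := (h1.2.2 s hs1).1
    have c2 := Manyx.exp_le s hs
    have c3 : 4 * (th 0 (2 ^ (2 * s)))⁻¹ ≤ 2 ^ s := by linarith
    rw [← div_eq_mul_inv, div_le_iff₀ c0] at c3
    show _ ≤ th 0 (2 ^ (2 * s))
    rw [mul_one_div, div_le_iff₀ w0]
    linarith
  have a0 : ∑ p ∈ pr 0 (2 ^ (2 * s)), 1 / (p : ℝ) ≤ (s : ℝ) / 6 := by
    refine le_trans (sum_le_sum_of_subset_of_nonneg ?_ fun p _ _ => by positivity)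
      ((h1.2.1 0 (2 ^ (4 * s ^ 2))).trans (Manyx.log_le s hs))
    exact filter_subset_filter _ (Ioc_subset_Ioc_right
      (Nat.pow_le_pow_right (by norm_num) (by nlinarith)))
  have a2 := Manyx.tail_le s hs1 (sum_nonneg fun p _ => by positivity) a0
  have a3 : (1 + ((pr 0 (2 ^ (2 * s))).card : ℝ)) ^ s ≤ 2 ^ (3 * s ^ 2) := by
    have c1 : (pr 0 (2 ^ (2 * s))).card ≤ 2 ^ (2 * s) - 0 :=
      (card_filter_le _ _).trans_eq (Nat.card_Ioc _ _)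
    have c2 : 0 < 2 ^ (2 * s) := by positivity
    have c4 : 1 + (pr 0 (2 ^ (2 * s))).card ≤ 2 ^ (2 * s + 1) := by
      rw [pow_succ]
      omega
    have c5 : (2 ^ (2 * s + 1)) ^ s ≤ 2 ^ (3 * s ^ 2) := by
      rw [← pow_mul]
      exact Nat.pow_le_pow_right (by norm_num) (by nlinarith)
    exact_mod_cast (Nat.pow_le_pow_left c4 s).trans c5
  have a4 : ((s ^ 7 : ℕ) : ℝ) ≤ 2 ^ (3 * s ^ 2) := by
    have c1 : s ^ 7 ≤ (2 ^ s) ^ 7 := Nat.pow_le_pow_left Nat.lt_two_pow_self.le 7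
    have c2 : (2 ^ s) ^ 7 ≤ 2 ^ (3 * s ^ 2) := by
      rw [← pow_mul]
      exact Nat.pow_le_pow_right (by norm_num) (by nlinarith)
    exact_mod_cast c1.trans c2
  have a5 : (2 : ℝ) ^ (3 * s ^ 2) ≤ L * (1 / 2 ^ s) := by
    have c1 : 2 ^ (s + (3 * s ^ 2 + 1)) ≤ Y s := Nat.pow_le_pow_right (by norm_num) p2
    rw [pow_add, pow_succ] at c1
    have c2 : 2 ^ (3 * s ^ 2) * 2 ^ s ≤ L := by nlinarith
    rw [mul_one_div, le_div_iff₀ w0]
    exact_mod_cast c2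
  have hN : (0 : ℝ) ≤ L := Nat.cast_nonneg L
  have a6 := mul_le_mul_of_nonneg_left a1 hN
  have a7 := mul_le_mul_of_nonneg_left a2 hN
  have a8 := (abs_le.1 hB).1
  have a9 : 2 * (L : ℝ) * (∑ p ∈ pr 0 (2 ^ (2 * s)), 1 / (p : ℝ)) ^ s / s.factorial =
      2 * (L * ((∑ p ∈ pr 0 (2 ^ (2 * s)), 1 / (p : ℝ)) ^ s / s.factorial)) := by ring
  have e : (Ico (T + 3 * R s + 3) (T + Y s)).filter (Free 0 (2 ^ (2 * s))) =
      (Ico (T + 3 * R s + 3) (T + 3 * R s + 3 + L)).filter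
        (fun m => ∀ p ∈ pr 0 (2 ^ (2 * s)), m % p ∉ ({0} : Finset ℕ)) := by
    ext m
    simp only [mem_filter, mem_Ico, Free, mem_singleton, Nat.dvd_iff_mod_eq_zero, hL, add_assoc]
  rw [e]
  have fin : ((s ^ 7 : ℕ) : ℝ) ≤ (((Ico (T + 3 * R s + 3) (T + 3 * R s + 3 + L)).filter
        (fun m => ∀ p ∈ pr 0 (2 ^ (2 * s)), m % p ∉ ({0} : Finset ℕ))).card : ℝ) := by
    linarith
  exact_mod_cast fin

end Pool.Agent.Lib.MP_be93de_nt.Hc
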