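import Pool.Agent.Lib.MP_be93de_nt.Hc.Defs

/-! Monotone weights keep partial sums small (Abel summation). -/

namespace Pool.Agent.Lib.MP_be93de_nt.Hc

open Finset

namespace Monox

theorem up (h T : ℕ → ℝ) (M : ℝ) (a n : ℕ) (han : a ≤ n) (h0 : 0 ≤ h a)
    (hT : ∀ j, a ≤ j → j ≤ n → |T j| ≤ M) (hm : ∀ j, a ≤ j → j < n → h j ≤ h (j + 1)) :
    |∑ m ∈ Ico a (n + 1), h m * (T m - T (m + 1)) + h n * T (n + 1)| ≤ h n * M := by
  induction n, han using Nat.le_induction with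
  | base =>
    have h1 : ∑ m ∈ Ico a (a + 1), h m * (T m - T (m + 1)) + h a * T (a + 1) = h a * T a := by
      rw [Nat.Ico_succ_singleton, sum_singleton]; ring
    rw [h1, abs_mul, abs_of_nonneg h0]
    exact mul_le_mul_of_nonneg_left (hT a le_rfl le_rfl) h0
  | succ n han ih =>
    have h1 := ih (fun j h1 h2 => hT j h1 (by omega)) (fun j h1 h2 => hm j h1 (by omega))
    have h2 : 0 ≤ h (n + 1) - h n := sub_nonneg.2 (hm n han (by omega))
    have h3 : |(h (n + 1) - h n) * T (n + 1)| ≤ (h (n + 1) - h n) * M := by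
      rw [abs_mul, abs_of_nonneg h2]
      exact mul_le_mul_of_nonneg_left (hT (n + 1) (by omega) le_rfl) h2
    rw [sum_Ico_succ_top (by omega : a ≤ n + 1)]
    have h4 : ∑ m ∈ Ico a (n + 1), h m * (T m - T (m + 1)) +
        h (n + 1) * (T (n + 1) - T (n + 1 + 1)) + h (n + 1) * T (n + 1 + 1) =
        (∑ m ∈ Ico a (n + 1), h m * (T m - T (m + 1)) + h n * T (n + 1)) +
          (h (n + 1) - h n) * T (n + 1) := by ring
    rw [h4]
    refine (abs_add_le _ _).trans ?_
    linarith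

theorem dn (h S : ℕ → ℝ) (M : ℝ) (a n : ℕ) (han : a ≤ n) (h0 : S a = 0)
    (hS : ∀ j, a ≤ j → j ≤ n → |S j| ≤ M) (hm : ∀ j, a ≤ j → j < n → h (j + 1) ≤ h j) :
    |∑ m ∈ Ico a (n + 1), h m * (S (m + 1) - S m) - h n * S (n + 1)| ≤ (h a - h n) * M := by
  induction n, han using Nat.le_induction with
  | base =>
    rw [Nat.Ico_succ_singleton, sum_singleton, h0]
    simp
  | succ n han ih =>
    have h1 := ih (fun j h1 h2 => hS j h1 (by omega)) (fun j h1 h2 => hm j h1 (by omega))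
    have h2 : 0 ≤ h n - h (n + 1) := sub_nonneg.2 (hm n han (by omega))
    have h3 : |(h n - h (n + 1)) * S (n + 1)| ≤ (h n - h (n + 1)) * M := by
      rw [abs_mul, abs_of_nonneg h2]
      exact mul_le_mul_of_nonneg_left (hS (n + 1) (by omega) le_rfl) h2
    rw [sum_Ico_succ_top (by omega : a ≤ n + 1)]
    have h4 : ∑ m ∈ Ico a (n + 1), h m * (S (m + 1) - S m) +
        h (n + 1) * (S (n + 1 + 1) - S (n + 1)) - h (n + 1) * S (n + 1 + 1) =
        (∑ m ∈ Ico a (n + 1), h m * (S (m + 1) - S m) - h n * S (n + 1)) +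
          (h n - h (n + 1)) * S (n + 1) := by ring
    rw [h4]
    refine (abs_add_le _ _).trans ?_
    linarith

theorem step {u v : ℕ} {ε W : ℝ} {e h : ℕ → ℝ} (hε : 0 ≤ ε) (he : Sm u v ε W e)
    (hm : MonotoneOn h (Set.Ico u v) ∨ AntitoneOn h (Set.Ico u v))
    (hb : ∀ m ∈ Ico u v, 0 ≤ h m ∧ h m ≤ 1) : Sm u v ε W (fun m => h m * e m) := by
  intro a b hua hab hbv
  rcases hab.eq_or_lt with rfl | hlt
  · simpa using he a a hua le_rfl hbv
  obtain ⟨n, rfl⟩ : ∃ n, b = n + 1 := ⟨b - 1, by omega⟩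
  have han : a ≤ n := by omega
  have hsub : ∀ i j : ℕ, a ≤ i → i ≤ j → j ≤ n + 1 →
      |∑ m ∈ Ico i j, e m| ≤ ε * (((n + 1 : ℕ) : ℝ) - a) + W := by
    intro i j h1 h2 h3
    refine (he i j (by omega) h2 (by omega)).trans ?_
    have h4 : (a : ℝ) ≤ i := by exact_mod_cast h1
    have h5 : (j : ℝ) ≤ ((n + 1 : ℕ) : ℝ) := by exact_mod_cast h3
    have h6 := mul_le_mul_of_nonneg_left (show (j : ℝ) - i ≤ ((n + 1 : ℕ) : ℝ) - a by linarith) hε
    linarith
  have hM : 0 ≤ ε * (((n + 1 : ℕ) : ℝ) - a) + W :=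
    (abs_nonneg _).trans (hsub a a le_rfl le_rfl (by omega))
  generalize ε * (((n + 1 : ℕ) : ℝ) - a) + W = M at hsub hM ⊢
  have ha := hb a (mem_Ico.2 ⟨hua, by omega⟩)
  have hn := hb n (mem_Ico.2 ⟨by omega, by omega⟩)
  rcases hm with hm | hm
  · have h1 := up h (fun j => ∑ m ∈ Ico j (n + 1), e m) M a n han ha.1
      (fun j h1 h2 => hsub j (n + 1) h1 (by omega) le_rfl)
      (fun j h1 h2 => hm ⟨by omega, by omega⟩ ⟨by omega, by omega⟩ (Nat.le_succ j))
    have h2 : ∑ m ∈ Ico a (n + 1), h m * (∑ i ∈ Ico m (n + 1), e i - ∑ i ∈ Ico (m + 1) (n + 1), e i)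
        = ∑ m ∈ Ico a (n + 1), h m * e m := by
      refine sum_congr rfl fun m hm' => ?_
      rw [sum_eq_sum_Ico_succ_bot (mem_Ico.1 hm').2]
      ring
    rw [h2, Ico_self, sum_empty, mul_zero, add_zero] at h1
    exact h1.trans (mul_le_of_le_one_left hM hn.2)
  · have h1 := dn h (fun j => ∑ m ∈ Ico a j, e m) M a n han (by simp)
      (fun j h1 h2 => hsub a j le_rfl h1 (by omega))
      (fun j h1 h2 => hm ⟨by omega, by omega⟩ ⟨by omega, by omega⟩ (Nat.le_succ j))
    have h2 : ∑ m ∈ Ico a (n + 1), h m * (∑ i ∈ Ico a (m + 1), e i - ∑ i ∈ Ico a m, e i)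
        = ∑ m ∈ Ico a (n + 1), h m * e m := by
      refine sum_congr rfl fun m hm' => ?_
      rw [sum_Ico_succ_top (mem_Ico.1 hm').1]
      ring
    rw [h2] at h1
    have h3 : |h n * ∑ m ∈ Ico a (n + 1), e m| ≤ h n * M := by
      rw [abs_mul, abs_of_nonneg hn.1]
      exact mul_le_mul_of_nonneg_left (hsub a (n + 1) le_rfl (by omega) le_rfl) hn.1
    have h4 := abs_add_le (∑ m ∈ Ico a (n + 1), h m * e m - h n * ∑ m ∈ Ico a (n + 1), e m)
      (h n * ∑ m ∈ Ico a (n + 1), e m)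
    rw [sub_add_cancel] at h4
    have h5 := mul_le_of_le_one_left hM ha.2
    linarith

end Monox

theorem mono_st : MonoSt := by
  classical
  intro u v ε W e ι I h hε he
  induction I using Finset.induction_on with
  | empty => intro _; simpa using he
  | insert i I hi ih =>
    intro hI
    have h1 := ih fun j hj => hI j (mem_insert_of_mem hj)
    have h2 := hI i (mem_insert_self i I)
    have h3 := Monox.step hε h1 h2.1 h2.2
    simpa only [prod_insert hi, mul_assoc] using h3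

end Pool.Agent.Lib.MP_be93de_nt.Hc
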