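import Pool.Agent.Lib.MP_be93de_nt.Hc.Defs

namespace Pool.Agent.Lib.MP_be93de_nt.Hc

open Finset

namespace Potx

theorem one_step (w u q : ℝ) (hw : 0 ≤ w) (hu : |u| ≤ 1) (hq : u ^ 2 ≤ q) :
    w * Real.exp (-q) * Real.exp u ≤ w + w * Real.exp (-q) * u := by
  have h1 : Real.exp u ≤ 1 + u + q := by
    have := (abs_le.1 (Real.abs_exp_sub_one_sub_id_le hu)).2
    linarith
  have h2 : Real.exp (-q) * (1 + q) ≤ 1 := by
    have a := Real.add_one_le_exp q
    have b : Real.exp (-q) * Real.exp q = 1 := by rw [← Real.exp_add]; simp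
    have c := mul_le_mul_of_nonneg_left a (Real.exp_pos (-q)).le
    linarith
  have h3 : 0 ≤ w * Real.exp (-q) := mul_nonneg hw (Real.exp_pos _).le
  have h4 := mul_le_mul_of_nonneg_left h1 h3
  have h5 := mul_le_mul_of_nonneg_left h2 hw
  nlinarith

theorem two_step (lam D Q v c : ℝ) (hl : 0 < lam) (hv : |v| ≤ c) (hc : lam * c ≤ 1) :
    Real.exp (lam * (D + v) - (Q + lam ^ 2 * c ^ 2)) +
      Real.exp (-(lam * (D + v)) - (Q + lam ^ 2 * c ^ 2)) ≤
    Real.exp (lam * D - Q) + Real.exp (-(lam * D) - Q) +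
      lam * Real.exp (-(lam ^ 2 * c ^ 2)) *
        (Real.exp (lam * D - Q) - Real.exp (-(lam * D) - Q)) * v := by
  have hu : |lam * v| ≤ 1 := by
    rw [abs_mul, abs_of_pos hl]
    exact (mul_le_mul_of_nonneg_left hv hl.le).trans hc
  have hq : (lam * v) ^ 2 ≤ lam ^ 2 * c ^ 2 := by
    rw [mul_pow]
    refine mul_le_mul_of_nonneg_left ?_ (sq_nonneg _)
    rw [← sq_abs v]
    exact pow_le_pow_left₀ (abs_nonneg _) hv 2
  have a := one_step (Real.exp (lam * D - Q)) (lam * v) _ (Real.exp_pos _).le hu hq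
  have b := one_step (Real.exp (-(lam * D) - Q)) (-(lam * v)) (lam ^ 2 * c ^ 2)
    (Real.exp_pos _).le (by rwa [abs_neg]) (by rwa [neg_sq])
  have e1 : Real.exp (lam * (D + v) - (Q + lam ^ 2 * c ^ 2)) =
      Real.exp (lam * D - Q) * Real.exp (-(lam ^ 2 * c ^ 2)) * Real.exp (lam * v) := by
    rw [← Real.exp_add, ← Real.exp_add]; congr 1; ring
  have e2 : Real.exp (-(lam * (D + v)) - (Q + lam ^ 2 * c ^ 2)) =
      Real.exp (-(lam * D) - Q) * Real.exp (-(lam ^ 2 * c ^ 2)) * Real.exp (-(lam * v)) := by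
    rw [← Real.exp_add, ← Real.exp_add]; congr 1; ring
  rw [e1, e2]
  linarith

end Potx

theorem pot_st : PotSt := by
  intro ι σ I c Cb lam Step s0 hl hC hc hstep
  choose f g hS hd hg using hstep
  let Q : ℕ → ι → ℝ := fun n τ => ∑ j ∈ range n, lam ^ 2 * c j τ ^ 2
  let dd : ℕ → (ι → ℝ) → ι → ℝ := fun j D τ => lam * Real.exp (-(lam ^ 2 * c j τ ^ 2)) *
    (Real.exp (lam * D τ - Q j τ) - Real.exp (-(lam * D τ) - Q j τ))
  let S : ℕ → σ × (ι → ℝ) := fun n => Nat.rec (s0, fun _ => 0)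
    (fun j p => (f j p.1 (dd j p.2), fun τ => p.2 τ + g j p.1 (dd j p.2) τ)) n
  have S0 : S 0 = (s0, fun _ => 0) := rfl
  have S1 : ∀ j, S (j + 1) = (f j (S j).1 (dd j (S j).2),
      fun τ => (S j).2 τ + g j (S j).1 (dd j (S j).2) τ) := fun _ => rfl
  have Q0 : ∀ τ, Q 0 τ = 0 := fun τ => by simp [Q]
  have Q1 : ∀ j τ, Q (j + 1) τ = Q j τ + lam ^ 2 * c j τ ^ 2 := fun j τ => by
    simp only [Q]; rw [sum_range_succ]
  have hD : ∀ n τ, ∑ j ∈ range n, g j (S j).1 (dd j (S j).2) τ = (S n).2 τ := by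
    intro n τ
    induction n with
    | zero => simp [S0]
    | succ n ih => rw [sum_range_succ, ih, S1]
  have hP : ∀ n, ∑ τ ∈ I, (Real.exp (lam * (S n).2 τ - Q n τ) +
      Real.exp (-(lam * (S n).2 τ) - Q n τ)) ≤ 2 * I.card := by
    intro n
    induction n with
    | zero =>
      simp only [S0, Q0]
      simp
      linarith
    | succ n ih =>
      have h1 : ∑ τ ∈ I, (Real.exp (lam * (S (n + 1)).2 τ - Q (n + 1) τ) +
          Real.exp (-(lam * (S (n + 1)).2 τ) - Q (n + 1) τ)) ≤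
          ∑ τ ∈ I, ((Real.exp (lam * (S n).2 τ - Q n τ) +
            Real.exp (-(lam * (S n).2 τ) - Q n τ)) +
            dd n (S n).2 τ * g n (S n).1 (dd n (S n).2) τ) := by
        refine sum_le_sum fun τ hτ => ?_
        rw [S1, Q1]
        exact Potx.two_step lam _ _ _ _ hl (hg n _ _ τ hτ)
          ((mul_le_mul_of_nonneg_left (hc n τ hτ).2 hl.le).trans hC)
      rw [sum_add_distrib (f := fun τ => Real.exp (lam * (S n).2 τ - Q n τ) +
            Real.exp (-(lam * (S n).2 τ) - Q n τ))] at h1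
      have h2 := hd n (S n).1 (dd n (S n).2)
      linarith
  refine ⟨fun n => (S n).1, fun j => g j (S j).1 (dd j (S j).2), rfl, fun j => hS j _ _, ?_⟩
  intro τ hτ n
  rw [hD]
  have h1 : Real.exp (lam * (S n).2 τ - Q n τ) + Real.exp (-(lam * (S n).2 τ) - Q n τ) ≤
      2 * I.card :=
    (single_le_sum (f := fun τ => Real.exp (lam * (S n).2 τ - Q n τ) +
      Real.exp (-(lam * (S n).2 τ) - Q n τ)) (fun _ _ => by positivity) hτ).trans (hP n)
  have p1 := Real.exp_pos (lam * (S n).2 τ - Q n τ)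
  have p2 := Real.exp_pos (-(lam * (S n).2 τ) - Q n τ)
  have hI : (0 : ℝ) < 2 * I.card := by linarith
  have a1 : lam * (S n).2 τ - Q n τ ≤ Real.log (2 * I.card) :=
    (Real.le_log_iff_exp_le hI).2 (by linarith)
  have a2 : -(lam * (S n).2 τ) - Q n τ ≤ Real.log (2 * I.card) :=
    (Real.le_log_iff_exp_le hI).2 (by linarith)
  have hQ : Q n τ ≤ lam * (lam * Cb * ∑ j ∈ range n, c j τ) := by
    rw [mul_sum, mul_sum]
    refine sum_le_sum fun j _ => ?_
    have := mul_le_mul_of_nonneg_left (hc j τ hτ).2 (hc j τ hτ).1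
    have := mul_le_mul_of_nonneg_left this (sq_nonneg lam)
    nlinarith
  have e : lam * (Real.log (2 * I.card) / lam) = Real.log (2 * I.card) := by
    field_simp
  refine le_of_mul_le_mul_left ?_ hl
  rw [mul_add, e, ← abs_of_pos hl, ← abs_mul, abs_of_pos hl, abs_le]
  constructor <;> linarith

end Pool.Agent.Lib.MP_be93de_nt.Hc
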