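import Pool.Agent.Lib.MP_be93de_nt.Hc.Defs

/-! Roots of admissible systems of linear forms modulo a prime. -/

namespace Pool.Agent.Lib.MP_be93de_nt.Hc

open Finset Filter Pool.Agent.Lib.MP_be93de_nt.Hb

namespace Rootx

/-- the roots of one form modulo `p` -/
def rt (p : ℕ) (ψ : ℤ × ℤ) : Finset ℕ :=
  (range p).filter (fun m : ℕ => (p : ℤ) ∣ ψ.1 * m + ψ.2)

/-- leading coefficient on the diagonal, determinant off it -/
def dt (ψ φ : ℤ × ℤ) : ℤ := if ψ = φ then ψ.1 else ψ.1 * φ.2 - φ.1 * ψ.2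

lemma nuF_eq (Φ : Finset (ℤ × ℤ)) (p : ℕ) : nuF Φ p = (Φ.biUnion (rt p)).card := by
  unfold nuF
  congr 1
  ext m
  simp only [rt, mem_filter, mem_biUnion]
  constructor
  · rintro ⟨h, ψ, h1, h2⟩
    exact ⟨ψ, h1, h, h2⟩
  · rintro ⟨ψ, h1, h, h2⟩
    exact ⟨h, ψ, h1, h2⟩

lemma not_dvd_of_root {p : ℕ} (hp : p.Prime) {ψ : ℤ × ℤ} (hg : Int.gcd ψ.1 ψ.2 = 1) {m : ℕ}
    (hm : (p : ℤ) ∣ ψ.1 * m + ψ.2) : ¬ (p : ℤ) ∣ ψ.1 := by
  intro ha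
  have hb : (p : ℤ) ∣ ψ.2 := (dvd_add_right (ha.mul_right _)).1 hm
  have h1 : p ∣ Int.gcd ψ.1 ψ.2 := Int.dvd_gcd ha hb
  rw [hg] at h1
  exact hp.one_lt.ne' (Nat.dvd_one.1 h1)

lemma rt_le {p : ℕ} (hp : p.Prime) {ψ : ℤ × ℤ} (hg : Int.gcd ψ.1 ψ.2 = 1) :
    (rt p ψ).card ≤ 1 := by
  rw [card_le_one]
  intro m hm n hn
  simp only [rt, mem_filter, mem_range] at hm hn
  have ha := not_dvd_of_root hp hg hm.2
  have h1 : (p : ℤ) ∣ ψ.1 * ((m : ℤ) - n) := by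
    have := dvd_sub hm.2 hn.2
    rwa [show ψ.1 * m + ψ.2 - (ψ.1 * n + ψ.2) = ψ.1 * ((m : ℤ) - n) by ring] at this
  have hp' : Prime (p : ℤ) := Nat.prime_iff_prime_int.1 hp
  have h2 : (p : ℤ) ∣ (m : ℤ) - n := (hp'.dvd_or_dvd h1).resolve_left ha
  have h3 : (m : ℤ) - n = 0 := by
    apply Int.eq_zero_of_abs_lt_dvd h2
    rw [abs_lt]
    have := hm.1
    have := hn.1
    constructor <;> omega
  omega

lemma rt_ne {p : ℕ} (hp : p.Prime) {ψ : ℤ × ℤ} (ha : ¬ (p : ℤ) ∣ ψ.1) : (rt p ψ).Nonempty := by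
  have hp' : Prime (p : ℤ) := Nat.prime_iff_prime_int.1 hp
  have hc : IsCoprime (p : ℤ) ψ.1 := (hp'.irreducible.coprime_iff_not_dvd).2 ha
  obtain ⟨u, v, huv⟩ := hc
  have hp0 : (0 : ℤ) < p := by exact_mod_cast hp.pos
  have h0 : 0 ≤ (-(v * ψ.2)) % p := Int.emod_nonneg _ hp0.ne'
  have h1 : (-(v * ψ.2)) % p < p := Int.emod_lt_of_pos _ hp0
  refine ⟨((-(v * ψ.2)) % p).toNat, ?_⟩
  simp only [rt, mem_filter, mem_range]
  refine ⟨by omega, ?_⟩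
  rw [Int.toNat_of_nonneg h0, Int.emod_def]
  refine ⟨u * ψ.2 - ψ.1 * (-(v * ψ.2) / p), ?_⟩
  linear_combination (-ψ.2) * huv

lemma disj {p : ℕ} {ψ φ : ℤ × ℤ} (h : ¬ (p : ℤ) ∣ ψ.1 * φ.2 - φ.1 * ψ.2) :
    Disjoint (rt p ψ) (rt p φ) := by
  rw [disjoint_left]
  intro m h1 h2
  simp only [rt, mem_filter] at h1 h2
  apply h
  have := dvd_sub (h2.2.mul_left ψ.1) (h1.2.mul_left φ.1)
  rwa [show ψ.1 * (φ.1 * m + φ.2) - φ.1 * (ψ.1 * m + ψ.2) = ψ.1 * φ.2 - φ.1 * ψ.2 by ring] at this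

lemma pf_le {n k : ℕ} (h0 : n ≠ 0) (h : n ≤ 2 ^ k) : n.primeFactors.card ≤ k := by
  have h1 : 2 ^ n.primeFactors.card ≤ ∏ p ∈ n.primeFactors, p :=
    pow_card_le_prod _ _ _ (fun p hp => (Nat.prime_of_mem_primeFactors hp).two_le)
  have h2 : ∏ p ∈ n.primeFactors, p ≤ n :=
    Nat.le_of_dvd (Nat.pos_of_ne_zero h0) (Nat.prod_primeFactors_dvd n)
  exact (Nat.pow_le_pow_iff_right (by norm_num)).1 (h1.trans (h2.trans h))

lemma dt_ne {Z : ℕ} {Ψ : Finset (ℤ × ℤ)} (h : Adm Z Ψ) {ψ φ : ℤ × ℤ} (h1 : ψ ∈ Ψ) (h2 : φ ∈ Ψ) :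
    dt ψ φ ≠ 0 := by
  unfold dt
  split_ifs with e
  · exact (h.1 ψ h1).1
  · exact sub_ne_zero.2 (h.2 ψ h1 φ h2 e)

lemma dt_le {z : ℕ} {Ψ : Finset (ℤ × ℤ)} (h : Adm (2 ^ z) Ψ) {ψ φ : ℤ × ℤ} (h1 : ψ ∈ Ψ)
    (h2 : φ ∈ Ψ) : (dt ψ φ).natAbs ≤ 2 ^ (2 * z + 1) := by
  obtain ⟨-, -, a1, a2⟩ := h.1 ψ h1
  obtain ⟨-, -, b1, b2⟩ := h.1 φ h2
  have hZ : (1 : ℤ) ≤ ((2 ^ z : ℕ) : ℤ) := by exact_mod_cast Nat.one_le_two_pow
  have e : ((2 ^ (2 * z + 1) : ℕ) : ℤ) = 2 * (((2 ^ z : ℕ) : ℤ) * ((2 ^ z : ℕ) : ℤ)) := by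
    push_cast
    ring
  have key : |dt ψ φ| ≤ ((2 ^ (2 * z + 1) : ℕ) : ℤ) := by
    rw [e]
    generalize ((2 ^ z : ℕ) : ℤ) = Z at *
    unfold dt
    split_ifs
    · nlinarith
    · have c1 : |ψ.1 * φ.2| ≤ Z * Z := by
        rw [abs_mul]
        exact mul_le_mul a1 b2 (abs_nonneg _) (by linarith)
      have c2 : |φ.1 * ψ.2| ≤ Z * Z := by
        rw [abs_mul]
        exact mul_le_mul b1 a2 (abs_nonneg _) (by linarith)
      have := abs_sub (ψ.1 * φ.2) (φ.1 * ψ.2)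
      linarith
  rw [← Int.natCast_natAbs] at key
  exact_mod_cast key

end Rootx

open Rootx in
theorem root_st : RootSt := by
  intro z Ψ h
  refine ⟨(Ψ ×ˢ Ψ).biUnion (fun x => (dt x.1 x.2).natAbs.primeFactors), ?_, ?_⟩
  · refine card_biUnion_le.trans ?_
    refine (sum_le_card_nsmul _ _ (2 * z + 1) ?_).trans ?_
    · intro x hx
      rw [mem_product] at hx
      exact pf_le (Int.natAbs_ne_zero.2 (dt_ne h hx.1 hx.2)) (dt_le h hx.1 hx.2)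
    · rw [card_product, smul_eq_mul, sq]
  · intro p hp Φ hΦ
    rw [nuF_eq]
    constructor
    · refine card_biUnion_le.trans ?_
      refine (sum_le_card_nsmul _ _ 1 ?_).trans (by simp)
      intro ψ hψ
      exact rt_le hp (h.1 ψ (hΦ hψ)).2.1
    · intro hE
      have nd : ∀ ψ ∈ Φ, ∀ φ ∈ Φ, ¬ (p : ℤ) ∣ dt ψ φ := by
        intro ψ h1 φ h2 hd
        apply hE
        rw [mem_biUnion]
        refine ⟨(ψ, φ), mem_product.2 ⟨hΦ h1, hΦ h2⟩, ?_⟩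
        rw [Nat.mem_primeFactors]
        exact ⟨hp, Int.natCast_dvd.1 hd, Int.natAbs_ne_zero.2 (dt_ne h (hΦ h1) (hΦ h2))⟩
      rw [card_biUnion]
      · rw [card_eq_sum_ones Φ]
        refine sum_congr rfl ?_
        intro ψ hψ
        have a1 := rt_le hp (h.1 ψ (hΦ hψ)).2.1
        have a2 : (rt p ψ).Nonempty := by
          apply rt_ne hp
          have := nd ψ hψ ψ hψ
          simpa [dt] using this
        have := a2.card_pos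
        omega
      · intro ψ h1 φ h2 hne
        apply disj
        have := nd ψ h1 φ h2
        simpa [dt, hne] using this

end Pool.Agent.Lib.MP_be93de_nt.Hc
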