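import Pool.Agent.Lib.MP_be93de_nt.Hc.Defs

/-! The blocks of one level are chosen one after the other. -/

namespace Pool.Agent.Lib.MP_be93de_nt.Hc

open Finset Filter Pool.Agent.Lib.MP_be93de_nt.Hb

namespace Runx

noncomputable def cg (s : ℕ) (T : ℕ → ℕ) (P : Finset ℕ) (j : ℕ) (K : Finset ℕ) : ℝ :=
  one P (K.filter (· < T j)) * ∏ t ∈ K.filter (T (j + 1) ≤ ·), wt s t

theorem one_mem (A : Set ℕ) (K : Finset ℕ) : 0 ≤ one A K ∧ one A K ≤ 1 := by
  unfold one
  split_ifs <;> norm_num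

theorem one_empty (A : Set ℕ) : one A ∅ = 1 := by simp [one]

theorem cg_mem (s : ℕ) (T : ℕ → ℕ) (P : Finset ℕ) (j : ℕ) (K : Finset ℕ)
    (h : ∀ t ∈ K, 0 ≤ wt s t ∧ wt s t ≤ 1) : 0 ≤ cg s T P j K ∧ cg s T P j K ≤ 1 := by
  have h1 := one_mem P (K.filter (· < T j))
  have h2 : 0 ≤ ∏ t ∈ K.filter (T (j + 1) ≤ ·), wt s t :=
    prod_nonneg fun t ht => (h t (mem_filter.1 ht).1).1
  have h3 : ∏ t ∈ K.filter (T (j + 1) ≤ ·), wt s t ≤ 1 :=
    prod_le_one (fun t ht => (h t (mem_filter.1 ht).1).1) fun t ht => (h t (mem_filter.1 ht).1).2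
  exact ⟨mul_nonneg h1.1 h2, mul_le_one₀ h1.2 h2 h3⟩

theorem sum_Kj (T : ℕ → ℕ) (K : Finset ℕ) (n : ℕ) (h : ∀ j < n, T j ≤ T (j + 1)) :
    ∑ j ∈ range n, (Kj T j K).card ≤ (K.filter (· < T n)).card := by
  induction n with
  | zero => simp
  | succ n ih =>
    rw [sum_range_succ]
    have h1 := ih fun j hj => h j (by omega)
    have h2 := h n (by omega)
    have h3 : Disjoint (K.filter (· < T n)) (Kj T n K) :=
      disjoint_left.2 fun a ha hb => by
        have := (mem_filter.1 ha).2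
        have := (mem_filter.1 hb).2.1
        omega
    have h4 : K.filter (· < T n) ∪ Kj T n K ⊆ K.filter (· < T (n + 1)) := fun a ha => by
      rcases mem_union.1 ha with ha | ha
      · exact mem_filter.2 ⟨(mem_filter.1 ha).1, lt_of_lt_of_le (mem_filter.1 ha).2 h2⟩
      · exact mem_filter.2 ⟨(mem_filter.1 ha).1, (mem_filter.1 ha).2.2⟩
    have h5 := card_le_card h4
    rw [card_union_of_disjoint h3] at h5
    omega

theorem sum_cnt (T : ℕ → ℕ) (M : Finset ℕ) (K : ℕ → Finset ℕ) (n s : ℕ)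
    (h : ∀ j < n, T j ≤ T (j + 1)) (hK : ∀ m ∈ M, (K m).card ≤ s) :
    ∑ j ∈ range n, (M.filter fun m => (Kj T j (K m)).Nonempty).card ≤ s * M.card := by
  simp only [card_filter]
  rw [sum_comm, mul_comm, ← smul_eq_mul, ← sum_const]
  refine sum_le_sum fun m hm => ?_
  refine le_trans (sum_le_sum fun j _ => ?_)
    ((sum_Kj T (K m) n h).trans ((card_filter_le _ _).trans (hK m hm)))
  split_ifs with h1
  · exact card_pos.2 h1
  · exact Nat.zero_le _

theorem cnt_le (T : ℕ → ℕ) (M : Finset ℕ) (K : ℕ → Finset ℕ) (j s y : ℕ)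
    (h : T (j + 1) ≤ T j + y) (hK : ∀ t, (M.filter fun m => t ∈ K m).card ≤ s) :
    (M.filter fun m => (Kj T j (K m)).Nonempty).card ≤ y * s := by
  have h1 : (M.filter fun m => (Kj T j (K m)).Nonempty) ⊆
      (Ico (T j) (T (j + 1))).biUnion fun t => M.filter fun m => t ∈ K m := fun m hm => by
    obtain ⟨hm, t, ht⟩ := mem_filter.1 hm
    obtain ⟨h1, h2⟩ := mem_filter.1 ht
    exact mem_biUnion.2 ⟨t, mem_Ico.2 h2, mem_filter.2 ⟨hm, h1⟩⟩
  refine (card_le_card h1).trans ((card_biUnion_le_card_mul _ _ s fun t _ => hK t).trans ?_)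
  rw [Nat.card_Ico]
  exact Nat.mul_le_mul_right _ (by omega)

theorem grow : ∀ᶠ s : ℕ in atTop, 1 ≤ s ∧ 3 * (s : ℝ) * ((s : ℝ) ^ 12 + 1) ≤ 4 ^ s := by
  have h := tendsto_pow_const_div_const_pow_of_one_lt 13 (r := 4) (by norm_num)
  filter_upwards [h.eventually_le_const (show (0 : ℝ) < 1 / 6 by norm_num),
    eventually_ge_atTop 1] with s h1 h2
  refine ⟨h2, ?_⟩
  rw [div_le_iff₀ (by positivity)] at h1
  have h3 : (1 : ℝ) ≤ s := by exact_mod_cast h2
  have h4 : (1 : ℝ) ≤ (s : ℝ) ^ 12 := one_le_pow₀ h3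
  have h5 : (s : ℝ) ^ 13 = s * (s : ℝ) ^ 12 := by ring
  nlinarith

theorem log_le (s N : ℕ) (h0 : 0 < N) (h : N ≤ 2 ^ (s ^ 12)) :
    Real.log (2 * (N : ℝ)) ≤ (s : ℝ) ^ 12 + 1 := by
  have h1 : (2 * (N : ℝ)) ≤ 2 ^ (s ^ 12 + 1) := by
    have : (N : ℝ) ≤ 2 ^ (s ^ 12) := by exact_mod_cast h
    rw [pow_succ]
    linarith
  have h2 : (0 : ℝ) < N := by exact_mod_cast h0
  refine (Real.log_le_log (by positivity) h1).trans ?_
  rw [Real.log_pow]
  have h3 : Real.log 2 ≤ 1 := by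
    have := Real.log_two_lt_d9
    linarith
  push_cast
  exact mul_le_of_le_one_right (by positivity) h3

end Runx

open Runx in
theorem run_st (h1 : PotSt) (h2 : Block2St) (h3 : WtSt) : RunSt := by
  filter_upwards [h2, h3, grow] with s hB hW hg
  intro r ι I Mi K γ T hI hK hn t0 t1 gap
  obtain ⟨hs, hg⟩ := hg
  have hs' : (1 : ℝ) ≤ s := by exact_mod_cast hs
  have hmono : ∀ j < nc s, T j ≤ T (j + 1) := fun j hj => le_trans (Nat.le_add_right _ _) (gap j hj).1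
  have hX : ∀ j, j < nc s → X s ≤ T j := fun j => by
    induction j with
    | zero => exact fun _ => t0.ge
    | succ j ih => exact fun hj => (ih (by omega)).trans (hmono j (by omega))
  have hw : ∀ τ ∈ I, ∀ m ∈ Mi τ, ∀ t ∈ K τ m, 0 ≤ wt s t ∧ wt s t ≤ 1 := fun τ hτ m hm t ht => by
    have := hW.1 t (mem_Ico.1 ((hK τ hτ m hm).2.1 ht)).1
    exact ⟨this.1, this.2.trans (div_le_one_of_le₀ (one_le_pow₀ hs') (by positivity))⟩
  have hY : (0 : ℝ) < Y s := by
    unfold Y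
    positivity
  obtain ⟨Cb, hCb⟩ : ∃ Cb : ℝ, Cb = 3 * Y s * s := ⟨_, rfl⟩
  have hC0 : 0 < Cb := by
    rw [hCb]
    positivity
  have hlam : 1 / 2 ^ s / Cb * Cb = 1 / 2 ^ s := div_mul_cancel₀ _ hC0.ne'
  obtain ⟨st, inc, s0, hst, hfin⟩ := h1 ι (Finset ℕ × ℕ) I
    (fun j τ => if j < nc s then
      (((Mi τ).filter fun m => (Kj T j (K τ m)).Nonempty).card : ℝ) else 0)
    Cb (1 / 2 ^ s / Cb)
    (fun j a a' e => ∃ (B : Finset ℕ) (ν : Finset ℕ → ℝ), (j < nc s →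
      B ⊆ Ico (T j + 3) (T (j + 1)) ∧ B.Nonempty ∧ Good (SS s) (r + a.2) B ∧ ν ∅ = 1 ∧
        (∀ L, 0 ≤ ν L ∧ ν L ≤ 1) ∧ (∀ L ⊆ Ico (T j + 3 * R s + 3) (T (j + 1)), L.card ≤ s →
          |ν L - ∏ t ∈ L, wt s t| ≤ 2 / 2 ^ s) ∧
        ∀ τ, e τ = ∑ m ∈ Mi τ, γ τ m * cg s T a.1 j (K τ m) *
          (one B (Kj T j (K τ m)) - ν (Kj T j (K τ m)))) ∧ a' = (a.1 ∪ B, a.2 + B.card))
    (∅, 0) (by positivity)
    (by
      rw [hlam]
      exact div_le_one_of_le₀ (one_le_pow₀ (by norm_num)) (by positivity))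
    (fun j τ hτ => by
      split_ifs with hj
      · refine ⟨Nat.cast_nonneg _, ?_⟩
        rw [hCb]
        exact_mod_cast cnt_le T (Mi τ) (K τ) j s (3 * Y s) (gap j hj).2 (hn τ hτ)
      · exact ⟨le_rfl, hC0.le⟩)
    (fun j a d => by
      by_cases hj : j < nc s
      · obtain ⟨w0, w1, w2⟩ := hW.2 (T j) (hX j hj)
        obtain ⟨B, ν, b1, b2, b3, b4, b5, b6, b7⟩ := hB (T j) (T (j + 1)) (r + a.2) _
          (Σ _ : ι, ℕ) (I.sigma Mi) (fun x => Kj T j (K x.1 x.2))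
          (fun x => d x.1 * (γ x.1 x.2 * cg s T a.1 j (K x.1 x.2))) (gap j hj).1 (gap j hj).2 w0 w1
        refine ⟨_, fun τ => ∑ m ∈ Mi τ, γ τ m * cg s T a.1 j (K τ m) *
          (one B (Kj T j (K τ m)) - ν (Kj T j (K τ m))),
          ⟨B, ν, fun _ => ⟨b1, b2, b3, b5, b6, fun L hL hc => ?_, fun _ => rfl⟩, rfl⟩, ?_,
          fun τ hτ => ?_⟩
        · have e1 := abs_le.1 (b7 L hL hc)
          have e2 := abs_le.1 (w2 L (fun t ht => by
            have := mem_Ico.1 (hL ht)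
            have := (gap j hj).2
            exact mem_Ico.2 ⟨by omega, by omega⟩) hc)
          have e3 : (2 : ℝ) / 2 ^ s = 1 / 2 ^ s + 1 / 2 ^ s := by ring
          rw [e3]
          exact abs_le.2 ⟨by linarith [e1.1, e2.1], by linarith [e1.2, e2.2]⟩
        · rw [sum_sigma] at b4
          refine le_trans (le_of_eq (sum_congr rfl fun τ _ => ?_)) b4
          rw [mul_sum]
          exact sum_congr rfl fun m _ => by ring
        · rw [if_pos hj, card_filter]
          push_cast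
          refine (abs_sum_le_sum_abs _ _).trans (sum_le_sum fun m hm => ?_)
          split_ifs with hne
          · have c1 := cg_mem s T a.1 j (K τ m) (hw τ hτ m hm)
            have c2 := (hK τ hτ m hm).2.2
            have c3 := one_mem B (Kj T j (K τ m))
            have c4 := b6 (Kj T j (K τ m))
            rw [abs_mul, abs_of_nonneg (mul_nonneg c2.1 c1.1)]
            exact mul_le_one₀ (mul_le_one₀ c2.2 c1.1 c1.2) (abs_nonneg _)
              (abs_le.2 ⟨by linarith [c3.1, c4.2], by linarith [c3.2, c4.1]⟩)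
          · rw [not_nonempty_iff_eq_empty.1 hne, one_empty, b5]
            simp
      · exact ⟨_, fun _ => 0, ⟨∅, fun _ => 0, fun h => absurd h hj, rfl⟩, by simp,
          fun τ _ => by simp [hj]⟩)
  choose B ν hQ hnext using hst
  have hstate : ∀ j, st j = ((range j).biUnion B, ∑ i ∈ range j, (B i).card) := fun j => by
    induction j with
    | zero => simpa using s0
    | succ j ih =>
      rw [hnext j, ih, sum_range_succ, range_add_one, biUnion_insert, union_comm]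
  refine ⟨B, ν, ⟨t0, t1, gap, fun j hj => (hQ j hj).1, fun j hj => (hQ j hj).2.1, fun j hj => ?_⟩,
    fun j hj => ⟨(hQ j hj).2.2.2.1, (hQ j hj).2.2.2.2.1, (hQ j hj).2.2.2.2.2.1⟩, fun τ hτ => ?_⟩
  · have := (hQ j hj).2.2.1
    rwa [hstate j] at this
  · have e : ∑ j ∈ range (nc s), ∑ m ∈ Mi τ, γ τ m * cf s T B j (K τ m) *
        (one (B j) (Kj T j (K τ m)) - ν j (Kj T j (K τ m))) = ∑ j ∈ range (nc s), inc j τ :=
      sum_congr rfl fun j hj => by
        rw [(hQ j (mem_range.1 hj)).2.2.2.2.2.2 τ, hstate j]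
        rfl
    rw [e]
    refine (hfin τ hτ (nc s)).trans (add_le_add ?_ ?_)
    · rw [hlam, sum_congr rfl fun j hj => if_pos (mem_range.1 hj), one_div_mul_eq_div]
      refine div_le_div_of_nonneg_right ?_ (by positivity)
      exact_mod_cast sum_cnt T (Mi τ) (K τ) (nc s) s hmono fun m hm => (hK τ hτ m hm).1
    · have h4 := log_le s I.card (card_pos.2 ⟨τ, hτ⟩) hI
      have e1 : Real.log (2 * (I.card : ℝ)) / (1 / 2 ^ s / Cb) =
          Real.log (2 * (I.card : ℝ)) * (Cb * 2 ^ s) := by field_simp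
      have e2 : (2 : ℝ) ^ (s ^ 8 + 3 * s) = 4 ^ s * (Y s * 2 ^ s) := by
        unfold Y
        push_cast
        rw [show (4 : ℝ) = 2 ^ 2 by norm_num, ← pow_mul, ← pow_add, ← pow_add]
        congr 1
        ring
      rw [e1, e2]
      calc _ ≤ ((s : ℝ) ^ 12 + 1) * (Cb * 2 ^ s) := mul_le_mul_of_nonneg_right h4 (by positivity)
        _ = 3 * (s : ℝ) * ((s : ℝ) ^ 12 + 1) * (Y s * 2 ^ s) := by rw [hCb]; ring
        _ ≤ _ := mul_le_mul_of_nonneg_right hg (by positivity)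

end Pool.Agent.Lib.MP_be93de_nt.Hc
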