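import Pool.Agent.Lib.MP_be93de_nt.Hc.Defs

/-! The sieve count for two levels at once. -/

namespace Pool.Agent.Lib.MP_be93de_nt.Hc

open Finset Filter Pool.Agent.Lib.MP_be93de_nt.Hb

namespace Sievex

/-- classes mod `p` on which some form vanishes -/
def rts (Ψ : Finset (ℤ × ℤ)) (p : ℕ) : Finset ℕ :=
  (range p).filter (fun m : ℕ => ∃ ψ ∈ Ψ, (p : ℤ) ∣ ψ.1 * m + ψ.2)

lemma card_rts (Ψ : Finset (ℤ × ℤ)) (p : ℕ) : (rts Ψ p).card = nuF Ψ p := rfl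

lemma nuF_le (Ψ : Finset (ℤ × ℤ)) (p : ℕ) : nuF Ψ p ≤ p := by
  unfold nuF
  exact (card_filter_le _ _).trans (by simp)

lemma mem_pr {a b p : ℕ} : p ∈ pr a b ↔ a < p ∧ p ≤ b ∧ p.Prime := by
  simp [pr, and_assoc]

lemma dvd_val {ψ : ℤ × ℤ} {m p : ℕ} (h : 0 ≤ ψ.1 * m + ψ.2) :
    p ∣ val ψ m ↔ (p : ℤ) ∣ ψ.1 * ((m % p : ℕ) : ℤ) + ψ.2 := by
  unfold val
  rw [← Int.natCast_dvd_natCast, Int.toNat_of_nonneg h]
  have e : (m : ℤ) = p * ((m / p : ℕ) : ℤ) + ((m % p : ℕ) : ℤ) := by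
    exact_mod_cast (Nat.div_add_mod m p).symm
  have e2 : ψ.1 * m + ψ.2 = (ψ.1 * ((m % p : ℕ) : ℤ) + ψ.2) + p * (ψ.1 * ((m / p : ℕ) : ℤ)) := by
    conv_lhs => rw [e]
    ring
  rw [e2]
  exact dvd_add_left (dvd_mul_right _ _)

lemma mod_mem {Ψ : Finset (ℤ × ℤ)} {m p : ℕ} (hp : 0 < p) (h : ∀ ψ ∈ Ψ, 0 ≤ ψ.1 * m + ψ.2) :
    m % p ∉ rts Ψ p ↔ ∀ ψ ∈ Ψ, ¬ p ∣ val ψ m := by
  unfold rts
  rw [mem_filter, mem_range]
  constructor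
  · intro hn ψ hψ hd
    exact hn ⟨Nat.mod_lt _ hp, ψ, hψ, (dvd_val (h ψ hψ)).1 hd⟩
  · rintro hn ⟨-, ψ, hψ, hd⟩
    exact hn ψ hψ ((dvd_val (h ψ hψ)).2 hd)

/-- the sifted classes -/
def Om (Ψ Φ : Finset (ℤ × ℤ)) (w p : ℕ) : Finset ℕ := if p ≤ w then rts Ψ p else rts Φ p

lemma cond_iff {Ψ Φ : Finset (ℤ × ℤ)} (hs : Φ ⊆ Ψ) {w1 w2 m : ℕ} (hw : w1 ≤ w2)
    (h : ∀ ψ ∈ Ψ, 0 ≤ ψ.1 * m + ψ.2) :
    ((∀ ψ ∈ Ψ, Free 0 w1 (val ψ m)) ∧ ∀ ψ ∈ Φ, Free 0 w2 (val ψ m)) ↔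
      ∀ p ∈ pr 0 w2, m % p ∉ Om Ψ Φ w1 p := by
  have h' : ∀ ψ ∈ Φ, 0 ≤ ψ.1 * m + ψ.2 := fun ψ hψ => h ψ (hs hψ)
  constructor
  · rintro ⟨h1, h2⟩ p hp
    obtain ⟨p0, -, pp⟩ := mem_pr.1 hp
    unfold Om
    split_ifs with hc
    · exact (mod_mem p0 h).2 fun ψ hψ => h1 ψ hψ p (mem_pr.2 ⟨p0, hc, pp⟩)
    · exact (mod_mem p0 h').2 fun ψ hψ => h2 ψ hψ p hp
  · intro H
    refine ⟨fun ψ hψ p hp => ?_, fun ψ hψ p hp => ?_⟩
    · obtain ⟨p0, pw, pp⟩ := mem_pr.1 hp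
      have := H p (mem_pr.2 ⟨p0, pw.trans hw, pp⟩)
      unfold Om at this
      rw [if_pos pw] at this
      exact (mod_mem p0 h).1 this ψ hψ
    · obtain ⟨p0, pw, pp⟩ := mem_pr.1 hp
      have := H p hp
      unfold Om at this
      split_ifs at this with hc
      · exact (mod_mem p0 h).1 this ψ (hs hψ)
      · exact (mod_mem p0 h').1 this ψ hψ

lemma prod_split {w1 w2 : ℕ} (hw : w1 ≤ w2) (f : ℕ → ℝ) :
    ∏ p ∈ pr 0 w2, f p = (∏ p ∈ pr 0 w1, f p) * ∏ p ∈ pr w1 w2, f p := by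
  rw [← prod_union]
  · congr 1
    ext p
    simp only [mem_union, mem_pr]
    constructor
    · rintro ⟨a, b, c⟩
      by_cases h : p ≤ w1
      · exact Or.inl ⟨a, h, c⟩
      · exact Or.inr ⟨by omega, b, c⟩
    · rintro (⟨a, b, c⟩ | ⟨a, b, c⟩)
      · exact ⟨a, b.trans hw, c⟩
      · exact ⟨by omega, b, c⟩
  · rw [disjoint_left]
    intro p h1 h2
    have := mem_pr.1 h1
    have := mem_pr.1 h2
    omega

lemma card_pr (w : ℕ) : (pr 0 w).card ≤ w := by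
  unfold pr
  exact (card_filter_le _ _).trans (by simp)

lemma num1 (s : ℕ) (hs : 40 ≤ s) (B : ℝ) (h0 : 0 ≤ B) (hB : B ≤ 5 * (s : ℝ) ^ 2) :
    2 * B ^ (s ^ 3) / ((s ^ 3).factorial : ℝ) ≤ 1 / (4 * 3 ^ s) := by
  have h1 : (2 * B) ^ (s ^ 3) / ((s ^ 3).factorial : ℝ) ≤ Real.exp (2 * B) :=
    Real.pow_div_factorial_le_exp _ (by linarith) _
  have h2 : Real.exp (2 * B) ≤ 2 ^ (20 * s ^ 2) := by
    have e1 : Real.exp 1 ≤ 4 := by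
      have := Real.exp_one_lt_d9
      linarith
    calc Real.exp (2 * B) ≤ Real.exp ((10 * s ^ 2 : ℕ) * 1) := by
          apply Real.exp_le_exp.2
          push_cast
          linarith
      _ = Real.exp 1 ^ (10 * s ^ 2) := Real.exp_nat_mul _ _
      _ ≤ 4 ^ (10 * s ^ 2) := by gcongr
      _ = 2 ^ (20 * s ^ 2) := by
          rw [show (4 : ℝ) = 2 ^ 2 by norm_num, ← pow_mul]
          congr 1
          ring
  have h3 : (8 : ℝ) * 3 ^ s ≤ 2 ^ (3 + 2 * s) := by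
    rw [pow_add, pow_mul]
    have : (3 : ℝ) ^ s ≤ (2 ^ 2) ^ s := by
      gcongr
      norm_num
    norm_num at this ⊢
    exact this
  have h4 : 3 + 2 * s + 20 * s ^ 2 ≤ s ^ 3 := by
    have a1 : 40 * s ^ 2 ≤ s ^ 3 := by
      calc 40 * s ^ 2 ≤ s * s ^ 2 := Nat.mul_le_mul_right _ hs
        _ = s ^ 3 := by ring
    have a2 : 40 * s ≤ s ^ 2 := by
      calc 40 * s ≤ s * s := Nat.mul_le_mul_right _ hs
        _ = s ^ 2 := by ring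
    omega
  have h5 : (8 : ℝ) * 3 ^ s * 2 ^ (20 * s ^ 2) ≤ 2 ^ (s ^ 3) := by
    calc (8 : ℝ) * 3 ^ s * 2 ^ (20 * s ^ 2) ≤ 2 ^ (3 + 2 * s) * 2 ^ (20 * s ^ 2) := by gcongr
      _ = 2 ^ (3 + 2 * s + 20 * s ^ 2) := (pow_add _ _ _).symm
      _ ≤ 2 ^ (s ^ 3) := pow_le_pow_right₀ (by norm_num) h4
  have hf : (0 : ℝ) < ((s ^ 3).factorial : ℝ) := by positivity
  set q : ℝ := B ^ (s ^ 3) / ((s ^ 3).factorial : ℝ) with hq
  have q0 : 0 ≤ q := by positivity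
  have h6 : (2 : ℝ) ^ (s ^ 3) * q ≤ 2 ^ (20 * s ^ 2) := by
    have : (2 * B) ^ (s ^ 3) / ((s ^ 3).factorial : ℝ) = 2 ^ (s ^ 3) * q := by
      rw [mul_pow, hq, mul_div_assoc]
    rw [← this]
    exact h1.trans h2
  have h7 : (8 * 3 ^ s * q) * 2 ^ (20 * s ^ 2) ≤ 1 * (2 : ℝ) ^ (20 * s ^ 2) := by
    calc (8 * 3 ^ s * q) * 2 ^ (20 * s ^ 2) = (8 * 3 ^ s * 2 ^ (20 * s ^ 2)) * q := by ring
      _ ≤ 2 ^ (s ^ 3) * q := by gcongr
      _ ≤ _ := by rw [one_mul]; exact h6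
  have h8 : 8 * 3 ^ s * q ≤ 1 := le_of_mul_le_mul_right h7 (by positivity)
  rw [mul_div_assoc, ← hq, le_div_iff₀ (by positivity)]
  linarith

lemma num2 (s : ℕ) (hs : 6 ≤ s) (B : ℝ) (h0 : 0 ≤ B) (hB : B ≤ 2 ^ (2 * (2 * s)) * s) :
    (1 + B) ^ (s ^ 3) ≤ 2 ^ (s ^ 5) := by
  have a1 : (s : ℝ) + 1 ≤ 2 ^ s := by
    have : s + 1 ≤ 2 ^ s := Nat.lt_two_pow_self
    exact_mod_cast this
  have a2 : (1 : ℝ) ≤ 2 ^ (2 * (2 * s)) := one_le_pow₀ (by norm_num)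
  have a3 : 1 + B ≤ 2 ^ (5 * s) := by
    calc 1 + B ≤ 2 ^ (2 * (2 * s)) * ((s : ℝ) + 1) := by linarith
      _ ≤ 2 ^ (2 * (2 * s)) * 2 ^ s := by gcongr
      _ = 2 ^ (5 * s) := by
          rw [← pow_add]
          congr 1
          ring
  have a4 : 5 * s * s ^ 3 ≤ s ^ 5 := by
    calc 5 * s * s ^ 3 = 5 * s ^ 4 := by ring
      _ ≤ s * s ^ 4 := Nat.mul_le_mul_right _ (by omega)
      _ = s ^ 5 := by ring
  calc (1 + B) ^ (s ^ 3) ≤ (2 ^ (5 * s)) ^ (s ^ 3) := by gcongr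
    _ = 2 ^ (5 * s * s ^ 3) := (pow_mul _ _ _).symm
    _ ≤ 2 ^ (s ^ 5) := pow_le_pow_right₀ (by norm_num) a4

lemma num3 : ∀ᶠ s : ℕ in atTop,
    2 * (s : ℝ) * ((s : ℝ) ^ 2 * (2 * (4 * (s : ℝ)) ^ 10 + 1)) / 2 ^ (2 * s) ≤ 1 / (8 * 3 ^ s) := by
  have h := tendsto_pow_const_div_const_pow_of_one_lt 13 (r := (4 / 3 : ℝ)) (by norm_num)
  have h2 := h.eventually (ge_mem_nhds (show (0 : ℝ) < 1 / (48 * 4 ^ 10) by positivity))
  filter_upwards [h2, eventually_ge_atTop 1] with s hs h1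
  have s1 : (1 : ℝ) ≤ s := by exact_mod_cast h1
  rw [div_pow, div_div_eq_mul_div, div_le_div_iff₀ (by positivity) (by positivity)] at hs
  rw [pow_mul, show (2 : ℝ) ^ 2 = 4 by norm_num, div_le_div_iff₀ (by positivity) (by positivity)]
  have a1 : (1 : ℝ) ≤ (4 * (s : ℝ)) ^ 10 := one_le_pow₀ (by linarith)
  calc 2 * (s : ℝ) * ((s : ℝ) ^ 2 * (2 * (4 * (s : ℝ)) ^ 10 + 1)) * (8 * 3 ^ s)
      ≤ 2 * (s : ℝ) * ((s : ℝ) ^ 2 * (2 * (4 * (s : ℝ)) ^ 10 + (4 * (s : ℝ)) ^ 10)) *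
          (8 * 3 ^ s) := by gcongr
    _ = (s : ℝ) ^ 13 * 3 ^ s * (48 * 4 ^ 10) := by ring
    _ ≤ _ := hs

lemma main_term {P1 r a c ε : ℝ} (h0 : 0 ≤ P1) (h1 : P1 ≤ 1) (c0 : 0 ≤ c) (c1 : c ≤ 1)
    (hr : |r - 1| ≤ ε) (ha : |a - P1| ≤ ε) : |P1 * (c * r) - a * c| ≤ 2 * ε := by
  have e0 : 0 ≤ ε := (abs_nonneg _).trans hr
  have e : P1 * (c * r) - a * c = c * (P1 * (r - 1) - (a - P1)) := by ring
  rw [e, abs_mul, abs_of_nonneg c0]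
  have b1 : |P1 * (r - 1)| ≤ ε := by
    rw [abs_mul, abs_of_nonneg h0]
    calc P1 * |r - 1| ≤ 1 * ε := by gcongr
      _ = ε := one_mul _
  have b2 : |P1 * (r - 1) - (a - P1)| ≤ 2 * ε := (abs_sub _ _).trans (by linarith)
  calc c * |P1 * (r - 1) - (a - P1)| ≤ 1 * (2 * ε) := by gcongr
    _ = 2 * ε := one_mul _

end Sievex

open Sievex in
theorem sieve_st (h1 : MertSt) (h2 : BonfSt) (h3 : RootSt) (h4 : TailSt) (h5 : Sing2St) :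
    SieveSt := by
  unfold SieveSt
  filter_upwards [h5, num3, eventually_ge_atTop 40] with s hsing hnum hs
  intro Ψ Φ S u v hA hk hΦ hS huv hpos
  obtain ⟨Exc, hE, hR⟩ := h3 ((4 * s) ^ 10) Ψ hA
  obtain ⟨-, hS1⟩ := (hsing Ψ hA hk).2 S hS
  set w1 : ℕ := 2 ^ (2 * s) with hw1
  set w2 : ℕ := 2 ^ (2 * (2 * s)) with hw2
  have hw : w1 ≤ w2 := Nat.pow_le_pow_right (by norm_num) (by omega)
  have sR : (40 : ℝ) ≤ s := by exact_mod_cast hs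
  have kΦ : Φ.card ≤ s := (card_le_card hΦ).trans hk
  have hcard : ∀ p ∈ pr 0 w2, ((Om Ψ Φ w1 p).card : ℝ) ≤ s := by
    intro p hp
    have pp := (mem_pr.1 hp).2.2
    have : (Om Ψ Φ w1 p).card ≤ s := by
      unfold Om
      split_ifs
      · exact (hR p pp Ψ (Subset.refl _)).1.trans hk
      · exact (hR p pp Φ hΦ).1.trans kΦ
    exact_mod_cast this
  have hb := h2 (pr 0 w2) (Om Ψ Φ w1) u (v - u) (s ^ 3) (fun p hp => (mem_pr.1 hp).2.2)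
    (fun p _ => by
      unfold Om rts
      split_ifs <;> exact filter_subset _ _)
  rw [Nat.add_sub_cancel' huv, Nat.cast_sub huv] at hb
  have L0 : (0 : ℝ) ≤ (v : ℝ) - u := by
    have : (u : ℝ) ≤ v := by exact_mod_cast huv
    linarith
  set L : ℝ := (v : ℝ) - u with hL
  have b1 : ∑ p ∈ pr 0 w2, ((Om Ψ Φ w1 p).card : ℝ) / p ≤ 5 * (s : ℝ) ^ 2 := by
    have m1 := h1.2.1 0 w2
    have l1 : Real.log w2 ≤ 4 * s := by
      rw [hw2]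
      push_cast
      rw [Real.log_pow]
      push_cast
      have := Real.log_two_lt_d9
      nlinarith
    have l0 : 0 ≤ Real.log w2 := Real.log_natCast_nonneg _
    have l2 : Real.log (1 + Real.log w2) ≤ 4 * s := by
      have := Real.log_le_sub_one_of_pos (show 0 < 1 + Real.log w2 by linarith)
      linarith
    calc ∑ p ∈ pr 0 w2, ((Om Ψ Φ w1 p).card : ℝ) / p ≤ ∑ p ∈ pr 0 w2, (s : ℝ) * (1 / p) := by
          refine sum_le_sum fun p hp => ?_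
          rw [mul_one_div]
          exact div_le_div_of_nonneg_right (hcard p hp) (Nat.cast_nonneg p)
      _ = s * ∑ p ∈ pr 0 w2, 1 / (p : ℝ) := (mul_sum _ _ _).symm
      _ ≤ s * (4 * s + 38) := by
          gcongr
          linarith
      _ ≤ 5 * (s : ℝ) ^ 2 := by nlinarith
  have b2 : ∑ p ∈ pr 0 w2, ((Om Ψ Φ w1 p).card : ℝ) ≤ 2 ^ (2 * (2 * s)) * s := by
    have c1 : ((pr 0 w2).card : ℝ) ≤ 2 ^ (2 * (2 * s)) := by
      have := card_pr w2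
      rw [hw2] at this ⊢
      exact_mod_cast this
    calc ∑ p ∈ pr 0 w2, ((Om Ψ Φ w1 p).card : ℝ) ≤ (pr 0 w2).card • (s : ℝ) :=
          sum_le_card_nsmul _ _ _ hcard
      _ = (pr 0 w2).card * (s : ℝ) := nsmul_eq_mul _ _
      _ ≤ _ := by gcongr
  have n1 := num1 s hs _ (sum_nonneg fun p _ => by positivity) b1
  have n2 := num2 s (by omega) _ (sum_nonneg fun p _ => by positivity) b2
  have hb' : |(((Ico u v).filter (fun m => ∀ p ∈ pr 0 w2, m % p ∉ Om Ψ Φ w1 p)).card : ℝ) -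
      L * ∏ p ∈ pr 0 w2, (1 - ((Om Ψ Φ w1 p).card : ℝ) / p)| ≤
      L * (1 / (4 * 3 ^ s)) + 2 ^ (s ^ 5) := by
    refine hb.trans (add_le_add ?_ n2)
    calc 2 * L * (∑ p ∈ pr 0 w2, ((Om Ψ Φ w1 p).card : ℝ) / p) ^ (s ^ 3) / ((s ^ 3).factorial : ℝ)
        = L * (2 * (∑ p ∈ pr 0 w2, ((Om Ψ Φ w1 p).card : ℝ) / p) ^ (s ^ 3) /
            ((s ^ 3).factorial : ℝ)) := by ring
      _ ≤ _ := mul_le_mul_of_nonneg_left n1 L0
  have sw : s ≤ w1 := by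
    have : s < 2 ^ s := Nat.lt_two_pow_self
    exact this.le.trans (Nat.pow_le_pow_right (by norm_num) (by omega))
  obtain ⟨t1, t2⟩ := h4 (pr w1 w2) Exc (nuF Φ) Φ.card w1 (by omega) (kΦ.trans sw)
    (fun p hp => (mem_pr.1 hp).1) (fun p hp => (hR p (mem_pr.1 hp).2.2 Φ hΦ).1)
    (fun p hp => (hR p (mem_pr.1 hp).2.2 Φ hΦ).2)
  set ρ : ℝ := ∏ p ∈ pr w1 w2, (1 - (nuF Φ p : ℝ) / p) / (1 - 1 / (p : ℝ)) ^ Φ.card with hρ
  have w1R : (w1 : ℝ) = 2 ^ (2 * s) := by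
    rw [hw1]
    push_cast
    rfl
  have kR : (Φ.card : ℝ) ≤ s := by exact_mod_cast kΦ
  have eR : (Exc.card : ℝ) ≤ (s : ℝ) ^ 2 * (2 * (4 * (s : ℝ)) ^ 10 + 1) := by
    have : Exc.card ≤ s ^ 2 * (2 * (4 * s) ^ 10 + 1) :=
      hE.trans (Nat.mul_le_mul_right _ (Nat.pow_le_pow_left hk 2))
    exact_mod_cast this
  have e3 : (1 : ℝ) ≤ 3 ^ s := one_le_pow₀ (by norm_num)
  have half : (1 : ℝ) / (4 * 3 ^ s) = 2 * (1 / (8 * 3 ^ s)) := by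
    field_simp
    norm_num
  have hr : |ρ - 1| ≤ 1 / (4 * 3 ^ s) := by
    set x : ℝ := 2 * (s : ℝ) * ((s : ℝ) ^ 2 * (2 * (4 * (s : ℝ)) ^ 10 + 1)) / 2 ^ (2 * s) with hx
    have x0 : 0 ≤ x := by positivity
    have x1 : x ≤ 1 := hnum.trans (by
      rw [div_le_one (by positivity)]
      linarith)
    have u1 : ρ ≤ Real.exp x := by
      refine t2.trans (Real.exp_le_exp.2 ?_)
      rw [w1R, hx]
      gcongr
    have u2 : Real.exp x - 1 ≤ 2 * x := by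
      have := Real.abs_exp_sub_one_le (x := x) (by rw [abs_of_nonneg x0]; exact x1)
      rw [abs_of_nonneg x0] at this
      exact (le_abs_self _).trans this
    have u3 : (Φ.card : ℝ) ^ 2 / w1 ≤ x := by
      rw [w1R, hx]
      gcongr
      have a1 : (0 : ℝ) ≤ (4 * (s : ℝ)) ^ 10 := by positivity
      have a2 : (Φ.card : ℝ) ^ 2 ≤ (s : ℝ) ^ 2 := by gcongr
      have a3 : (s : ℝ) ^ 2 * 1 ≤ (s : ℝ) ^ 2 * (2 * (4 * (s : ℝ)) ^ 10 + 1) := by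
        gcongr
        linarith
      calc (Φ.card : ℝ) ^ 2 ≤ 1 * ((s : ℝ) ^ 2 * (2 * (4 * (s : ℝ)) ^ 10 + 1)) := by linarith
        _ ≤ _ := by
          gcongr
          linarith
    rw [abs_le, half]
    constructor <;> linarith
  have hP : ∏ p ∈ pr 0 w2, (1 - ((Om Ψ Φ w1 p).card : ℝ) / p) =
      (∏ p ∈ pr 0 w1, (1 - (nuF Ψ p : ℝ) / p)) * (th w1 w2 ^ Φ.card * ρ) := by
    rw [prod_split hw]
    congr 1
    · refine prod_congr rfl fun p hp => ?_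
      unfold Om
      rw [if_pos (mem_pr.1 hp).2.1, card_rts]
    · rw [hρ, th, ← prod_pow, ← prod_mul_distrib]
      refine prod_congr rfl fun p hp => ?_
      obtain ⟨a, -, pp⟩ := mem_pr.1 hp
      unfold Om
      rw [if_neg (by omega), card_rts]
      have p2 : (2 : ℝ) ≤ p := by exact_mod_cast pp.two_le
      have : (0 : ℝ) < 1 - 1 / (p : ℝ) := by
        have : 1 / (p : ℝ) ≤ 1 / 2 := by gcongr
        linarith
      rw [mul_div_cancel₀ _ (pow_pos this _).ne']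
  have hT : S * th 0 w1 ^ (Ψ \ Φ).card * th 0 w2 ^ Φ.card =
      S * th 0 w1 ^ Ψ.card * th w1 w2 ^ Φ.card := by
    have e1 : th 0 w2 = th 0 w1 * th w1 w2 := prod_split hw _
    have e2 : Ψ.card = (Ψ \ Φ).card + Φ.card := (card_sdiff_add_card_eq_card hΦ).symm
    rw [e1, mul_pow]
    conv_rhs => rw [e2, pow_add]
    ring
  have f01 : ∀ p ∈ pr 0 w1, 0 ≤ 1 - (nuF Ψ p : ℝ) / p ∧ 1 - (nuF Ψ p : ℝ) / p ≤ 1 := by
    intro p hp
    have p0 : (0 : ℝ) < p := by exact_mod_cast (mem_pr.1 hp).1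
    have a1 : (nuF Ψ p : ℝ) ≤ p := by exact_mod_cast nuF_le Ψ p
    have a2 : (nuF Ψ p : ℝ) / p ≤ 1 := (div_le_one p0).2 a1
    have a3 : 0 ≤ (nuF Ψ p : ℝ) / p := by positivity
    constructor <;> linarith
  have hm := main_term (prod_nonneg fun p hp => (f01 p hp).1)
    (prod_le_one (fun p hp => (f01 p hp).1) fun p hp => (f01 p hp).2)
    (pow_nonneg (h1.1 w1 w2).1.le Φ.card) (pow_le_one₀ (h1.1 w1 w2).1.le (h1.1 w1 w2).2) hr hS1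
  rw [← hP, ← hT] at hm
  rw [filter_congr (fun m hm => cond_iff hΦ hw (hpos m hm))]
  set N : ℝ := (((Ico u v).filter (fun m => ∀ p ∈ pr 0 w2, m % p ∉ Om Ψ Φ w1 p)).card : ℝ)
  set P : ℝ := ∏ p ∈ pr 0 w2, (1 - ((Om Ψ Φ w1 p).card : ℝ) / p)
  set T : ℝ := S * th 0 w1 ^ (Ψ \ Φ).card * th 0 w2 ^ Φ.card
  have g1 : |L * P - L * T| ≤ L * (2 * (1 / (4 * 3 ^ s))) := by
    rw [← mul_sub, abs_mul, abs_of_nonneg L0]
    exact mul_le_mul_of_nonneg_left hm L0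
  have g2 : L / 3 ^ s = 4 * (L * (1 / (4 * 3 ^ s))) := by field_simp
  have g3 : 0 ≤ L * (1 / (4 * 3 ^ s)) := by positivity
  have g4 := abs_sub_le N (L * P) (L * T)
  rw [g2]
  linarith

end Pool.Agent.Lib.MP_be93de_nt.Hc
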