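import Pool.Agent.Lib.MP_be93de_nt.Hc.Defs

/-! The singular series of a system exists and is close to its truncation. -/

namespace Pool.Agent.Lib.MP_be93de_nt.Hc

open Finset Filter Topology Pool.Agent.Lib.MP_be93de_nt.Hb

namespace Sing2x

theorem mem_pr {a b p : ℕ} : p ∈ pr a b ↔ a < p ∧ p ≤ b ∧ p.Prime := by
  simp [pr, and_assoc]

theorem th_pos (a b : ℕ) : 0 < th a b := by
  refine prod_pos fun p hp => sub_pos.2 ?_
  have : (1 : ℝ) < p := by exact_mod_cast (mem_pr.1 hp).2.2.one_lt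
  exact (div_lt_one (by linarith)).2 this

theorem split {w n : ℕ} (h : w ≤ n) (f : ℕ → ℝ) :
    ∏ p ∈ (range (n + 1)).filter Nat.Prime, f p = (∏ p ∈ pr 0 w, f p) * ∏ p ∈ pr w n, f p := by
  rw [← prod_union (disjoint_left.2 fun p h1 h2 => by
    have := mem_pr.1 h1; have := mem_pr.1 h2; omega)]
  refine prod_congr ?_ fun _ _ => rfl
  ext p
  simp only [mem_filter, mem_range, mem_union, mem_pr]
  constructor
  · rintro ⟨h1, h2⟩
    have := h2.pos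
    rcases le_or_gt p w with h3 | h3
    exacts [Or.inl ⟨this, h3, h2⟩, Or.inr ⟨h3, by omega, h2⟩]
  · rintro (⟨-, h1, h2⟩ | ⟨-, h1, h2⟩)
    exacts [⟨by omega, h2⟩, ⟨by omega, h2⟩]

theorem fac_mem (Ψ : Finset (ℤ × ℤ)) {p : ℕ} (hp : 0 < p) :
    0 ≤ 1 - (nuF Ψ p : ℝ) / p ∧ 1 - (nuF Ψ p : ℝ) / p ≤ 1 := by
  have h1 : nuF Ψ p ≤ p := (card_filter_le _ _).trans (card_range p).le
  have h2 : (nuF Ψ p : ℝ) ≤ p := by exact_mod_cast h1
  have h3 : (0 : ℝ) < p := by exact_mod_cast hp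
  exact ⟨sub_nonneg.2 ((div_le_one h3).2 h2), sub_le_self _ (by positivity)⟩

theorem grow : ∀ᶠ s : ℕ in atTop, 1 ≤ s ∧
    2 * (s : ℝ) * ((s : ℝ) ^ 2 * (2 * (4 * s) ^ 10 + 1)) / 2 ^ (2 * s) ≤ 1 / (8 * 3 ^ s) := by
  have h := tendsto_pow_const_div_const_pow_of_one_lt 13 (r := 4 / 3) (by norm_num)
  filter_upwards [h.eventually_le_const
    (show (0 : ℝ) < 1 / (16 * (2 * 4 ^ 10 + 1)) by norm_num), eventually_ge_atTop 1] with s h1 h2
  refine ⟨h2, ?_⟩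
  have h3 : (1 : ℝ) ≤ s := by exact_mod_cast h2
  have h4 : (s : ℝ) ^ 3 ≤ (s : ℝ) ^ 13 := pow_le_pow_right₀ h3 (by norm_num)
  rw [div_le_iff₀ (by positivity)] at h1
  have e : (2 : ℝ) ^ (2 * s) = (4 / 3) ^ s * 3 ^ s := by
    rw [← mul_pow, pow_mul]
    norm_num
  rw [e, div_le_div_iff₀ (by positivity) (by positivity)]
  have h5 : 2 * (s : ℝ) * ((s : ℝ) ^ 2 * (2 * (4 * s) ^ 10 + 1)) * 8 ≤ (4 / 3) ^ s := by
    have e2 : 2 * (s : ℝ) * ((s : ℝ) ^ 2 * (2 * (4 * s) ^ 10 + 1)) * 8 =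
        16 * (2 * 4 ^ 10) * (s : ℝ) ^ 13 + 16 * (s : ℝ) ^ 3 := by ring
    rw [e2]
    linarith
  calc _ = 2 * (s : ℝ) * ((s : ℝ) ^ 2 * (2 * (4 * s) ^ 10 + 1)) * 8 * 3 ^ s := by ring
    _ ≤ (4 / 3) ^ s * 3 ^ s := mul_le_mul_of_nonneg_right h5 (by positivity)
    _ = _ := (one_mul _).symm

end Sing2x

open Sing2x in
theorem sing2_st (h1 : RootSt) (h2 : TailSt) : Sing2St := by
  filter_upwards [grow] with s hg
  intro Ψ hA hk
  obtain ⟨hs, hg⟩ := hg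
  obtain ⟨Exc, hE, hn⟩ := h1 ((4 * s) ^ 10) Ψ hA
  obtain ⟨w, hw⟩ : ∃ w : ℕ, w = 2 ^ (2 * s) := ⟨_, rfl⟩
  rw [← hw]
  have w3 : s * s ≤ w := by
    rw [hw, two_mul, pow_add]
    exact Nat.mul_le_mul Nat.lt_two_pow_self.le Nat.lt_two_pow_self.le
  have w0 : 1 ≤ w := le_trans (Nat.mul_le_mul hs hs) w3
  have w2 : Ψ.card ≤ w := hk.trans (le_trans (Nat.le_mul_self s) w3)
  have hle : ∀ a b, ∀ p ∈ pr a b, nuF Ψ p ≤ Ψ.card := fun a b p hp =>
    (hn p (mem_pr.1 hp).2.2 Ψ Subset.rfl).1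
  have heq : ∀ a b, ∀ p ∈ pr a b, p ∉ Exc → nuF Ψ p = Ψ.card := fun a b p hp =>
    (hn p (mem_pr.1 hp).2.2 Ψ Subset.rfl).2
  obtain ⟨f, hf⟩ : ∃ f : ℕ → ℝ,
      f = fun p => (1 - (nuF Ψ p : ℝ) / p) / (1 - 1 / (p : ℝ)) ^ Ψ.card := ⟨_, rfl⟩
  have hS : ∀ S, IsSF Ψ S ↔
      Tendsto (fun N : ℕ => ∏ p ∈ (range (N + 1)).filter Nat.Prime, f p) atTop (𝓝 S) := fun S => by
    rw [hf]
    exact (tendsto_add_atTop_iff_nat 1).symm
  have f0 : ∀ p : ℕ, p.Prime → 0 ≤ f p := fun p hp => by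
    rw [hf]
    have : (1 : ℝ) < p := by exact_mod_cast hp.one_lt
    exact div_nonneg (fac_mem Ψ hp.pos).1
      (pow_nonneg (sub_nonneg.2 ((div_le_one (by linarith)).2 this.le)) _)
  refine ⟨?_, fun S hS' => ?_⟩
  · obtain ⟨M, hM⟩ : ∃ M : ℕ, M = w + Exc.sup id := ⟨_, rfl⟩
    have anti : Antitone fun n => ∏ p ∈ pr M n, f p := by
      intro a b hab
      have hsub : pr M a ⊆ pr M b := fun p hp => by
        obtain ⟨h1, h2, h3⟩ := mem_pr.1 hp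
        exact mem_pr.2 ⟨h1, h2.trans hab, h3⟩
      have h3 := (h2 (pr M b \ pr M a) ∅ (nuF Ψ) Ψ.card w w0 w2
        (fun p hp => by have := (mem_pr.1 (mem_sdiff.1 hp).1).1; omega)
        (fun p hp => hle _ _ p (mem_sdiff.1 hp).1)
        (fun p hp _ => heq _ _ p (mem_sdiff.1 hp).1 fun hx => by
          have h4 : p ≤ Exc.sup id := le_sup (f := id) hx
          have := (mem_pr.1 (mem_sdiff.1 hp).1).1
          omega)).2
      simp only [card_empty, Nat.cast_zero, mul_zero, zero_div, Real.exp_zero] at h3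
      show ∏ p ∈ pr M b, f p ≤ ∏ p ∈ pr M a, f p
      rw [← prod_sdiff hsub]
      refine mul_le_of_le_one_left (prod_nonneg fun p hp => f0 p (mem_pr.1 hp).2.2) ?_
      rw [hf]
      exact h3
    have h3 := (tendsto_atTop_ciInf anti ⟨0, by
      rintro _ ⟨n, rfl⟩
      exact prod_nonneg fun p hp => f0 p (mem_pr.1 hp).2.2⟩).const_mul (∏ p ∈ pr 0 M, f p)
    refine ⟨_, (hS _).2 (h3.congr' ?_)⟩
    filter_upwards [eventually_ge_atTop M] with n hn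
    exact (split hn f).symm
  · have hth : 0 < th 0 w ^ Ψ.card := pow_pos (th_pos 0 w) _
    obtain ⟨Pw, hPw⟩ : ∃ Pw, Pw = ∏ p ∈ pr 0 w, (1 - (nuF Ψ p : ℝ) / p) := ⟨_, rfl⟩
    rw [← hPw]
    have P0 : 0 ≤ Pw := hPw ▸ prod_nonneg fun p hp => (fac_mem Ψ (mem_pr.1 hp).1).1
    have P1 : Pw ≤ 1 := hPw ▸ prod_le_one (fun p hp => (fac_mem Ψ (mem_pr.1 hp).1).1)
      fun p hp => (fac_mem Ψ (mem_pr.1 hp).1).2
    have h3 := (hS S).1 hS'
    refine ⟨ge_of_tendsto' h3 fun n => prod_nonneg fun p hp => f0 p (mem_filter.1 hp).2, ?_⟩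
    have h4 : Tendsto (fun n => Pw * ∏ p ∈ pr w n, f p) atTop (𝓝 (S * th 0 w ^ Ψ.card)) := by
      refine (h3.mul_const (th 0 w ^ Ψ.card)).congr' ?_
      filter_upwards [eventually_ge_atTop w] with n hn
      have e : ∏ p ∈ pr 0 w, f p = Pw / th 0 w ^ Ψ.card := by
        rw [hf, hPw, prod_div_distrib, prod_pow]
        rfl
      rw [split hn f, e]
      field_simp
    have hk' : (Ψ.card : ℝ) ≤ s := by exact_mod_cast hk
    have hs' : (1 : ℝ) ≤ s := by exact_mod_cast hs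
    have hw' : (w : ℝ) = 2 ^ (2 * s) := by rw [hw]; push_cast; rfl
    have hE' : (Exc.card : ℝ) ≤ (s : ℝ) ^ 2 * (2 * (4 * s) ^ 10 + 1) := by
      have : (Exc.card : ℝ) ≤ (Ψ.card : ℝ) ^ 2 * (2 * (4 * s) ^ 10 + 1) := by exact_mod_cast hE
      refine this.trans ?_
      gcongr
    have a1 : 2 * (Ψ.card : ℝ) * Exc.card / w ≤ 1 / (8 * 3 ^ s) := by
      refine le_trans ?_ hg
      rw [hw']
      gcongr
    have a2 : (Ψ.card : ℝ) ^ 2 / w ≤ 1 / (8 * 3 ^ s) := by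
      refine le_trans ?_ hg
      rw [hw']
      refine div_le_div_of_nonneg_right ?_ (by positivity)
      have b1 : (Ψ.card : ℝ) ^ 2 ≤ (s : ℝ) ^ 2 := by gcongr
      have b2 : (s : ℝ) ^ 2 ≤ (s : ℝ) ^ 2 * (2 * (4 * s) ^ 10 + 1) :=
        le_mul_of_one_le_right (by positivity) (le_add_of_nonneg_left (by positivity))
      have b3 : 0 ≤ (s : ℝ) ^ 2 * (2 * (4 * s) ^ 10 + 1) := by positivity
      nlinarith
    have a0 : 0 ≤ 2 * (Ψ.card : ℝ) * Exc.card / w := by positivity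
    have a3 : (1 : ℝ) / (8 * 3 ^ s) ≤ 1 :=
      div_le_one_of_le₀ (by have : (1 : ℝ) ≤ 3 ^ s := one_le_pow₀ (by norm_num); linarith)
        (by positivity)
    have a4 := Real.abs_exp_sub_one_le (x := 2 * (Ψ.card : ℝ) * Exc.card / w)
      (by rw [abs_of_nonneg a0]; linarith)
    rw [abs_of_nonneg a0] at a4
    have a5 : (1 : ℝ) / (4 * 3 ^ s) = 2 * (1 / (8 * 3 ^ s)) := by ring
    have a6 : (0 : ℝ) ≤ 1 / (8 * 3 ^ s) := by positivity
    have key : ∀ n, |Pw * ∏ p ∈ pr w n, f p - Pw| ≤ 1 / (4 * 3 ^ s) := fun n => by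
      have hT := h2 (pr w n) Exc (nuF Ψ) Ψ.card w w0 w2 (fun p hp => (mem_pr.1 hp).1)
        (hle _ _) (heq _ _)
      have hT' : |∏ p ∈ pr w n, f p - 1| ≤ 1 / (4 * 3 ^ s) := by
        rw [hf]
        exact abs_le.2 ⟨by linarith [hT.1], by linarith [hT.2, (abs_le.1 a4).2]⟩
      rw [← mul_sub_one, abs_mul, abs_of_nonneg P0]
      exact (mul_le_of_le_one_left (abs_nonneg _) P1).trans hT'
    exact le_of_tendsto' (h4.sub_const Pw).abs key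

end Pool.Agent.Lib.MP_be93de_nt.Hc
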