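import Pool.Agent.Lib.MP_be93de_nt.Hc.Defs

namespace Pool.Agent.Lib.MP_be93de_nt.Hc

open Finset Filter Pool.Agent.Lib.MP_be93de_nt.Hb

theorem tail_st (h : FacSt) : TailSt := by
  intro Q Exc n k y hy hk hQ hn hE
  have hy1 : (1 : ℝ) ≤ y := by exact_mod_cast hy
  have hy0 : (0 : ℝ) < y := by linarith
  have hp : ∀ p ∈ Q, (y : ℝ) + 1 ≤ p := fun p hp => by exact_mod_cast hQ p hp
  have hpos : ∀ p ∈ Q, (0 : ℝ) < p := fun p h => by linarith [hp p h]
  have hden : ∀ p ∈ Q, (0 : ℝ) < 1 - 1 / (p : ℝ) := fun p h => by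
    rw [sub_pos, div_lt_one (hpos p h)]
    linarith [hp p h]
  have gen : ∀ p ∈ Q, 0 ≤ (1 - (k : ℝ) / p) / (1 - 1 / (p : ℝ)) ^ k ∧
      (1 - (k : ℝ) / p) / (1 - 1 / (p : ℝ)) ^ k ≤ 1 := fun p hp => by
    have := (h {p} k y hy hk (fun q hq => by rw [mem_singleton.1 hq]; exact hQ p hp)).2
    simpa only [prod_singleton] using this
  have cmp : ∀ p ∈ Q, (1 - (k : ℝ) / p) / (1 - 1 / (p : ℝ)) ^ k ≤
      (1 - (n p : ℝ) / p) / (1 - 1 / (p : ℝ)) ^ k := fun p hp => by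
    refine div_le_div_of_nonneg_right ?_ (pow_pos (hden p hp) k).le
    have h1 : (n p : ℝ) ≤ k := by exact_mod_cast hn p hp
    have h2 := div_le_div_of_nonneg_right h1 (hpos p hp).le
    linarith
  refine ⟨(h Q k y hy hk hQ).1.trans (prod_le_prod (fun p hp => (gen p hp).1) cmp), ?_⟩
  have e1 : 1 ≤ Real.exp (2 / y) ^ k := one_le_pow₀ (Real.one_le_exp (by positivity))
  have up : ∀ p ∈ Q, (1 - (n p : ℝ) / p) / (1 - 1 / (p : ℝ)) ^ k ≤
      if p ∈ Exc then Real.exp (2 / y) ^ k else 1 := by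
    intro p hpQ
    split_ifs with hx
    · rw [div_le_iff₀ (pow_pos (hden p hpQ) k), ← mul_pow]
      have h1 : (0 : ℝ) ≤ (n p : ℝ) / p := by positivity
      have h2 : 2 / (y : ℝ) + 1 ≤ Real.exp (2 / y) := Real.add_one_le_exp _
      have h3 : 1 / (p : ℝ) ≤ 1 / ((y : ℝ) + 1) :=
        one_div_le_one_div_of_le (by linarith) (hp p hpQ)
      have h4 : (2 / (y : ℝ) + 1) * (1 - 1 / ((y : ℝ) + 1)) = 1 + 1 / ((y : ℝ) + 1) := by
        field_simp
        ring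
      have h5 : (0 : ℝ) ≤ 1 / ((y : ℝ) + 1) := by positivity
      have h6 : (0 : ℝ) ≤ 2 / (y : ℝ) + 1 := by positivity
      have h7 : 1 ≤ Real.exp (2 / y) * (1 - 1 / (p : ℝ)) :=
        calc (1 : ℝ) ≤ (2 / (y : ℝ) + 1) * (1 - 1 / ((y : ℝ) + 1)) := by rw [h4]; linarith
          _ ≤ (2 / (y : ℝ) + 1) * (1 - 1 / (p : ℝ)) :=
            mul_le_mul_of_nonneg_left (by linarith) h6
          _ ≤ _ := mul_le_mul_of_nonneg_right h2 (hden p hpQ).le
      exact le_trans (by linarith) (one_le_pow₀ h7)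
    · rw [hE p hpQ hx]
      exact (gen p hpQ).2
  calc _ ≤ ∏ p ∈ Q, (if p ∈ Exc then Real.exp (2 / y) ^ k else 1) :=
        prod_le_prod (fun p hp => (gen p hp).1.trans (cmp p hp)) up
    _ = (Real.exp (2 / y) ^ k) ^ (Q.filter (· ∈ Exc)).card := by
        rw [prod_ite, prod_const, prod_const_one, mul_one]
    _ ≤ (Real.exp (2 / y) ^ k) ^ Exc.card :=
        pow_le_pow_right₀ e1 (card_le_card fun p hp => (mem_filter.1 hp).2)
    _ = _ := by
        rw [← Real.exp_nat_mul, ← Real.exp_nat_mul]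
        congr 1
        ring

end Pool.Agent.Lib.MP_be93de_nt.Hc
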