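import Pool.Agent.Lib.MP_be93de_nt.Hc.Defs

namespace Pool.Agent.Lib.MP_be93de_nt.Hc

open Finset Filter Pool.Agent.Lib.MP_be93de_nt.Hb

namespace Telex

theorem one_empty (A : Set ℕ) : one A ∅ = 1 := by simp [one]

theorem one_split (A : Set ℕ) (K : Finset ℕ) (y : ℕ) :
    one A (K.filter (· < y)) * one A (K.filter (y ≤ ·)) = one A K := by
  unfold one
  by_cases h : ∀ t ∈ K, t ∈ A
  · rw [if_pos h, if_pos fun t ht => h t (mem_filter.1 ht).1,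
      if_pos fun t ht => h t (mem_filter.1 ht).1, one_mul]
  · rw [if_neg h]
    by_cases h1 : ∀ t ∈ K.filter (· < y), t ∈ A
    · rw [if_neg (c := ∀ t ∈ K.filter (y ≤ ·), t ∈ A), mul_zero]
      intro h2
      refine h fun t ht => ?_
      rcases lt_or_ge t y with h3 | h3
      · exact h1 t (mem_filter.2 ⟨ht, h3⟩)
      · exact h2 t (mem_filter.2 ⟨ht, h3⟩)
    · rw [if_neg h1, zero_mul]

theorem step (s : ℕ) (A : Set ℕ) (K : Finset ℕ) (h1 : X s ≤ X (2 * s))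
    (h2 : X (2 * s) ≤ X (2 * (2 * s))) (hK : ∀ t ∈ K, X s ≤ t ∧ t < X (2 * (2 * s))) :
    gam s A K * (one A (inS s K) - ∏ t ∈ inS s K, wt s t) +
      gam (2 * s) A K * (one A (inS (2 * s) K) - ∏ t ∈ inS (2 * s) K, wt (2 * s) t) =
      one A K - ∏ t ∈ K, wt2 s t := by
  have e1 : inS s K = K.filter (· < X (2 * s)) :=
    filter_congr fun t ht => ⟨fun h => h.2, fun h => ⟨(hK t ht).1, h⟩⟩
  have e2 : inS (2 * s) K = K.filter (X (2 * s) ≤ ·) :=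
    filter_congr fun t ht => ⟨fun h => h.1, fun h => ⟨h, (hK t ht).2⟩⟩
  have e3 : K.filter (· < X s) = ∅ := filter_eq_empty_iff.2 fun t ht => not_lt.2 (hK t ht).1
  have e4 : K.filter (X (2 * (2 * s)) ≤ ·) = ∅ :=
    filter_eq_empty_iff.2 fun t ht => not_le.2 (hK t ht).2
  have e5 : ∏ t ∈ K, wt2 s t = (∏ t ∈ K.filter (· < X (2 * s)), wt s t) *
      ∏ t ∈ K.filter (X (2 * s) ≤ ·), wt (2 * s) t := by
    unfold wt2
    rw [prod_ite]
    simp only [not_lt]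
  unfold gam
  rw [e1, e2, e3, e4, e5, one_empty, prod_empty, ← one_split A K (X (2 * s))]
  ring

theorem bad_card (Ψ : Finset (ℤ × ℤ)) (M : Finset ℕ)
    (h : ∀ m ∈ M, ∀ ψ ∈ Ψ, 0 ≤ ψ.1 * m + ψ.2) (B : Finset ℕ) (hB : B ⊆ M)
    (hb : ∀ m ∈ B, ¬ Set.InjOn (fun ψ => val ψ m) Ψ) : B.card ≤ Ψ.card ^ 2 := by
  have key : ∀ m ∈ B, ∃ z : (ℤ × ℤ) × ℤ × ℤ, z ∈ Ψ ×ˢ Ψ ∧ z.1 ≠ z.2 ∧
      z.1.1 * m + z.1.2 = z.2.1 * m + z.2.2 := by
    intro m hm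
    by_contra hc
    refine hb m hm fun ψ hψ φ hφ e => ?_
    by_contra hne
    refine hc ⟨(ψ, φ), mem_product.2 ⟨hψ, hφ⟩, hne, ?_⟩
    have a1 := Int.toNat_of_nonneg (h m (hB hm) ψ hψ)
    have a2 := Int.toNat_of_nonneg (h m (hB hm) φ hφ)
    have a3 : (ψ.1 * m + ψ.2).toNat = (φ.1 * m + φ.2).toNat := e
    rw [← a1, ← a2, a3]
  choose! f hf using key
  rw [sq, ← card_product]
  refine card_le_card_of_injOn f (fun m hm => (hf m hm).1) fun m hm m' hm' e => ?_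
  obtain ⟨-, n1, a1⟩ := hf m hm
  obtain ⟨-, -, a2⟩ := hf m' hm'
  rw [← e] at a2
  by_contra hne
  have a3 : ((f m).1.1 - (f m).2.1) * ((m : ℤ) - m') = 0 := by linarith
  have a4 : (m : ℤ) - m' ≠ 0 := sub_ne_zero.2 (by exact_mod_cast hne)
  have a5 : (f m).1.1 = (f m).2.1 := sub_eq_zero.1 ((mul_eq_zero.1 a3).resolve_right a4)
  rw [a5] at a1
  exact n1 (Prod.ext a5 (add_left_cancel a1))

theorem X_mono {a b : ℕ} (h : a ≤ b) : X a ≤ X b :=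
  Nat.pow_le_pow_right (by norm_num) (Nat.pow_le_pow_left h 10)

end Telex

open Telex in
theorem tele_st (h : WtSt) : TeleSt := by
  classical
  have h2 := (tendsto_atTop_mono (f := id) (g := fun s : ℕ => 2 * s)
    (fun s => by simp only [id]; omega) tendsto_id).eventually h
  filter_upwards [h, h2, eventually_ge_atTop 1] with s w1 w2 hs A Ψ u v H1 H2 hA hc huv hv hm
  have hs1 : (1 : ℝ) ≤ s := by exact_mod_cast hs
  have e4 : 2 * (2 * s) = 4 * s := by ring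
  have x1 : X (4 * s) ≤ X (4 * (2 * s)) := X_mono (by omega)
  have x1' : ((X (4 * s) : ℕ) : ℤ) ≤ (X (4 * (2 * s)) : ℕ) := by exact_mod_cast x1
  have a1 := H1 Ψ u v hA hc huv hv
  have a2 := H2 Ψ u v ⟨fun ψ hψ => ⟨(hA.1 ψ hψ).1, (hA.1 ψ hψ).2.1,
    (hA.1 ψ hψ).2.2.1.trans x1', (hA.1 ψ hψ).2.2.2.trans x1'⟩, hA.2⟩ (by omega) huv (by omega)
  have hval : ∀ m ∈ Ico u v, ∀ ψ ∈ Ψ, X s ≤ val ψ m ∧ val ψ m < X (2 * (2 * s)) := by
    intro m hm' ψ hψ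
    obtain ⟨b1, b2⟩ := hm m hm' ψ hψ
    rw [e4]
    unfold val
    omega
  have hK : ∀ m ∈ Ico u v, ∀ t ∈ Kall Ψ m, X s ≤ t ∧ t < X (2 * (2 * s)) := by
    intro m hm' t ht
    obtain ⟨ψ, hψ, rfl⟩ := mem_image.1 ht
    exact hval m hm' ψ hψ
  have hw : ∀ t, X s ≤ t → 0 ≤ wt2 s t ∧ wt2 s t ≤ 1 := by
    intro t ht
    unfold wt2
    split_ifs with h3
    · exact ⟨(w1.1 t ht).1, (w1.1 t ht).2.trans
        (div_le_one_of_le₀ (one_le_pow₀ hs1) (by positivity))⟩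
    · refine ⟨(w2.1 t (not_lt.1 h3)).1, (w2.1 t (not_lt.1 h3)).2.trans
        (div_le_one_of_le₀ (one_le_pow₀ ?_) (by positivity))⟩
      push_cast
      linarith
  have c1 : (((Ico u v).filter (fun m : ℕ => ∀ ψ ∈ Ψ, (ψ.1 * m + ψ.2).toNat ∈ A)).card : ℝ) =
      ∑ m ∈ Ico u v, one A (Kall Ψ m) := by
    rw [card_filter]
    push_cast
    refine sum_congr rfl fun m _ => ?_
    unfold one Kall
    simp only [forall_mem_image, val]
  have c2 := sum_congr (s₁ := Ico u v) rfl fun m hm' =>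
    step s A (Kall Ψ m) (X_mono (by omega)) (X_mono (by omega)) (hK m hm')
  rw [sum_add_distrib, sum_sub_distrib] at c2
  have c3 : |∑ m ∈ Ico u v, ∏ t ∈ Kall Ψ m, wt2 s t - ∑ m ∈ Ico u v, ∏ ψ ∈ Ψ, wt2 s (val ψ m)| ≤
      (s : ℝ) ^ 2 := by
    rw [← sum_sub_distrib]
    refine (abs_sum_le_sum_abs _ _).trans ?_
    have b1 := bad_card Ψ (Ico u v) (fun m hm' ψ hψ => (Int.natCast_nonneg _).trans (hm m hm' ψ hψ).1)
      ((Ico u v).filter fun m => ¬ Set.InjOn (fun ψ => val ψ m) Ψ) (filter_subset _ _)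
      fun m hm' => (mem_filter.1 hm').2
    have b2 : (((Ico u v).filter fun m => ¬ Set.InjOn (fun ψ => val ψ m) Ψ).card : ℝ) ≤
        (s : ℝ) ^ 2 := by exact_mod_cast b1.trans (Nat.pow_le_pow_left hc 2)
    refine le_trans ?_ b2
    rw [card_filter]
    push_cast
    refine sum_le_sum fun m hm' => ?_
    by_cases hi : Set.InjOn (fun ψ => val ψ m) Ψ
    · rw [if_neg (not_not.2 hi), Kall, prod_image hi, sub_self, abs_zero]
    · rw [if_pos hi]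
      have p1 : 0 ≤ ∏ t ∈ Kall Ψ m, wt2 s t := prod_nonneg fun t ht => (hw t (hK m hm' t ht).1).1
      have p2 : ∏ t ∈ Kall Ψ m, wt2 s t ≤ 1 := prod_le_one
        (fun t ht => (hw t (hK m hm' t ht).1).1) fun t ht => (hw t (hK m hm' t ht).1).2
      have p3 : 0 ≤ ∏ ψ ∈ Ψ, wt2 s (val ψ m) :=
        prod_nonneg fun ψ hψ => (hw _ (hval m hm' ψ hψ).1).1
      have p4 : ∏ ψ ∈ Ψ, wt2 s (val ψ m) ≤ 1 := prod_le_one
        (fun ψ hψ => (hw _ (hval m hm' ψ hψ).1).1) fun ψ hψ => (hw _ (hval m hm' ψ hψ).1).2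
      rw [abs_le]
      constructor <;> linarith
  have n1 : s ^ 8 ≤ (2 * s) ^ 8 := Nat.pow_le_pow_left (by omega) 8
  have n2 : s ^ 2 ≤ s ^ 8 := Nat.pow_le_pow_right hs (by norm_num)
  have d1 : (2 : ℝ) ^ (2 * s ^ 8) ≤ 2 ^ (2 * (2 * s) ^ 8) :=
    pow_le_pow_right₀ (by norm_num) (by omega)
  have d2 : (s : ℝ) ^ 2 ≤ 2 ^ (2 * (2 * s) ^ 8) := by
    have : s ^ 2 ≤ 2 ^ (2 * (2 * s) ^ 8) :=
      Nat.lt_two_pow_self.le.trans (Nat.pow_le_pow_right (by norm_num) (by omega))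
    exact_mod_cast this
  have d3 : ((v : ℝ) - u) * (2 / 3) ^ (2 * s) ≤ ((v : ℝ) - u) * (2 / 3) ^ s :=
    mul_le_mul_of_nonneg_left (pow_le_pow_of_le_one (by norm_num) (by norm_num) (by omega))
      (sub_nonneg.2 (by exact_mod_cast huv))
  rw [abs_le] at a1 a2 c3
  refine abs_le.2 ⟨?_, ?_⟩
  · linarith [a1.1, a2.1, c3.1]
  · linarith [a1.2, a2.2, c3.2]

end Pool.Agent.Lib.MP_be93de_nt.Hc
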