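import Pool.Agent.Lib.MP_be93de_nt.Hc.Defs

namespace Pool.Agent.Lib.MP_be93de_nt.Hc

open Finset Pool.Agent.Lib.MP_be93de_nt.Hb

namespace Union2x

theorem big {s : ℕ} (hs : 1 ≤ s) : X s ≤ nc s := by
  have h1 : s ^ 8 ≤ s ^ 10 := Nat.pow_le_pow_right hs (by norm_num)
  have h2 : 1 ≤ s ^ 10 := Nat.one_le_pow _ _ hs
  have h3 : (2 * s) ^ 10 = 1024 * s ^ 10 := by ring
  have h4 : 1 ≤ Y s := Nat.one_le_two_pow
  have h5 : X s * Y s * 2 * 2 ≤ X (2 * s) := by
    unfold X Y
    rw [← pow_add, ← pow_succ, ← pow_succ]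
    exact Nat.pow_le_pow_right (by norm_num) (by omega)
  have h6 : X s ≤ X s * Y s := Nat.le_mul_of_pos_right _ h4
  unfold nc
  rw [Nat.le_div_iff_mul_le (by omega)]
  have h7 : X s * (2 * Y s) = X s * Y s * 2 := by ring
  omega

variable {s r : ℕ} {T : ℕ → ℕ} {B : ℕ → Finset ℕ}

theorem T_mono (h : Blk s r T B) {i j : ℕ} (hij : i ≤ j) (hj : j ≤ nc s) : T i ≤ T j := by
  induction j, hij using Nat.le_induction with
  | base => exact le_rfl
  | succ k hk ih =>
    have h1 := ih (by omega)
    have h2 := (h.gap k (by omega)).1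
    omega

theorem lt_of_lt (h : Blk s r T B) {i j a b : ℕ} (hij : i < j) (hj : j < nc s) (ha : a ∈ B i)
    (hb : b ∈ B j) : a + 3 < b := by
  have h1 := (mem_Ico.mp (h.sub i (hij.trans hj) ha)).2
  have h2 := (mem_Ico.mp (h.sub j hj hb)).1
  have h3 := T_mono h (show i + 1 ≤ j from hij) hj.le
  omega

theorem card_un (h : Blk s r T B) {k : ℕ} (hk : k ≤ nc s) :
    ((range k).biUnion B).card = ∑ i ∈ range k, (B i).card := by
  refine card_biUnion fun i hi j hj hij => ?_
  have hi' : i < nc s := (mem_range.mp (mem_coe.mp hi)).trans_le hk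
  have hj' : j < nc s := (mem_range.mp (mem_coe.mp hj)).trans_le hk
  rw [Function.onFun, disjoint_left]
  intro a h1 h2
  rcases lt_or_gt_of_ne hij with c | c
  · have := lt_of_lt h c hj' h1 h2; omega
  · have := lt_of_lt h c hi' h2 h1; omega

end Union2x

theorem union2_st : Union2St := by
  intro s r T B hs h
  refine ⟨?_, ?_, ?_⟩
  · intro a ha
    obtain ⟨j, hj, haj⟩ := mem_biUnion.mp ha
    have hj' := mem_range.mp hj
    obtain ⟨k1, k2⟩ := mem_Ico.mp (h.sub j hj' haj)
    have k3 := Union2x.T_mono h (show j + 1 ≤ nc s from hj') le_rfl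
    have k4 := Union2x.T_mono h (Nat.zero_le j) hj'.le
    have k5 := h.t0
    have k6 := h.t1
    exact mem_Ico.mpr ⟨by omega, by omega⟩
  · intro a ha ha2
    obtain ⟨j, hj, haj⟩ := mem_biUnion.mp ha
    obtain ⟨j', hj2, haj'⟩ := mem_biUnion.mp ha2
    have hj' := mem_range.mp hj
    obtain rfl : j = j' := by
      rcases lt_trichotomy j j' with c | c | c
      · have := Union2x.lt_of_lt h c (mem_range.mp hj2) haj haj'; omega
      · exact c
      · have := Union2x.lt_of_lt h c hj' haj' haj; omega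
    have k := h.good j hj' a haj haj'
    have f : ((range (nc s)).biUnion B).filter (· ≤ a) =
        (range j).biUnion B ∪ (B j).filter (· ≤ a) := by
      ext b
      simp only [mem_filter, mem_biUnion, mem_union, mem_range]
      constructor
      · rintro ⟨⟨i, hi, hb⟩, hba⟩
        rcases lt_trichotomy i j with c | c | c
        · exact Or.inl ⟨i, c, hb⟩
        · exact Or.inr ⟨c ▸ hb, hba⟩
        · have := Union2x.lt_of_lt h c hi haj hb; omega
      · rintro (⟨i, c, hb⟩ | ⟨hb, hba⟩)
        · have := Union2x.lt_of_lt h c hj' hb haj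
          exact ⟨⟨i, c.trans hj', hb⟩, by omega⟩
        · exact ⟨⟨j, hj', hb⟩, hba⟩
    have d : Disjoint ((range j).biUnion B) ((B j).filter (· ≤ a)) := by
      rw [disjoint_left]
      intro b k1 k2
      obtain ⟨i, hi, hb⟩ := mem_biUnion.mp k1
      have := Union2x.lt_of_lt h (mem_range.mp hi) hj' hb (mem_filter.mp k2).1
      omega
    rw [f, card_union_of_disjoint d, Union2x.card_un h hj'.le, ← add_assoc]
    exact k
  · rw [Union2x.card_un h le_rfl]
    have k1 : ∑ _i ∈ range (nc s), 1 ≤ ∑ i ∈ range (nc s), (B i).card :=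
      sum_le_sum fun i hi => card_pos.mpr (h.ne i (mem_range.mp hi))
    rw [sum_const, card_range, smul_eq_mul, mul_one] at k1
    exact (Union2x.big hs).trans k1

end Pool.Agent.Lib.MP_be93de_nt.Hc
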