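import Pool.Agent.Lib.MP_be93de_nt.Hb.Mert
import Pool.Agent.Lib.MP_be93de_nt.Hb.Alt
import Pool.Agent.Lib.MP_be93de_nt.Hb.Crt
import Pool.Agent.Lib.MP_be93de_nt.Hb.Bonf
import Pool.Agent.Lib.MP_be93de_nt.Hb.Fac
import Pool.Agent.Lib.MP_be93de_nt.Hb.Rare
import Pool.Agent.Lib.MP_be93de_nt.Hb.BaseW
import Pool.Agent.Lib.MP_be93de_nt.Hb.Tilt
import Pool.Agent.Lib.MP_be93de_nt.Hb.Func
import Pool.Agent.Lib.MP_be93de_nt.Hb.Comb
import Pool.Agent.Lib.MP_be93de_nt.Hb.FreeC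
import Pool.Agent.Lib.MP_be93de_nt.Hc.Pot
import Pool.Agent.Lib.MP_be93de_nt.Hc.Tail
import Pool.Agent.Lib.MP_be93de_nt.Hc.Avg2
import Pool.Agent.Lib.MP_be93de_nt.Hc.Cells2
import Pool.Agent.Lib.MP_be93de_nt.Hc.Many
import Pool.Agent.Lib.MP_be93de_nt.Hc.Block2
import Pool.Agent.Lib.MP_be93de_nt.Hc.Wt
import Pool.Agent.Lib.MP_be93de_nt.Hc.Bound
import Pool.Agent.Lib.MP_be93de_nt.Hc.Union2
import Pool.Agent.Lib.MP_be93de_nt.Hc.Run
import Pool.Agent.Lib.MP_be93de_nt.Hc.Stage2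
import Pool.Agent.Lib.MP_be93de_nt.Hc.Level
import Pool.Agent.Lib.MP_be93de_nt.Hc.Glob2
import Pool.Agent.Lib.MP_be93de_nt.Hc.Root
import Pool.Agent.Lib.MP_be93de_nt.Hc.Sing2
import Pool.Agent.Lib.MP_be93de_nt.Hc.Sieve
import Pool.Agent.Lib.MP_be93de_nt.Hc.Mono
import Pool.Agent.Lib.MP_be93de_nt.Hc.Arith
import Pool.Agent.Lib.MP_be93de_nt.Hc.Tele
import Pool.Agent.Lib.MP_be93de_nt.Hc.Hl2
import Pool.Agent.Lib.MP_be93de_nt.Hc.Rank2
import Pool.Agent.Lib.MP_be93de_nt.Hc.Exc2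

/-! The model set, second version: assembly of the steps. -/

namespace Pool.Agent.Lib.MP_be93de_nt.Hc

open Pool.Agent.Lib.MP_be93de_nt.Hb

theorem main (mert : MertSt) (bonf : BonfSt) (fac : FacSt) (base : BaseSt) (tilt : TiltSt)
    (func : FuncSt) (comb : CombSt) (free : FreeSt) :
    ∃ (A : Set ℕ) (C : ℝ), A.Infinite ∧ Part3 A C ∧ Part2 A C := by
  have tail := tail_st fac
  have wt := wt_st mert
  have sing := sing2_st root_st tail
  have bl := block2_st mert cells2_st base tilt func comb (avg2_st mert bonf tail)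
    (many_st mert bonf)
  obtain ⟨i0, A, hA⟩ := glob2_st (level_st
    (stage2_st (run_st pot_st bl wt) (bound_st pot_st) union2_st wt) wt)
  obtain ⟨C1, p1, h1⟩ := hl2_st mert sing
    (arith_st mert (sieve_st mert bonf root_st tail sing) mono_st) (tele_st wt) i0 A hA
  obtain ⟨C2, p2, h2⟩ := exc2_st free rank2_st i0 A hA
  refine ⟨A, C1 + C2, (rank2_st i0 A hA).1, ?_, ?_⟩
  · intro x Ψ u v a b c d e f
    obtain ⟨S, hS, h⟩ := h1 x Ψ u v a b c d e f
    refine ⟨S, hS, h.trans (mul_le_mul_of_nonneg_right (by linarith) ?_)⟩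
    have : (0 : ℝ) ≤ (v : ℝ) - u := by
      have : (u : ℝ) ≤ v := by exact_mod_cast b
      linarith
    positivity
  · intro N hN
    refine (h2 N hN).trans ?_
    have : 0 ≤ Real.log N := Real.log_natCast_nonneg N
    gcongr
    linarith

theorem main' : ∃ (A : Set ℕ) (C : ℝ), A.Infinite ∧ Part3 A C ∧ Part2 A C :=
  main mert_st (bonf_st alt_st crt_st) fac_st base_st (tilt_st rare_st) func_st (comb_st func_st)
    (free_st mert_st (bonf_st alt_st crt_st))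

end Pool.Agent.Lib.MP_be93de_nt.Hc
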