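import Pool.Agent.Lib.MP_be93de_nt.Hc.Defs

/-! One level: telescoping over the blocks. -/

namespace Pool.Agent.Lib.MP_be93de_nt.Hc

open Finset Filter Pool.Agent.Lib.MP_be93de_nt.Hb

namespace Stage2x

theorem one_pos {A : Set ℕ} {K : Finset ℕ} (h : ∀ t ∈ K, t ∈ A) : one A K = 1 := if_pos h

theorem one_neg {A : Set ℕ} {K : Finset ℕ} (h : ¬ ∀ t ∈ K, t ∈ A) : one A K = 0 := if_neg h

theorem one_mem (A : Set ℕ) (K : Finset ℕ) : 0 ≤ one A K ∧ one A K ≤ 1 := by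
  by_cases h : ∀ t ∈ K, t ∈ A
  · rw [one_pos h]; norm_num
  · rw [one_neg h]; norm_num

theorem one_split {A A1 A2 : Set ℕ} {K K1 K2 : Finset ℕ}
    (h : (∀ t ∈ K, t ∈ A) ↔ (∀ t ∈ K1, t ∈ A1) ∧ ∀ t ∈ K2, t ∈ A2) :
    one A K = one A1 K1 * one A2 K2 := by
  by_cases h1 : ∀ t ∈ K1, t ∈ A1
  · by_cases h2 : ∀ t ∈ K2, t ∈ A2
    · rw [one_pos (h.2 ⟨h1, h2⟩), one_pos h1, one_pos h2, mul_one]
    · rw [one_neg fun k => h2 (h.1 k).2, one_neg h2, mul_zero]
  · rw [one_neg fun k => h1 (h.1 k).1, one_neg h1, zero_mul]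

theorem T_mono {s r : ℕ} {T : ℕ → ℕ} {B : ℕ → Finset ℕ} (h : Blk s r T B) {i j : ℕ} (hij : i ≤ j)
    (hj : j ≤ nc s) : T i ≤ T j := by
  induction j, hij using Nat.le_induction with
  | base => exact le_rfl
  | succ j hij ih =>
    have h1 := (h.gap j (by omega)).1
    have h2 := ih (by omega)
    omega

/-- past indicator times the weight of the future -/
noncomputable def Zf (s : ℕ) (T : ℕ → ℕ) (B : ℕ → Finset ℕ) (K : Finset ℕ) (j : ℕ) : ℝ :=
  one ((range j).biUnion B : Finset ℕ) (K.filter (· < T j)) * ∏ t ∈ K.filter (T j ≤ ·), wt s t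

theorem Zf_step {s r : ℕ} {T : ℕ → ℕ} {B : ℕ → Finset ℕ} (h : Blk s r T B) (K : Finset ℕ) {j : ℕ}
    (hj : j < nc s) : Zf s T B K (j + 1) - Zf s T B K j =
      cf s T B j K * (one (B j) (Kj T j K) - ∏ t ∈ Kj T j K, wt s t) := by
  have hT : T j ≤ T (j + 1) := T_mono h (Nat.le_succ j) hj
  have hU : ∀ t, t ∈ (range j).biUnion B → t < T j := by
    intro t ht
    obtain ⟨i, hi, hti⟩ := mem_biUnion.1 ht
    have hi' := mem_range.1 hi
    have h1 := (mem_Ico.1 (h.sub i (by omega) hti)).2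
    have h2 : T (i + 1) ≤ T j := T_mono h hi' hj.le
    omega
  have hB : ∀ t, t ∈ B j → T j ≤ t := by
    intro t ht
    have := (mem_Ico.1 (h.sub j hj ht)).1
    omega
  have hS : ∀ t, t ∈ (range (j + 1)).biUnion B ↔ t ∈ B j ∨ t ∈ (range j).biUnion B := by
    intro t
    rw [range_add_one, biUnion_insert, mem_union]
  have e1 : one ((range (j + 1)).biUnion B : Finset ℕ) (K.filter (· < T (j + 1))) =
      one ((range j).biUnion B : Finset ℕ) (K.filter (· < T j)) * one (B j) (Kj T j K) := by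
    refine one_split ⟨fun k => ⟨fun t ht => ?_, fun t ht => ?_⟩, fun k t ht => ?_⟩
    · have h1 := mem_filter.1 ht
      rcases (hS t).1 (mem_coe.1 (k t (mem_filter.2 ⟨h1.1, h1.2.trans_le hT⟩))) with h2 | h2
      · exact absurd (hB t h2) (not_le.2 h1.2)
      · exact mem_coe.2 h2
    · have h1 := mem_filter.1 ht
      rcases (hS t).1 (mem_coe.1 (k t (mem_filter.2 ⟨h1.1, h1.2.2⟩))) with h2 | h2
      · exact mem_coe.2 h2
      · exact absurd (hU t h2) (not_lt.2 h1.2.1)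
    · have h1 := mem_filter.1 ht
      refine mem_coe.2 ((hS t).2 ?_)
      by_cases h2 : t < T j
      · exact Or.inr (mem_coe.1 (k.1 t (mem_filter.2 ⟨h1.1, h2⟩)))
      · exact Or.inl (mem_coe.1 (k.2 t (mem_filter.2 ⟨h1.1, not_lt.1 h2, h1.2⟩)))
  have e2 : ∏ t ∈ K.filter (T j ≤ ·), wt s t =
      (∏ t ∈ Kj T j K, wt s t) * ∏ t ∈ K.filter (T (j + 1) ≤ ·), wt s t := by
    rw [← prod_union]
    · refine prod_congr ?_ fun _ _ => rfl
      ext t
      rw [mem_union, Kj, mem_filter, mem_filter, mem_filter]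
      constructor
      · rintro ⟨h1, h2⟩
        by_cases h3 : t < T (j + 1)
        · exact Or.inl ⟨h1, h2, h3⟩
        · exact Or.inr ⟨h1, not_lt.1 h3⟩
      · rintro (⟨h1, h2, -⟩ | ⟨h1, h2⟩)
        · exact ⟨h1, h2⟩
        · exact ⟨h1, hT.trans h2⟩
    · exact disjoint_left.2 fun t h1 h2 =>
        absurd (mem_filter.1 h1).2.2 (not_lt.2 (mem_filter.1 h2).2)
  unfold Zf cf
  rw [e1, e2]
  ring

theorem tele {s r : ℕ} {T : ℕ → ℕ} {B : ℕ → Finset ℕ} (h : Blk s r T B) {K : Finset ℕ}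
    (hK : K ⊆ Ico (X s) (X (2 * s))) :
    one ((range (nc s)).biUnion B : Finset ℕ) K - ∏ t ∈ K, wt s t =
      ∑ j ∈ range (nc s), cf s T B j K * (one (B j) (Kj T j K) - ∏ t ∈ Kj T j K, wt s t) := by
  rw [← sum_congr rfl fun j hj => Zf_step h K (mem_range.1 hj), sum_range_sub (Zf s T B K)]
  have a1 : K.filter (· < T (nc s)) = K :=
    filter_true_of_mem fun t ht => by rw [h.t1]; exact (mem_Ico.1 (hK ht)).2
  have a2 : K.filter (T (nc s) ≤ ·) = ∅ :=
    filter_false_of_mem fun t ht => by rw [h.t1]; exact not_le.2 (mem_Ico.1 (hK ht)).2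
  have a3 : K.filter (· < T 0) = ∅ :=
    filter_false_of_mem fun t ht => by rw [h.t0]; exact not_lt.2 (mem_Ico.1 (hK ht)).1
  have a4 : K.filter (T 0 ≤ ·) = K :=
    filter_true_of_mem fun t ht => by rw [h.t0]; exact (mem_Ico.1 (hK ht)).1
  unfold Zf
  rw [a1, a2, a3, a4, prod_empty, mul_one, one_pos (K := ∅) (fun t ht => absurd ht (notMem_empty t)),
    one_mul]

theorem sum_Kj {s r : ℕ} {T : ℕ → ℕ} {B : ℕ → Finset ℕ} (h : Blk s r T B) (K : Finset ℕ) :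
    ∀ n ≤ nc s, ∑ j ∈ range n, (Kj T j K).card ≤ (K.filter (· < T n)).card := by
  intro n
  induction n with
  | zero => intro _; simp
  | succ n ih =>
    intro hn
    have hT : T n ≤ T (n + 1) := T_mono h (Nat.le_succ n) hn
    have h1 := ih (by omega)
    have h2 : (K.filter (· < T n)).card + (Kj T n K).card ≤ (K.filter (· < T (n + 1))).card := by
      rw [← card_union_of_disjoint (disjoint_left.2 fun t h1 h2 =>
        absurd (mem_filter.1 h1).2 (not_lt.2 (mem_filter.1 h2).2.1))]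
      refine card_le_card fun t ht => ?_
      rcases mem_union.1 ht with k | k
      · exact mem_filter.2 ⟨(mem_filter.1 k).1, (mem_filter.1 k).2.trans_le hT⟩
      · exact mem_filter.2 ⟨(mem_filter.1 k).1, (mem_filter.1 k).2.2⟩
    rw [sum_range_succ]
    omega

theorem dc (M Z : Finset ℕ) (K : ℕ → Finset ℕ) :
    ∑ t ∈ Z, ((M.filter (fun m => t ∈ K m)).card : ℝ) =
      ∑ m ∈ M, ((Z.filter (fun t => t ∈ K m)).card : ℝ) := by
  simp only [card_filter]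
  push_cast
  exact sum_comm

theorem prod_mem {w : ℕ → ℝ} {L : Finset ℕ} (h : ∀ t ∈ L, 0 ≤ w t ∧ w t ≤ 1) :
    0 ≤ ∏ t ∈ L, w t ∧ ∏ t ∈ L, w t ≤ 1 :=
  ⟨prod_nonneg fun t ht => (h t ht).1, prod_le_one (fun t ht => (h t ht).1) fun t ht => (h t ht).2⟩

theorem term_le {T : ℕ → ℕ} {j s z : ℕ} {K : Finset ℕ} {ν : Finset ℕ → ℝ} {w : ℕ → ℝ} {ε : ℝ}
    (hε : 0 ≤ ε) (hK : K.card ≤ s) (hw : ∀ t ∈ K, 0 ≤ w t ∧ w t ≤ 1) (h0 : ν ∅ = 1)
    (h1 : ∀ L, 0 ≤ ν L ∧ ν L ≤ 1)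
    (h2 : ∀ L ⊆ Ico z (T (j + 1)), L.card ≤ s → |ν L - ∏ t ∈ L, w t| ≤ ε) :
    |ν (Kj T j K) - ∏ t ∈ Kj T j K, w t| ≤
      ε * (Kj T j K).card + (((Ico (T j) z).filter (fun t => t ∈ K)).card : ℝ) := by
  have c1 : (0 : ℝ) ≤ (Kj T j K).card := Nat.cast_nonneg _
  have c2 : (0 : ℝ) ≤ (((Ico (T j) z).filter (fun t => t ∈ K)).card : ℝ) := Nat.cast_nonneg _
  have c3 := mul_nonneg hε c1
  rcases (Kj T j K).eq_empty_or_nonempty with he | hne
  · rw [he, h0, prod_empty, sub_self, abs_zero, card_empty, Nat.cast_zero, mul_zero, zero_add]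
    exact c2
  · by_cases hs : Kj T j K ⊆ Ico z (T (j + 1))
    · have k1 := h2 _ hs ((card_le_card (filter_subset _ _)).trans hK)
      have k2 : (1 : ℝ) ≤ (Kj T j K).card := by exact_mod_cast card_pos.2 hne
      have k3 := mul_le_mul_of_nonneg_left k2 hε
      linarith
    · obtain ⟨t, ht, ht'⟩ := not_subset.1 hs
      have k0 := mem_filter.1 ht
      have k1 : t < z := by
        by_contra hc
        exact ht' (mem_Ico.2 ⟨not_lt.1 hc, k0.2.2⟩)
      have k2 : (1 : ℝ) ≤ (((Ico (T j) z).filter (fun t => t ∈ K)).card : ℝ) := by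
        exact_mod_cast card_pos.2 ⟨t, mem_filter.2 ⟨mem_Ico.2 ⟨k0.2.1, k1⟩, k0.1⟩⟩
      have k3 := prod_mem (w := w) (L := Kj T j K) fun t ht => hw t (mem_filter.1 ht).1
      have k4 := h1 (Kj T j K)
      have k5 : |ν (Kj T j K) - ∏ t ∈ Kj T j K, w t| ≤ 1 :=
        abs_le.2 ⟨by linarith [k3.2, k4.1], by linarith [k3.1, k4.2]⟩
      linarith

theorem num1 (s : ℕ) (hs : 20 ≤ s) : 5 * (s : ℝ) / 2 ^ s ≤ (2 / 3) ^ s := by
  have h : 5 * (s : ℝ) ≤ (4 / 3) ^ s := by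
    induction s, hs using Nat.le_induction with
    | base => norm_num
    | succ n hn ih =>
      have : (20 : ℝ) ≤ n := by exact_mod_cast hn
      rw [pow_succ]
      push_cast
      linarith
  rw [div_le_iff₀ (by positivity), ← mul_pow]
  norm_num
  exact h

theorem num2 (s : ℕ) (hs : 20 ≤ s) : 2 * (2 : ℝ) ^ (s ^ 8 + 3 * s) ≤ 2 ^ (2 * s ^ 8) := by
  rw [← pow_succ']
  refine pow_le_pow_right₀ (by norm_num) ?_
  have h1 : s ^ 2 ≤ s ^ 8 := Nat.pow_le_pow_right (by omega) (by norm_num)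
  have h2 : 20 * s ≤ s ^ 2 := by rw [sq]; exact Nat.mul_le_mul_right s hs
  omega

end Stage2x

open Stage2x in
theorem stage2_st (h1 : RunSt) (h2 : BoundSt) (h3 : Union2St) (h4 : WtSt) :
    Stage2St := by
  filter_upwards [h1, h2, h4, eventually_ge_atTop 20] with s hR hB hW hs
  intro r ι I Mi K γ hI hK hn
  obtain ⟨T, t0, t1, tg, hz⟩ :=
    hB ι I (fun τ t => ((Mi τ).filter (fun m => t ∈ K τ m)).card) hI hn
  obtain ⟨B, ν, hb, hν, hr⟩ := hR r ι I Mi K γ T hI hK hn t0 t1 tg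
  refine ⟨(range (nc s)).biUnion B, h3 s r T B (by omega) hb, fun τ hτ => ?_⟩
  have hs1 : (1 : ℝ) ≤ s := by exact_mod_cast (by omega : 1 ≤ s)
  have hw : ∀ t, X s ≤ t → 0 ≤ wt s t ∧ wt s t ≤ 1 := fun t ht =>
    ⟨(hW.1 t ht).1, (hW.1 t ht).2.trans (by
      rw [div_le_one (by positivity)]; exact one_le_pow₀ hs1)⟩
  obtain ⟨ε, hε⟩ : ∃ ε : ℝ, ε = 2 / 2 ^ s := ⟨_, rfl⟩
  have ε0 : 0 ≤ ε := by rw [hε]; positivity
  have r1 := hr τ hτ
  have z1 := hz τ hτ
  rw [← hε] at z1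
  have hsplit : ∑ m ∈ Mi τ, γ τ m *
        (one ((range (nc s)).biUnion B : Finset ℕ) (K τ m) - ∏ t ∈ K τ m, wt s t) =
      (∑ j ∈ range (nc s), ∑ m ∈ Mi τ, γ τ m * cf s T B j (K τ m) *
          (one (B j) (Kj T j (K τ m)) - ν j (Kj T j (K τ m)))) +
        ∑ m ∈ Mi τ, ∑ j ∈ range (nc s), γ τ m * cf s T B j (K τ m) *
          (ν j (Kj T j (K τ m)) - ∏ t ∈ Kj T j (K τ m), wt s t) := by
    rw [sum_comm (s := range (nc s)), ← sum_add_distrib]
    refine sum_congr rfl fun m hm => ?_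
    rw [tele hb (hK τ hτ m hm).2.1, mul_sum, ← sum_add_distrib]
    exact sum_congr rfl fun j _ => by ring
  have hone : ∀ m ∈ Mi τ, |∑ j ∈ range (nc s), γ τ m * cf s T B j (K τ m) *
        (ν j (Kj T j (K τ m)) - ∏ t ∈ Kj T j (K τ m), wt s t)| ≤ ε * s +
      ∑ j ∈ range (nc s), (((Ico (T j) (T j + 3 * R s + 3)).filter (fun t => t ∈ K τ m)).card : ℝ) := by
    intro m hm
    obtain ⟨k1, k2, k3, k4⟩ := hK τ hτ m hm
    have hwK : ∀ t ∈ K τ m, 0 ≤ wt s t ∧ wt s t ≤ 1 := fun t ht => hw t (mem_Ico.1 (k2 ht)).1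
    have c1 : ((∑ j ∈ range (nc s), (Kj T j (K τ m)).card : ℕ) : ℝ) ≤ s := by
      exact_mod_cast (sum_Kj hb (K τ m) _ le_rfl).trans
        ((card_le_card (filter_subset _ _)).trans k1)
    rw [Nat.cast_sum] at c1
    have c2 := mul_le_mul_of_nonneg_left c1 ε0
    refine (abs_sum_le_sum_abs _ _).trans (le_trans (sum_le_sum (g := fun j =>
      ε * (Kj T j (K τ m)).card +
        (((Ico (T j) (T j + 3 * R s + 3)).filter (fun t => t ∈ K τ m)).card : ℝ))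
      fun j hj => ?_) ?_)
    · obtain ⟨n0, n1, n2⟩ := hν j (mem_range.1 hj)
      have d1 := term_le (T := T) (j := j) ε0 k1 hwK n0 n1 (by rw [hε]; exact n2)
      have d2 := one_mem ((range j).biUnion B : Finset ℕ) ((K τ m).filter (· < T j))
      have d3 := prod_mem (w := wt s) (L := (K τ m).filter (T (j + 1) ≤ ·))
        fun t ht => hwK t (mem_filter.1 ht).1
      have d4 : 0 ≤ cf s T B j (K τ m) := mul_nonneg d2.1 d3.1
      have d5 : cf s T B j (K τ m) ≤ 1 := mul_le_one₀ d2.2 d3.1 d3.2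
      rw [abs_mul, abs_of_nonneg (mul_nonneg k3 d4)]
      exact (mul_le_of_le_one_left (abs_nonneg _) (mul_le_one₀ k4 d4 d5)).trans d1
    · rw [sum_add_distrib, ← mul_sum]
      linarith
  have hall : ∑ t ∈ Ico (X s) (X (2 * s)), (((Mi τ).filter (fun m => t ∈ K τ m)).card : ℝ) ≤
      (Mi τ).card * s := by
    rw [dc, ← nsmul_eq_mul, ← sum_const]
    refine sum_le_sum fun m hm => ?_
    exact_mod_cast (card_le_card fun t ht => (mem_filter.1 ht).2).trans (hK τ hτ m hm).1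
  have hzone : ∑ m ∈ Mi τ, ∑ j ∈ range (nc s),
        (((Ico (T j) (T j + 3 * R s + 3)).filter (fun t => t ∈ K τ m)).card : ℝ) =
      ∑ j ∈ range (nc s), ∑ t ∈ Ico (T j) (T j + 3 * R s + 3),
        (((Mi τ).filter (fun m => t ∈ K τ m)).card : ℝ) := by
    rw [sum_comm]
    exact sum_congr rfl fun j _ => (dc _ _ _).symm
  have r2 := (abs_sum_le_sum_abs _ _).trans (sum_le_sum hone)
  rw [sum_add_distrib, sum_const, nsmul_eq_mul, hzone] at r2
  have q1 := mul_le_mul_of_nonneg_left hall ε0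
  have q2 := mul_le_mul_of_nonneg_left (num1 s hs) (Nat.cast_nonneg (α := ℝ) (Mi τ).card)
  have q3 := num2 s hs
  have q4 : ((Mi τ).card : ℝ) * (5 * (s : ℝ) / 2 ^ s) =
      s * (Mi τ).card / 2 ^ s + (Mi τ).card * (ε * s) + ε * ((Mi τ).card * s) := by
    rw [hε]; ring
  rw [hsplit]
  refine (abs_add_le _ _).trans ?_
  linarith

end Pool.Agent.Lib.MP_be93de_nt.Hc
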